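import Mathlib

/-!
The entire function `(1 - e^{-z}) / z`, its square root, and the function
`η ↦ η e^{η²/2} √ψ(η²)`, a square root of `e^{η²} - 1`.
-/

namespace Pool.Agent.Helper12.K3

open Complex Set Filter Topology

/-- `(1 - e^{-z}) / z` -/
noncomputable def psi (z : ℂ) : ℂ := dslope (fun w : ℂ => 1 - exp (-w)) 0 z

lemma mul_psi (z : ℂ) : z * psi z = 1 - exp (-z) := by
  have h := sub_smul_dslope (fun w : ℂ => 1 - exp (-w)) 0 z
  simpa [psi, smul_eq_mul] using h

lemma hasDerivAt_one_sub_exp_neg (z : ℂ) :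
    HasDerivAt (fun w : ℂ => 1 - exp (-w)) (exp (-z)) z := by
  have h1 : HasDerivAt (fun w : ℂ => exp (-w)) (exp (-z) * (-1)) z :=
    ((hasDerivAt_id z).neg).cexp
  have h2 := h1.const_sub 1
  simpa using h2

lemma psi_zero : psi 0 = 1 := by
  unfold psi
  rw [dslope_same, (hasDerivAt_one_sub_exp_neg 0).deriv]
  simp

lemma psi_differentiable : Differentiable ℂ psi := by
  have h : DifferentiableOn ℂ (fun w : ℂ => 1 - exp (-w)) univ := fun z _ =>
    (hasDerivAt_one_sub_exp_neg z).differentiableAt.differentiableWithinAt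
  have h2 := (Complex.differentiableOn_dslope (c := 0) (s := univ) univ_mem).2 h
  exact differentiableOn_univ.1 h2

lemma psi_analyticAt (z : ℂ) : AnalyticAt ℂ psi z :=
  psi_differentiable.analyticAt z

lemma mul_deriv_psi (z : ℂ) : z * deriv psi z + psi z = exp (-z) := by
  have h1 : HasDerivAt (fun w : ℂ => w * psi w) (1 * psi z + z * deriv psi z) z :=
    (hasDerivAt_id z).mul (psi_differentiable z).hasDerivAt
  have h2 : (fun w : ℂ => w * psi w) = fun w => 1 - exp (-w) := funext mul_psi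
  rw [h2] at h1
  have := h1.unique (hasDerivAt_one_sub_exp_neg z)
  linear_combination this

lemma re_one_sub_exp_neg {z : ℂ} (hz : 0 < z.re) : 0 < (1 - exp (-z)).re := by
  have h1 : (exp (-z)).re ≤ ‖exp (-z)‖ := Complex.re_le_norm _
  have h2 : ‖exp (-z)‖ < 1 := by
    rw [Complex.norm_exp]
    simp [hz]
  rw [Complex.sub_re, Complex.one_re]
  linarith

lemma psi_mem {z : ℂ} (hz : 0 < z.re ∨ z = 0) : psi z ∈ slitPlane := by
  rcases hz with hz | rfl
  · by_contra hc
    rw [Complex.mem_slitPlane_iff, not_or, not_lt, not_not] at hc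
    have h1 := re_one_sub_exp_neg hz
    rw [← mul_psi, Complex.mul_re, hc.2] at h1
    nlinarith [hc.1]
  · rw [psi_zero]
    exact Complex.one_mem_slitPlane

/-- the principal square root -/
noncomputable def rt (w : ℂ) : ℂ := w ^ (2⁻¹ : ℂ)

lemma rt_sq (w : ℂ) : rt w ^ 2 = w := by
  have := Complex.cpow_nat_inv_pow w (n := 2) two_ne_zero
  simpa [rt] using this

lemma rt_mul_self (w : ℂ) : rt w * rt w = w := by
  rw [← sq, rt_sq]

lemma rt_ne {w : ℂ} (hw : w ∈ slitPlane) : rt w ≠ 0 := by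
  intro h
  have := rt_sq w
  rw [h] at this
  exact Complex.slitPlane_ne_zero hw (by simpa using this.symm)

lemma rt_re_pos {w : ℂ} (hw : w ∈ slitPlane) : 0 < (rt w).re := by
  have hw0 := Complex.slitPlane_ne_zero hw
  have harg : |w.arg| < Real.pi := by
    have h1 := Complex.abs_arg_le_pi w
    have h2 := (Complex.mem_slitPlane_iff_arg.1 hw).1
    rcases lt_or_eq_of_le h1 with h | h
    · exact h
    · exfalso
      rcases (abs_eq Real.pi_pos.le).1 h with h3 | h3
      · exact h2 h3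
      · have := Complex.neg_pi_lt_arg w
        linarith
  unfold rt
  rw [Complex.cpow_def_of_ne_zero hw0, Complex.exp_re]
  have him : (Complex.log w * 2⁻¹).im = w.arg / 2 := by
    have : (2⁻¹ : ℂ) = ((2⁻¹ : ℝ) : ℂ) := by push_cast; rfl
    rw [this, Complex.im_mul_ofReal, Complex.log_im]
    ring
  rw [him]
  refine mul_pos (Real.exp_pos _) (Real.cos_pos_of_mem_Ioo ⟨?_, ?_⟩)
  · have := (abs_lt.1 harg).1
    linarith
  · have := (abs_lt.1 harg).2
    linarith

lemma rt_analyticAt {w : ℂ} (hw : w ∈ slitPlane) : AnalyticAt ℂ rt w := by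
  have h : AnalyticAt ℂ (fun z : ℂ => z ^ (2⁻¹ : ℂ)) w :=
    (analyticAt_id).cpow analyticAt_const hw
  exact h

lemma hasDerivAt_rt {w : ℂ} (hw : w ∈ slitPlane) : HasDerivAt rt (1 / (2 * rt w)) w := by
  have hd : HasDerivAt rt (deriv rt w) w := (rt_analyticAt hw).differentiableAt.hasDerivAt
  have h2 : HasDerivAt (fun z => rt z * rt z) (deriv rt w * rt w + rt w * deriv rt w) w :=
    hd.mul hd
  have h3 : (fun z => rt z * rt z) = fun z => z := funext rt_mul_self
  rw [h3] at h2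
  have h4 := h2.unique (hasDerivAt_id w)
  have h5 : deriv rt w = 1 / (2 * rt w) := by
    have := rt_ne hw
    field_simp
    linear_combination h4
  rw [← h5]
  exact hd

lemma rt_conj {w : ℂ} (hw : w ∈ slitPlane) :
    rt ((starRingEnd ℂ) w) = (starRingEnd ℂ) (rt w) := by
  unfold rt
  have h := Complex.cpow_conj w (2⁻¹ : ℂ) (by
    intro h
    exact (Complex.mem_slitPlane_iff_arg.1 hw).1 h)
  rw [map_inv₀, map_ofNat] at h
  rw [h]
  simp

lemma rt_ofReal {x : ℝ} (hx : 0 ≤ x) : rt (x : ℂ) = ((Real.sqrt x : ℝ) : ℂ) := by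
  unfold rt
  have : (2⁻¹ : ℂ) = ((2⁻¹ : ℝ) : ℂ) := by push_cast; rfl
  rw [this, ← Complex.ofReal_cpow hx, Real.sqrt_eq_rpow]
  norm_num

/-- the function `e^{-z/2} / √ψ(z)` -/
noncomputable def kp (z : ℂ) : ℂ := exp (-z / 2) / rt (psi z)

/-- the square root `η e^{η²/2} √ψ(η²)` of `e^{η²} - 1` -/
noncomputable def S (η : ℂ) : ℂ := η * exp (η ^ 2 / 2) * rt (psi (η ^ 2))

lemma S_sq (η : ℂ) : S η ^ 2 = exp (η ^ 2) - 1 := by
  have h1 : S η ^ 2 = exp (η ^ 2 / 2) ^ 2 * (η ^ 2 * rt (psi (η ^ 2)) ^ 2) := by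
    unfold S
    ring
  rw [h1, rt_sq, mul_psi, ← Complex.exp_nat_mul, mul_sub, mul_one]
  have : ((2 : ℕ) : ℂ) * (η ^ 2 / 2) = η ^ 2 := by push_cast; ring
  rw [this, ← Complex.exp_add]
  simp

lemma S_analyticAt {η : ℂ} (h : psi (η ^ 2) ∈ slitPlane) : AnalyticAt ℂ S η := by
  have h1 : AnalyticAt ℂ (fun z : ℂ => z ^ 2) η := analyticAt_id.pow 2
  have h2 : AnalyticAt ℂ (fun z : ℂ => psi (z ^ 2)) η := (psi_analyticAt _).comp h1
  have h3 : AnalyticAt ℂ (fun z : ℂ => rt (psi (z ^ 2))) η :=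
    AnalyticAt.comp (g := rt) (f := fun z : ℂ => psi (z ^ 2)) (rt_analyticAt h) h2
  have h4 : AnalyticAt ℂ (fun z : ℂ => exp (z ^ 2 / 2)) η := (h1.div_const (c := 2)).cexp
  exact (analyticAt_id.mul h4).mul h3

lemma hasDerivAt_S {η : ℂ} (h : psi (η ^ 2) ∈ slitPlane) :
    HasDerivAt S (exp (η ^ 2) * kp (η ^ 2)) η := by
  have h0 : HasDerivAt (fun z : ℂ => z ^ 2) (2 * η) η := by
    simpa using hasDerivAt_pow 2 η
  have h1 : HasDerivAt (fun z : ℂ => exp (z ^ 2 / 2)) (exp (η ^ 2 / 2) * (2 * η / 2)) η :=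
    (h0.div_const 2).cexp
  have h2 : HasDerivAt (fun z : ℂ => psi (z ^ 2)) (deriv psi (η ^ 2) * (2 * η)) η :=
    HasDerivAt.comp η (psi_differentiable (η ^ 2)).hasDerivAt h0
  have h3 : HasDerivAt (fun z : ℂ => rt (psi (z ^ 2)))
      (1 / (2 * rt (psi (η ^ 2))) * (deriv psi (η ^ 2) * (2 * η))) η :=
    HasDerivAt.comp η (hasDerivAt_rt h) h2
  have h4 := ((hasDerivAt_id η).mul h1).mul h3
  have hr := rt_ne h
  have hpsi := mul_psi (η ^ 2)
  have hd := mul_deriv_psi (η ^ 2)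
  have hsq := rt_sq (psi (η ^ 2))
  have hE : exp (η ^ 2) = exp (η ^ 2 / 2) * exp (η ^ 2 / 2) := by
    rw [← Complex.exp_add]
    ring_nf
  have hE' : exp (-(η ^ 2)) * exp (η ^ 2) = 1 := by
    rw [← Complex.exp_add]
    simp
  have hk : exp (-(η ^ 2) / 2) * exp (η ^ 2 / 2) = 1 := by
    rw [← Complex.exp_add]
    ring_nf
    simp
  refine h4.congr_deriv ?_
  unfold kp
  simp only [Pi.mul_apply, id]
  set r := rt (psi (η ^ 2)) with hrdef
  set e := exp (η ^ 2 / 2) with hedef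
  set ei := exp (-(η ^ 2) / 2) with heidef
  rw [hE]
  field_simp
  -- everything in terms of e, ei, r, psi, psi'
  rw [hE] at hE'
  set p := psi (η ^ 2)
  set p' := deriv psi (η ^ 2)
  set em := exp (-(η ^ 2))
  linear_combination (e * (1 + η ^ 2)) * hsq + e * hd + e * hpsi - e * hk

end Pool.Agent.Helper12.K3
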