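import Mathlib
import Pool.Agent.Helper12.K3.Psi

/-!
The function `h(F) = 2 ∫ e^{-F/2} / (√ψ(F cos² t) √ψ(F sin² t)) dt`: positivity on the positive real
axis, sign on the shifted axis, decay.
-/

namespace Pool.Agent.Helper12.K3

open Complex Set Filter Topology

/-- squares with positive real parts determine the root -/
lemma eq_of_sq_eq_of_re_pos {a b : ℂ} (h : a ^ 2 = b ^ 2) (ha : 0 < a.re) (hb : 0 < b.re) :
    a = b := by
  rcases sq_eq_sq_iff_eq_or_eq_neg.1 h with h | h
  · exact h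
  · exfalso
    have : a.re = -b.re := by rw [h]; simp
    linarith

lemma abs_im_lt {a : ℂ} (ha : 0 < a.re) (h : 0 < (a ^ 2).re) : |a.im| < a.re := by
  rw [sq, Complex.mul_re] at h
  refine abs_lt_of_sq_lt_sq ?_ ha.le
  nlinarith

lemma re_mul_conj_pos {a b : ℂ} (ha : |a.im| < a.re) (hb : |b.im| < b.re) :
    0 < a.re * b.re + a.im * b.im ∧ 0 < a.re * b.re - a.im * b.im := by
  have h1 : |a.im * b.im| < a.re * b.re := by
    rw [abs_mul]
    exact mul_lt_mul'' ha hb (abs_nonneg _) (abs_nonneg _)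
  have h2 := abs_lt.1 h1
  constructor
  · linarith [h2.1]
  · linarith [h2.2]

lemma mem_slit_of_re {z : ℂ} (hz : 0 < z.re) : z ∈ slitPlane :=
  Complex.mem_slitPlane_iff.2 (Or.inl hz)

/-- the square root of `ψ` as a quotient -/
lemma rt_psi_eq {z : ℂ} (hz : 0 < z.re) : rt (psi z) = rt (1 - exp (-z)) / rt z := by
  have hu := re_one_sub_exp_neg hz
  have hz0 : z ≠ 0 := by
    intro h
    rw [h] at hz
    simp at hz
  have hz' := mem_slit_of_re hz
  have hu' := mem_slit_of_re hu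
  have hb := rt_ne hz'
  refine eq_of_sq_eq_of_re_pos ?_ (rt_re_pos (psi_mem (Or.inl hz))) ?_
  · rw [rt_sq, div_pow, rt_sq, rt_sq, ← mul_psi]
    field_simp
  · have h1 := abs_im_lt (rt_re_pos hu') (by rw [rt_sq]; exact hu)
    have h2 := abs_im_lt (rt_re_pos hz') (by rw [rt_sq]; exact hz)
    have h3 := (re_mul_conj_pos h1 h2).1
    rw [Complex.div_re]
    have h4 : 0 < Complex.normSq (rt z) := Complex.normSq_pos.2 hb
    rw [← add_div]
    exact div_pos h3 h4

lemma exp_shift (x c : ℝ) : exp (-((c : ℂ) * ((x : ℂ) - 2 * Real.pi * I))) =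
    Real.exp (-(c * x)) * exp ((2 * Real.pi * c : ℝ) * I) := by
  rw [Complex.ofReal_exp, ← Complex.exp_add]
  congr 1
  push_cast
  ring

lemma shift_sign (x : ℝ) (hx : 0 < x) (c : ℝ) (hc0 : 0 ≤ c) (hc1 : c ≤ 1) :
    0 ≤ Real.sin (2 * Real.pi * c) * (Real.exp (-(c * x)) - Real.exp (-((1 - c) * x))) := by
  have hpi := Real.pi_pos
  rcases le_total c (1 / 2) with h | h
  · refine mul_nonneg (Real.sin_nonneg_of_nonneg_of_le_pi (by positivity) (by nlinarith)) ?_
    rw [sub_nonneg]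
    apply Real.exp_le_exp.2
    nlinarith
  · refine mul_nonneg_of_nonpos_of_nonpos ?_ ?_
    · have h1 : Real.sin (2 * Real.pi * c) = - Real.sin (2 * Real.pi * c - Real.pi) := by
        rw [Real.sin_sub_pi]
        ring
      rw [h1, neg_nonpos]
      exact Real.sin_nonneg_of_nonneg_of_le_pi (by nlinarith) (by nlinarith)
    · rw [sub_nonpos]
      apply Real.exp_le_exp.2
      nlinarith

/-- pointwise sign on the shifted axis -/
lemma re_kp_shift {x : ℝ} (hx : 0 < x) {c : ℝ} (hc0 : 0 ≤ c) (hc1 : c ≤ 1) :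
    (kp ((c : ℂ) * ((x : ℂ) - 2 * Real.pi * I)) *
      kp (((1 - c : ℝ) : ℂ) * ((x : ℂ) - 2 * Real.pi * I))).re ≤ 0 := by
  set F : ℂ := (x : ℂ) - 2 * Real.pi * I with hF
  have hFre : F.re = x := by simp [hF]
  have hFim : F.im = -(2 * Real.pi) := by simp [hF]
  set ζ1 : ℂ := (c : ℂ) * F with hζ1
  set ζ2 : ℂ := ((1 - c : ℝ) : ℂ) * F with hζ2
  have hsum : ζ1 + ζ2 = F := by
    rw [hζ1, hζ2]
    push_cast
    ring
  have hexp : exp (-ζ1 / 2) * exp (-ζ2 / 2) = -(Real.exp (-x / 2) : ℂ) := by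
    rw [← Complex.exp_add]
    have : -ζ1 / 2 + -ζ2 / 2 = ((-x / 2 : ℝ) : ℂ) + Real.pi * I := by
      rw [← add_div, ← neg_add, hsum, hF]
      push_cast
      ring
    rw [this, Complex.exp_add, Complex.exp_pi_mul_I, Complex.ofReal_exp]
    ring
  have key : 0 ≤ ((rt (psi ζ1) * rt (psi ζ2))⁻¹).re := by
    have hm : 0 < F.re ∨ F = 0 := Or.inl (by rw [hFre]; exact hx)
    have hinv : ∀ w : ℂ, 0 < w.re → 0 ≤ (w⁻¹).re := by
      intro w hw
      rw [Complex.inv_re]
      exact div_nonneg hw.le (Complex.normSq_nonneg _)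
    have hone : rt (psi 0) = 1 := by
      rw [psi_zero]
      simp [rt]
    rcases eq_or_lt_of_le hc0 with hc | hc
    · have h1 : ζ1 = 0 := by rw [hζ1, ← hc]; simp
      have h2 : ζ2 = F := by rw [← hsum, h1, zero_add]
      rw [h1, h2, hone, one_mul]
      exact hinv _ (rt_re_pos (psi_mem hm))
    rcases eq_or_lt_of_le hc1 with hc' | hc'
    · have h2 : ζ2 = 0 := by rw [hζ2, hc']; simp
      have h1 : ζ1 = F := by rw [← hsum, h2, add_zero]
      rw [h1, h2, hone, mul_one]
      exact hinv _ (rt_re_pos (psi_mem hm))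
    have hr1 : 0 < ζ1.re := by
      rw [hζ1, Complex.re_ofReal_mul, hFre]
      positivity
    have hr2 : 0 < ζ2.re := by
      rw [hζ2, Complex.re_ofReal_mul, hFre]
      exact mul_pos (by linarith) hx
    rw [rt_psi_eq hr1, rt_psi_eq hr2]
    have hu1 := re_one_sub_exp_neg hr1
    have hu2 := re_one_sub_exp_neg hr2
    have a1 := abs_im_lt (rt_re_pos (mem_slit_of_re hu1)) (by rw [rt_sq]; exact hu1)
    have a2 := abs_im_lt (rt_re_pos (mem_slit_of_re hu2)) (by rw [rt_sq]; exact hu2)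
    have b1 := abs_im_lt (rt_re_pos (mem_slit_of_re hr1)) (by rw [rt_sq]; exact hr1)
    have b2 := abs_im_lt (rt_re_pos (mem_slit_of_re hr2)) (by rw [rt_sq]; exact hr2)
    have hb : rt ζ1 * rt ζ2 = ((Real.sqrt (c * (1 - c)) : ℝ) : ℂ) * F := by
      refine eq_of_sq_eq_of_re_pos ?_ ?_ ?_
      · rw [mul_pow, rt_sq, rt_sq, mul_pow, ← Complex.ofReal_pow,
          Real.sq_sqrt (mul_nonneg hc.le (by linarith)), hζ1, hζ2]
        push_cast
        ring
      · rw [Complex.mul_re]
        exact (re_mul_conj_pos b1 b2).2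
      · rw [Complex.re_ofReal_mul, hFre]
        exact mul_pos (Real.sqrt_pos.2 (mul_pos hc (by linarith))) hx
    set W : ℂ := rt (1 - exp (-ζ1)) * rt (1 - exp (-ζ2)) with hW
    have hWre : 0 < W.re := by
      rw [hW, Complex.mul_re]
      exact (re_mul_conj_pos a1 a2).2
    have hWsq : W ^ 2 = (1 - exp (-ζ1)) * (1 - exp (-ζ2)) := by
      rw [hW, mul_pow, rt_sq, rt_sq]
    have hWim2 : (W ^ 2).im ≤ 0 := by
      have e3 : exp (-ζ1) * exp (-ζ2) = (Real.exp (-x) : ℂ) := by
        rw [← Complex.exp_add, ← neg_add, hsum, hF]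
        have : -((x : ℂ) - 2 * Real.pi * I) = ((-x : ℝ) : ℂ) + 2 * Real.pi * I := by
          push_cast
          ring
        rw [this, Complex.exp_add, Complex.exp_two_pi_mul_I, mul_one, Complex.ofReal_exp]
      have e4 : W ^ 2 = 1 - exp (-ζ1) - exp (-ζ2) + (Real.exp (-x) : ℂ) := by
        rw [hWsq, ← e3]
        ring
      have e5 := exp_shift x c
      have e6 := exp_shift x (1 - c)
      rw [← hF, ← hζ1] at e5
      rw [← hF, ← hζ2] at e6
      have i1 : (exp (-ζ1)).im = Real.exp (-(c * x)) * Real.sin (2 * Real.pi * c) := by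
        rw [e5, Complex.im_ofReal_mul, Complex.exp_ofReal_mul_I_im]
      have i2 : (exp (-ζ2)).im = -(Real.exp (-((1 - c) * x)) * Real.sin (2 * Real.pi * c)) := by
        rw [e6, Complex.im_ofReal_mul, Complex.exp_ofReal_mul_I_im]
        have : 2 * Real.pi * (1 - c) = 2 * Real.pi - 2 * Real.pi * c := by ring
        rw [this, Real.sin_two_pi_sub]
        ring
      rw [e4]
      simp only [Complex.add_im, Complex.sub_im, Complex.one_im, Complex.ofReal_im, i1, i2]
      have := shift_sign x hx c hc0 hc1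
      nlinarith
    have hWim : W.im ≤ 0 := by
      rw [sq, Complex.mul_im] at hWim2
      by_contra hcon
      push Not at hcon
      nlinarith
    have hinvW : (rt (1 - exp (-ζ1)) / rt ζ1 * (rt (1 - exp (-ζ2)) / rt ζ2))⁻¹ =
        ((Real.sqrt (c * (1 - c)) : ℝ) : ℂ) * (F / W) := by
      rw [div_mul_div_comm, ← hW, hb, inv_div, mul_div_assoc]
    rw [hinvW, Complex.re_ofReal_mul]
    refine mul_nonneg (Real.sqrt_nonneg _) ?_
    rw [Complex.div_re, ← add_div]
    refine div_nonneg ?_ (Complex.normSq_nonneg _)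
    rw [hFre, hFim]
    have hpi := Real.pi_pos
    have h1 : 0 ≤ x * W.re := by positivity
    nlinarith
  have hkk : kp ζ1 * kp ζ2 = -((Real.exp (-x / 2) : ℝ) : ℂ) * (rt (psi ζ1) * rt (psi ζ2))⁻¹ := by
    unfold kp
    rw [div_mul_div_comm, hexp, div_eq_mul_inv]
  rw [hkk, neg_mul, Complex.neg_re, Complex.re_ofReal_mul]
  have := Real.exp_pos (-x / 2)
  nlinarith [mul_nonneg this.le key]

end Pool.Agent.Helper12.K3
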