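import Mathlib
import Pool.Agent.Helper12.K3.Hfun

/-!
The function `h(F)`, continued: definition, reality, positivity, bounds.
-/

namespace Pool.Agent.Helper12.K3

open Complex Set Filter Topology MeasureTheory

/-- the integrand -/
noncomputable def kk (F : ℂ) (t : ℝ) : ℂ :=
  kp (((Real.cos t ^ 2 : ℝ) : ℂ) * F) * kp (((1 - Real.cos t ^ 2 : ℝ) : ℂ) * F)

/-- the function `h` -/
noncomputable def hF (F : ℂ) : ℂ := ∫ t in (0 : ℝ)..(2 * Real.pi), 2 * kk F t

lemma cos_sq_mem (t : ℝ) : 0 ≤ Real.cos t ^ 2 ∧ Real.cos t ^ 2 ≤ 1 :=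
  ⟨sq_nonneg _, Real.cos_sq_le_one t⟩

/-- real scaling stays in the good set -/
lemma good_smul {F : ℂ} (hF : 0 < F.re) {c : ℝ} (hc : 0 ≤ c) :
    0 < ((c : ℂ) * F).re ∨ (c : ℂ) * F = 0 := by
  rcases eq_or_lt_of_le hc with h | h
  · right
    rw [← h]
    simp
  · left
    rw [Complex.re_ofReal_mul]
    exact mul_pos h hF

lemma kp_analyticAt {z : ℂ} (h : psi z ∈ slitPlane) : AnalyticAt ℂ kp z := by
  have h1 : AnalyticAt ℂ (fun w : ℂ => rt (psi w)) z :=
    AnalyticAt.comp (g := rt) (f := psi) (rt_analyticAt h) (psi_analyticAt z)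
  have h2 : AnalyticAt ℂ (fun w : ℂ => exp (-w / 2)) z :=
    ((analyticAt_id.neg).div_const (c := 2)).cexp
  exact h2.div h1 (rt_ne h)

lemma continuous_kk {X : Type*} [TopologicalSpace X] {F : X → ℂ} (hF : Continuous F)
    (hre : ∀ x, 0 < (F x).re) : Continuous fun p : X × ℝ => kk (F p.1) p.2 := by
  have hc : Continuous fun p : X × ℝ => ((Real.cos p.2 ^ 2 : ℝ) : ℂ) * F p.1 := by fun_prop
  have hc' : Continuous fun p : X × ℝ => ((1 - Real.cos p.2 ^ 2 : ℝ) : ℂ) * F p.1 := by fun_prop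
  have h1 : Continuous fun p : X × ℝ => kp (((Real.cos p.2 ^ 2 : ℝ) : ℂ) * F p.1) := by
    rw [continuous_iff_continuousAt]
    intro p
    exact ContinuousAt.comp (g := kp)
      (f := fun p : X × ℝ => ((Real.cos p.2 ^ 2 : ℝ) : ℂ) * F p.1)
      (kp_analyticAt (psi_mem (good_smul (hre p.1) (cos_sq_mem _).1))).continuousAt hc.continuousAt
  have h2 : Continuous fun p : X × ℝ => kp (((1 - Real.cos p.2 ^ 2 : ℝ) : ℂ) * F p.1) := by
    rw [continuous_iff_continuousAt]
    intro p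
    exact ContinuousAt.comp (g := kp)
      (f := fun p : X × ℝ => ((1 - Real.cos p.2 ^ 2 : ℝ) : ℂ) * F p.1)
      (kp_analyticAt (psi_mem (good_smul (hre p.1) (by linarith [(cos_sq_mem p.2).2])))).continuousAt
      hc'.continuousAt
  exact h1.mul h2

lemma continuous_hF {X : Type*} [TopologicalSpace X] [FirstCountableTopology X]
    [LocallyCompactSpace X] {F : X → ℂ}
    (hF' : Continuous F) (hre : ∀ x, 0 < (F x).re) : Continuous fun x => hF (F x) := by
  have h : Continuous (Function.uncurry fun (x : X) (t : ℝ) => 2 * kk (F x) t) :=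
    continuous_const.mul (continuous_kk hF' hre)
  have h2 := intervalIntegral.continuous_parametric_intervalIntegral_of_continuous' (μ := volume)
    (f := fun (x : X) (t : ℝ) => 2 * kk (F x) t) h 0 (2 * Real.pi)
  exact h2

lemma continuous_kk' {F : ℂ} (hF : 0 < F.re) : Continuous (kk F) := by
  have h : Continuous fun p : ℝ × ℝ => kk ((fun _ : ℝ => F) p.1) p.2 :=
    continuous_kk (X := ℝ) (F := fun _ => F) continuous_const (fun _ => hF)
  have h2 : Continuous fun t : ℝ => ((0 : ℝ), t) := by fun_prop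
  have h3 := h.comp h2
  have h4 : ((fun p : ℝ × ℝ => kk ((fun _ : ℝ => F) p.1) p.2) ∘ fun t : ℝ => ((0 : ℝ), t)) =
      kk F := by
    funext t
    rfl
  rw [h4] at h3
  exact h3

lemma psi_real {r : ℝ} (hr : 0 ≤ r) : ∃ y : ℝ, 0 < y ∧ y ≤ 1 ∧ 1 / (1 + r) ≤ y ∧ psi (r : ℂ) = (y : ℂ) := by
  rcases eq_or_lt_of_le hr with h | h
  · refine ⟨1, one_pos, le_rfl, ?_, ?_⟩
    · rw [← h]; norm_num
    · rw [← h]
      simp [psi_zero]
  · have h1 := mul_psi (r : ℂ)
    have h2 : (1 : ℂ) - exp (-(r : ℂ)) = ((1 - Real.exp (-r) : ℝ) : ℂ) := by push_cast; rfl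
    rw [h2] at h1
    have hr0 : (r : ℂ) ≠ 0 := by exact_mod_cast h.ne'
    have hpos : Real.exp (-r) < 1 := by rw [Real.exp_lt_one_iff]; linarith
    have hle : 1 - r ≤ Real.exp (-r) := by
      have := Real.add_one_le_exp (-r)
      linarith
    have hge : Real.exp (-r) ≤ 1 / (1 + r) := by
      rw [Real.exp_neg, ← one_div]
      apply one_div_le_one_div_of_le (by linarith)
      have := Real.add_one_le_exp r
      linarith
    refine ⟨(1 - Real.exp (-r)) / r, div_pos (by linarith) h, ?_, ?_, ?_⟩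
    · rw [div_le_one h]
      linarith
    · rw [le_div_iff₀ h]
      have : 1 / (1 + r) * r = 1 - 1 / (1 + r) := by
        field_simp
        ring
      rw [this]
      linarith
    · push_cast at h1 ⊢
      field_simp
      linear_combination h1

/-- `kp` on the nonnegative reals -/
lemma kp_real {r : ℝ} (hr : 0 ≤ r) : ∃ y : ℝ, 0 < y ∧ kp (r : ℂ) = (y : ℂ) := by
  obtain ⟨y, hy0, _, _, hy⟩ := psi_real hr
  refine ⟨Real.exp (-r / 2) / Real.sqrt y, by positivity, ?_⟩
  unfold kp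
  rw [hy, rt_ofReal hy0.le]
  push_cast
  rfl

lemma kk_real {x : ℝ} (hx : 0 < x) (t : ℝ) : ∃ y : ℝ, 0 < y ∧ kk (x : ℂ) t = (y : ℂ) := by
  obtain ⟨h1, h2⟩ := cos_sq_mem t
  obtain ⟨y1, hy1, e1⟩ := kp_real (mul_nonneg h1 hx.le)
  obtain ⟨y2, hy2, e2⟩ := kp_real (mul_nonneg (by linarith : (0 : ℝ) ≤ 1 - Real.cos t ^ 2) hx.le)
  refine ⟨y1 * y2, mul_pos hy1 hy2, ?_⟩
  unfold kk
  rw [← Complex.ofReal_mul, ← Complex.ofReal_mul, e1, e2]
  push_cast
  rfl

lemma hF_real {x : ℝ} (hx : 0 < x) : (hF (x : ℂ)).im = 0 ∧ 0 < (hF (x : ℂ)).re := by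
  have hx' : 0 < ((x : ℂ)).re := by simpa using hx
  choose y hy0 hy using kk_real hx
  have h1 : hF (x : ℂ) = ((∫ t in (0 : ℝ)..(2 * Real.pi), 2 * y t : ℝ) : ℂ) := by
    unfold hF
    rw [← intervalIntegral.integral_ofReal]
    refine intervalIntegral.integral_congr fun t _ => ?_
    simp only [hy]
    push_cast
    rfl
  have hc : Continuous y := by
    have h2 : y = fun t => (kk (x : ℂ) t).re := by
      funext t
      rw [hy]
      simp
    rw [h2]
    exact Complex.continuous_re.comp (continuous_kk' hx')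
  rw [h1]
  refine ⟨Complex.ofReal_im _, ?_⟩
  rw [Complex.ofReal_re]
  refine intervalIntegral.intervalIntegral_pos_of_pos_on
    ((continuous_const.mul hc).intervalIntegrable _ _) (fun t _ => by have := hy0 t; positivity) ?_
  positivity

lemma hF_shift {x : ℝ} (hx : 0 < x) : (hF ((x : ℂ) - 2 * Real.pi * I)).re ≤ 0 := by
  have hx' : 0 < ((x : ℂ) - 2 * Real.pi * I).re := by simpa using hx
  have hi : IntervalIntegrable (fun t => 2 * kk ((x : ℂ) - 2 * Real.pi * I) t) volume 0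
      (2 * Real.pi) := (continuous_const.mul (continuous_kk' hx')).intervalIntegrable _ _
  have h1 : (hF ((x : ℂ) - 2 * Real.pi * I)).re =
      ∫ t in (0 : ℝ)..(2 * Real.pi), (2 * kk ((x : ℂ) - 2 * Real.pi * I) t).re := by
    unfold hF
    exact (Complex.reCLM.intervalIntegral_comp_comm hi).symm
  rw [h1]
  have h2 : ∀ t : ℝ, (2 * kk ((x : ℂ) - 2 * Real.pi * I) t).re ≤ 0 := by
    intro t
    have := re_kp_shift hx (cos_sq_mem t).1 (cos_sq_mem t).2
    have e : (2 * kk ((x : ℂ) - 2 * Real.pi * I) t).re =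
        2 * (kk ((x : ℂ) - 2 * Real.pi * I) t).re := by
      rw [show (2 : ℂ) = ((2 : ℝ) : ℂ) by norm_num, Complex.re_ofReal_mul]
    rw [e]
    unfold kk
    linarith
  have h3 : 0 ≤ ∫ t in (0 : ℝ)..(2 * Real.pi), -(2 * kk ((x : ℂ) - 2 * Real.pi * I) t).re :=
    intervalIntegral.integral_nonneg (by positivity) fun t _ => by linarith [h2 t]
  rw [intervalIntegral.integral_neg] at h3
  linarith

lemma norm_rt_sq (w : ℂ) : ‖rt w‖ ^ 2 = ‖w‖ := by
  rw [← norm_pow, rt_sq]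

lemma norm_psi_ge {F : ℂ} (hF : 0 < F.re) {c : ℝ} (hc0 : 0 ≤ c) (hc1 : c ≤ 1) :
    F.re / (‖F‖ * (1 + F.re)) ≤ ‖psi ((c : ℂ) * F)‖ := by
  have hn : 0 < ‖F‖ := lt_of_lt_of_le hF (Complex.re_le_norm F)
  rcases eq_or_lt_of_le hc0 with h | h
  · rw [← h]
    simp only [Complex.ofReal_zero, zero_mul, psi_zero, norm_one]
    rw [div_le_one (by positivity)]
    nlinarith [Complex.re_le_norm F]
  · have h1 := mul_psi ((c : ℂ) * F)
    have h2 : ‖(c : ℂ) * F‖ * ‖psi ((c : ℂ) * F)‖ = ‖1 - exp (-((c : ℂ) * F))‖ := by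
      rw [← norm_mul, h1]
    have h3 : 1 - Real.exp (-(c * F.re)) ≤ ‖1 - exp (-((c : ℂ) * F))‖ := by
      have := norm_sub_norm_le (1 : ℂ) (exp (-((c : ℂ) * F)))
      rw [norm_one, Complex.norm_exp] at this
      simpa using this
    have h4 : c * F.re / (1 + c * F.re) ≤ 1 - Real.exp (-(c * F.re)) := by
      have hcF : 0 < c * F.re := mul_pos h hF
      have h5 : Real.exp (-(c * F.re)) ≤ 1 / (1 + c * F.re) := by
        rw [Real.exp_neg, ← one_div]
        apply one_div_le_one_div_of_le (by linarith)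
        have := Real.add_one_le_exp (c * F.re)
        linarith
      have h6 : c * F.re / (1 + c * F.re) = 1 - 1 / (1 + c * F.re) := by
        field_simp
        ring
      rw [h6]
      linarith
    have hcn : ‖(c : ℂ) * F‖ = c * ‖F‖ := by
      rw [norm_mul, Complex.norm_real, Real.norm_of_nonneg hc0]
    rw [hcn] at h2
    have h7 : c * F.re / (1 + c * F.re) ≤ c * ‖F‖ * ‖psi ((c : ℂ) * F)‖ := by
      rw [h2]
      exact h4.trans h3
    have h8 : F.re / (1 + c * F.re) ≤ ‖F‖ * ‖psi ((c : ℂ) * F)‖ := by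
      have : c * F.re / (1 + c * F.re) = c * (F.re / (1 + c * F.re)) := by ring
      rw [this, mul_assoc] at h7
      exact le_of_mul_le_mul_left h7 h
    have h9 : F.re / (1 + F.re) ≤ F.re / (1 + c * F.re) := by
      apply div_le_div_of_nonneg_left hF.le (by positivity)
      nlinarith
    rw [div_le_iff₀ (by positivity)]
    have h10 := h9.trans h8
    rw [div_le_iff₀ (by positivity)] at h10
    linarith

/-- the decay of `h` -/
lemma norm_hF_le {F : ℂ} (hF' : 0 < F.re) :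
    ‖hF F‖ ≤ 4 * Real.pi * (Real.exp (-F.re / 2) * (‖F‖ * (1 + F.re) / F.re)) := by
  have hn : 0 < ‖F‖ := lt_of_lt_of_le hF' (Complex.re_le_norm F)
  have h1 : ∀ t : ℝ, ‖2 * kk F t‖ ≤ 2 * (Real.exp (-F.re / 2) * (‖F‖ * (1 + F.re) / F.re)) := by
    intro t
    obtain ⟨c0, c1⟩ := cos_sq_mem t
    have p1 := norm_psi_ge hF' c0 c1
    have p2 := norm_psi_ge hF' (by linarith : (0 : ℝ) ≤ 1 - Real.cos t ^ 2)
      (by linarith : 1 - Real.cos t ^ 2 ≤ 1)
    set z1 : ℂ := ((Real.cos t ^ 2 : ℝ) : ℂ) * F with hz1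
    set z2 : ℂ := ((1 - Real.cos t ^ 2 : ℝ) : ℂ) * F with hz2
    have hq : 0 < F.re / (‖F‖ * (1 + F.re)) := by positivity
    have hsum : z1 + z2 = F := by
      rw [hz1, hz2]
      push_cast
      ring
    have e1 : ‖exp (-z1 / 2)‖ * ‖exp (-z2 / 2)‖ = Real.exp (-F.re / 2) := by
      rw [← norm_mul, ← Complex.exp_add, Complex.norm_exp]
      congr 1
      rw [← add_div, ← neg_add, hsum]
      rw [show (-F / 2 : ℂ) = ((-(1 / 2) : ℝ) : ℂ) * F by push_cast; ring, Complex.re_ofReal_mul]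
      ring
    have r1 : Real.sqrt (F.re / (‖F‖ * (1 + F.re))) ≤ ‖rt (psi z1)‖ := by
      rw [Real.sqrt_le_left (norm_nonneg _), norm_rt_sq]
      exact p1
    have r2 : Real.sqrt (F.re / (‖F‖ * (1 + F.re))) ≤ ‖rt (psi z2)‖ := by
      rw [Real.sqrt_le_left (norm_nonneg _), norm_rt_sq]
      exact p2
    have r3 : F.re / (‖F‖ * (1 + F.re)) ≤ ‖rt (psi z1)‖ * ‖rt (psi z2)‖ := by
      have := mul_le_mul r1 r2 (Real.sqrt_nonneg _) (norm_nonneg _)
      rwa [Real.mul_self_sqrt hq.le] at this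
    have e2 : ‖kk F t‖ = Real.exp (-F.re / 2) / (‖rt (psi z1)‖ * ‖rt (psi z2)‖) := by
      unfold kk kp
      rw [norm_mul, norm_div, norm_div, div_mul_div_comm, e1]
    rw [norm_mul, e2]
    have e3 : Real.exp (-F.re / 2) / (‖rt (psi z1)‖ * ‖rt (psi z2)‖) ≤
        Real.exp (-F.re / 2) / (F.re / (‖F‖ * (1 + F.re))) :=
      div_le_div_of_nonneg_left (Real.exp_pos _).le hq r3
    have e4 : Real.exp (-F.re / 2) / (F.re / (‖F‖ * (1 + F.re))) =
        Real.exp (-F.re / 2) * (‖F‖ * (1 + F.re) / F.re) := by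
      rw [div_div_eq_mul_div, mul_div_assoc]
    rw [e4] at e3
    have : ‖(2 : ℂ)‖ = 2 := by norm_num
    rw [this]
    linarith
  unfold hF
  have h2 := intervalIntegral.norm_integral_le_of_norm_le_const (a := (0 : ℝ)) (b := 2 * Real.pi)
    (f := fun t => 2 * kk F t) (C := 2 * (Real.exp (-F.re / 2) * (‖F‖ * (1 + F.re) / F.re)))
    (fun t _ => h1 t)
  rw [sub_zero, abs_of_pos (by positivity : (0 : ℝ) < 2 * Real.pi)] at h2
  linarith

end Pool.Agent.Helper12.K3
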