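import Mathlib
import Pool.Agent.Helper12.K3.Hfun2

/-!
The path in the first coordinate.
-/

namespace Pool.Agent.Helper12.K3

open Complex Set Filter Topology

/-- the real parameter `μ` of the path -/
noncomputable def mu (r s : ℝ) : ℝ :=
  r * (Real.smoothTransition (2 * Real.sin s) - Real.smoothTransition (-(2 * Real.sin s)))

/-- the angle `α` of the path -/
noncomputable def al (s : ℝ) : ℝ :=
  2 * Real.pi * Real.smoothTransition (1 / 2 - 3 / 2 * Real.cos s)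

lemma mu_contDiff (r : ℝ) (n : ℕ) : ContDiff ℝ n (mu r) := by
  have h1 : ContDiff ℝ n fun s : ℝ => 2 * Real.sin s := contDiff_const.mul Real.contDiff_sin
  have h2 : ContDiff ℝ n Real.smoothTransition := Real.smoothTransition.contDiff
  exact contDiff_const.mul ((h2.comp h1).sub (h2.comp h1.neg))

lemma al_contDiff (n : ℕ) : ContDiff ℝ n al := by
  have h1 : ContDiff ℝ n fun s : ℝ => 1 / 2 - 3 / 2 * Real.cos s :=
    contDiff_const.sub (contDiff_const.mul Real.contDiff_cos)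
  have h2 : ContDiff ℝ n Real.smoothTransition := Real.smoothTransition.contDiff
  exact contDiff_const.mul (h2.comp h1)

lemma mu_per (r s : ℝ) : mu r (s + 2 * Real.pi) = mu r s := by
  unfold mu
  rw [Real.sin_add_two_pi]

lemma al_per (s : ℝ) : al (s + 2 * Real.pi) = al s := by
  unfold al
  rw [Real.cos_add_two_pi]

lemma mu_zero (r : ℝ) : mu r 0 = 0 := by
  unfold mu
  simp

lemma mu_two_pi (r : ℝ) : mu r (2 * Real.pi) = 0 := by
  have := mu_per r 0
  rw [zero_add, mu_zero] at this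
  exact this

lemma al_of_ge {s : ℝ} (h : 1 / 3 ≤ Real.cos s) : al s = 0 := by
  unfold al
  rw [Real.smoothTransition.zero_of_nonpos (by linarith), mul_zero]

lemma al_of_le {s : ℝ} (h : Real.cos s ≤ -(1 / 3)) : al s = 2 * Real.pi := by
  unfold al
  rw [Real.smoothTransition.one_of_one_le (by linarith), mul_one]

lemma mu_of_ge (r : ℝ) {s : ℝ} (h : 1 / 2 ≤ Real.sin s) : mu r s = r := by
  unfold mu
  rw [Real.smoothTransition.one_of_one_le (by linarith),
    Real.smoothTransition.zero_of_nonpos (by linarith)]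
  ring

lemma mu_of_le (r : ℝ) {s : ℝ} (h : Real.sin s ≤ -(1 / 2)) : mu r s = -r := by
  unfold mu
  rw [Real.smoothTransition.one_of_one_le (x := -(2 * Real.sin s)) (by linarith),
    Real.smoothTransition.zero_of_nonpos (by linarith)]
  ring

lemma al_nonneg (s : ℝ) : 0 ≤ al s := by
  have := Real.smoothTransition.nonneg (1 / 2 - 3 / 2 * Real.cos s)
  unfold al
  positivity

lemma al_le (s : ℝ) : al s ≤ 2 * Real.pi := by
  have := Real.smoothTransition.le_one (1 / 2 - 3 / 2 * Real.cos s)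
  unfold al
  nlinarith [Real.pi_pos]

lemma exp_al_eq_one {s : ℝ} (h : 1 / 3 ≤ |Real.cos s|) : exp (al s * I) = 1 := by
  rcases le_abs.1 h with h | h
  · rw [al_of_ge h]
    simp
  · rw [al_of_le (by linarith)]
    push_cast
    exact Complex.exp_two_pi_mul_I

lemma mu_sq_of_lt (r : ℝ) {s : ℝ} (h : |Real.cos s| ≤ 1 / 2) : mu r s ^ 2 = r ^ 2 := by
  have h1 : Real.cos s ^ 2 ≤ 1 / 4 := by
    rw [← sq_abs]
    nlinarith [abs_nonneg (Real.cos s)]
  have h2 : 1 / 4 ≤ Real.sin s ^ 2 := by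
    have := Real.sin_sq_add_cos_sq s
    linarith
  have h3 : 1 / 2 ≤ |Real.sin s| := by
    rw [← sq_abs] at h2
    nlinarith [abs_nonneg (Real.sin s)]
  rcases le_abs.1 h3 with h4 | h4
  · rw [mu_of_ge r h4]
  · rw [mu_of_le r (by linarith)]
    ring

/-- `X² / μ²` -/
noncomputable def Q (r s : ℝ) : ℂ :=
  psi ((mu r s : ℂ) ^ 2) + exp (-(mu r s : ℂ) ^ 2) * (1 - exp (al s * I)) / (r : ℂ) ^ 2

lemma Q_mem {r : ℝ} (s : ℝ) : Q r s ∈ slitPlane := by
  apply mem_slit_of_re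
  unfold Q
  obtain ⟨y, hy0, -, -, hy⟩ := psi_real (sq_nonneg (mu r s))
  have e1 : psi ((mu r s : ℂ) ^ 2) = (y : ℂ) := by
    rw [← hy]
    push_cast
    rfl
  have e2 : exp (-(mu r s : ℂ) ^ 2) * (1 - exp (al s * I)) / (r : ℂ) ^ 2 =
      ((Real.exp (-(mu r s) ^ 2) / r ^ 2 : ℝ) : ℂ) * (1 - exp (al s * I)) := by
    push_cast
    ring
  rw [e1, e2, Complex.add_re, Complex.ofReal_re, Complex.re_ofReal_mul, Complex.sub_re,
    Complex.one_re, Complex.exp_ofReal_mul_I_re]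
  have h1 := Real.cos_le_one (al s)
  have h2 : 0 ≤ Real.exp (-(mu r s) ^ 2) / r ^ 2 := by positivity
  nlinarith [mul_nonneg h2 (by linarith : 0 ≤ 1 - Real.cos (al s))]

/-- the first coordinate of the torus -/
noncomputable def X (r s : ℝ) : ℂ := (mu r s : ℂ) * rt (Q r s)

/-- the complement -/
noncomputable def FF (Λ r s : ℝ) : ℂ := (Λ : ℂ) + (mu r s : ℂ) ^ 2 - al s * I

lemma FF_re (Λ r s : ℝ) : (FF Λ r s).re = Λ + mu r s ^ 2 := by
  have : FF Λ r s = ((Λ + mu r s ^ 2 : ℝ) : ℂ) - (al s : ℝ) * I := by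
    unfold FF
    push_cast
    ring
  rw [this, Complex.sub_re, Complex.ofReal_re, Complex.re_ofReal_mul, Complex.I_re]
  ring

lemma X_sq {r : ℝ} (hr : r ≠ 0) (s : ℝ) :
    X r s ^ 2 = 1 - exp (-(mu r s : ℂ) ^ 2 + al s * I) := by
  unfold X
  rw [mul_pow, rt_sq]
  unfold Q
  rw [mul_add, mul_psi, Complex.exp_add]
  have hr' : (r : ℂ) ≠ 0 := by exact_mod_cast hr
  rcases le_total (1 / 3) |Real.cos s| with h | h
  · rw [exp_al_eq_one h]
    simp
  · have h2 := mu_sq_of_lt r (s := s) (by linarith)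
    have h3 : (mu r s : ℂ) ^ 2 = (r : ℂ) ^ 2 := by exact_mod_cast h2
    rw [h3]
    field_simp
    ring

lemma one_sub_X_sq {r : ℝ} (hr : r ≠ 0) (Λ s : ℝ) :
    1 - X r s ^ 2 = exp ((Λ : ℂ) - FF Λ r s) := by
  rw [X_sq hr]
  have : (Λ : ℂ) - FF Λ r s = -(mu r s : ℂ) ^ 2 + al s * I := by
    unfold FF
    ring
  rw [this]
  ring

lemma X_zero (r : ℝ) : X r 0 = 0 := by
  unfold X
  rw [mu_zero]
  simp

lemma X_two_pi (r : ℝ) : X r (2 * Real.pi) = 0 := by
  unfold X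
  rw [mu_two_pi]
  simp

lemma X_per (r s : ℝ) : X r (s + 2 * Real.pi) = X r s := by
  unfold X Q
  rw [mu_per, al_per]

lemma FF_per (Λ r s : ℝ) : FF Λ r (s + 2 * Real.pi) = FF Λ r s := by
  unfold FF
  rw [mu_per, al_per]

lemma cmu_contDiff (r : ℝ) (n : ℕ) : ContDiff ℝ n (fun s => (mu r s : ℂ)) :=
  (Complex.ofRealCLM.contDiff).comp (mu_contDiff r n)

lemma cal_contDiff (n : ℕ) : ContDiff ℝ n (fun s => (al s : ℂ)) :=
  (Complex.ofRealCLM.contDiff).comp (al_contDiff n)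

lemma cexp_contDiff (n : ℕ) : ContDiff ℝ n (Complex.exp) :=
  (Complex.contDiff_exp (𝕜 := ℝ))

lemma psi_contDiff (n : ℕ) : ContDiff ℝ n psi :=
  (psi_differentiable.contDiff (n := n)).restrict_scalars ℝ

lemma rt_contDiffAt {w : ℂ} (hw : w ∈ slitPlane) (n : ℕ) : ContDiffAt ℝ n rt w :=
  ((rt_analyticAt hw).contDiffAt (n := n)).restrict_scalars ℝ

lemma Q_contDiff (r : ℝ) (n : ℕ) : ContDiff ℝ n (Q r) := by
  have h1 : ContDiff ℝ n fun s => (mu r s : ℂ) ^ 2 := (cmu_contDiff r n).pow 2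
  have h2 : ContDiff ℝ n fun s => psi ((mu r s : ℂ) ^ 2) := (psi_contDiff n).comp h1
  have h3 : ContDiff ℝ n fun s => exp (-(mu r s : ℂ) ^ 2) := (cexp_contDiff n).comp h1.neg
  have h4 : ContDiff ℝ n fun s => exp ((al s : ℂ) * I) :=
    (cexp_contDiff n).comp ((cal_contDiff n).mul contDiff_const)
  exact h2.add ((h3.mul (contDiff_const.sub h4)).div_const _)

lemma X_contDiff (r : ℝ) (n : ℕ) : ContDiff ℝ n (X r) := by
  refine (cmu_contDiff r n).mul ?_
  rw [contDiff_iff_contDiffAt]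
  intro s
  exact ContDiffAt.comp (g := rt) s (rt_contDiffAt (Q_mem s) n) (Q_contDiff r n).contDiffAt

lemma FF_contDiff (Λ r : ℝ) (n : ℕ) : ContDiff ℝ n (FF Λ r) :=
  (contDiff_const.add ((cmu_contDiff r n).pow 2)).sub ((cal_contDiff n).mul contDiff_const)

lemma FF_mem {Λ : ℝ} (hΛ : 0 < Λ) (r s : ℝ) : FF Λ r s ∈ slitPlane := by
  apply mem_slit_of_re
  rw [FF_re]
  positivity

/-- the square root of the complement -/
noncomputable def pp (Λ r s : ℝ) : ℂ := rt (FF Λ r s)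

lemma pp_sq (Λ r s : ℝ) : pp Λ r s ^ 2 = FF Λ r s := rt_sq _

lemma pp_contDiff {Λ : ℝ} (hΛ : 0 < Λ) (r : ℝ) (n : ℕ) : ContDiff ℝ n (pp Λ r) := by
  rw [contDiff_iff_contDiffAt]
  intro s
  exact ContDiffAt.comp (g := rt) s (rt_contDiffAt (FF_mem hΛ r s) n) (FF_contDiff Λ r n).contDiffAt

lemma pp_per (Λ r s : ℝ) : pp Λ r (s + 2 * Real.pi) = pp Λ r s := by
  unfold pp
  rw [FF_per]

end Pool.Agent.Helper12.K3
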