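import Mathlib
import Pool.Agent.Helper11.TorusEval
import Pool.Agent.Helper11.TorusReg4

/-!
The regulator over a two-dimensional torus of a triple whose first entry depends on the first
coordinate only, as an iterated integral.
-/

namespace Pool.Agent.Helper12.K3

open Set MeasureTheory Pool.Agent.Helper11

/-- the triple -/
noncomputable def tri (u0 : ℝ → ℂ) (u1 u2 : ℝ → ℝ → ℂ) : Fin 3 → (Fin 2 → ℝ) → ℂ :=
  ![fun θ => u0 (θ 0), fun θ => u1 (θ 0) (θ 1), fun θ => u2 (θ 0) (θ 1)]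

lemma fderiv_eq_of_line {f : (Fin 2 → ℝ) → ℂ} {θ v : Fin 2 → ℝ} {d : ℂ}
    (hf : DifferentiableAt ℝ f θ) (h : HasDerivAt (fun s : ℝ => f (θ + s • v)) d 0) :
    fderiv ℝ f θ v = d :=
  (hasDerivAt_line hf v).unique h

lemma line0 (θ : Fin 2 → ℝ) (s : ℝ) :
    θ + s • (Pi.single 0 1 : Fin 2 → ℝ) = ![θ 0 + s, θ 1] := by
  funext i
  fin_cases i <;> simp

lemma line1 (θ : Fin 2 → ℝ) (s : ℝ) :
    θ + s • (Pi.single 1 1 : Fin 2 → ℝ) = ![θ 0, θ 1 + s] := by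
  funext i
  fin_cases i <;> simp

variable {u0 : ℝ → ℂ} {u1 u2 : ℝ → ℝ → ℂ} {a0 : ℝ → ℂ} {a1 a2 b1 b2 : ℝ → ℝ → ℂ}

lemma shift_deriv {g : ℝ → ℂ} {d : ℂ} {x : ℝ} (h : HasDerivAt g d x) :
    HasDerivAt (fun s : ℝ => g (x + s)) d 0 := by
  have h2 : HasDerivAt g d (x + 0) := by simpa using h
  exact h2.comp_const_add x 0

lemma regRow_two {u : ℝ → ℝ → ℂ} {a b : ℝ → ℝ → ℂ}
    (hd : Differentiable ℝ (fun θ : Fin 2 → ℝ => u (θ 0) (θ 1))) (hne : ∀ s t, u s t ≠ 0)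
    (hs : ∀ s t, HasDerivAt (fun s => u s t) (a s t * u s t) s)
    (ht : ∀ s t, HasDerivAt (fun t => u s t) (b s t * u s t) t) (x : Fin 3 → ℝ) :
    regRow (fun θ : Fin 2 → ℝ => u (θ 0) (θ 1)) x =
      ![(Real.log ‖u (x 1) (x 2)‖ : ℂ), ⟨x 0 * (a (x 1) (x 2)).re, (a (x 1) (x 2)).im⟩,
        ⟨x 0 * (b (x 1) (x 2)).re, (b (x 1) (x 2)).im⟩] := by
  have e0 : fderiv ℝ (fun θ : Fin 2 → ℝ => u (θ 0) (θ 1)) (Fin.tail x) (Pi.single 0 1) =
      a (x 1) (x 2) * u (x 1) (x 2) := by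
    refine fderiv_eq_of_line (hd _) ?_
    simp only [line0]
    have := shift_deriv (g := fun s => u s (x 2)) (hs (x 1) (x 2))
    simpa [Fin.tail] using this
  have e1 : fderiv ℝ (fun θ : Fin 2 → ℝ => u (θ 0) (θ 1)) (Fin.tail x) (Pi.single 1 1) =
      b (x 1) (x 2) * u (x 1) (x 2) := by
    refine fderiv_eq_of_line (hd _) ?_
    simp only [line1]
    have := shift_deriv (g := fun t => u (x 1) t) (ht (x 1) (x 2))
    simpa [Fin.tail] using this
  funext i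
  have t0 : (Fin.tail x : Fin 2 → ℝ) 0 = x 1 := rfl
  have t1 : (Fin.tail x : Fin 2 → ℝ) 1 = x 2 := rfl
  refine Fin.cases ?_ (fun m => ?_) i
  · simp [regRow, t0, t1]
  · refine Fin.cases ?_ (fun m => ?_) m
    · simp only [regRow, Fin.cons_succ, e0, t0, t1]
      rw [mul_div_cancel_right₀ _ (hne _ _)]
      rfl
    · have hm : m = 0 := Subsingleton.elim _ _
      subst hm
      have e1' : fderiv ℝ (fun θ : Fin 2 → ℝ => u (θ 0) (θ 1)) (Fin.tail x)
          (Pi.single (Fin.succ 0) 1) = b (x 1) (x 2) * u (x 1) (x 2) := e1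
      simp only [regRow, Fin.cons_succ, e1', t0, t1]
      rw [mul_div_cancel_right₀ _ (hne _ _)]
      rfl

lemma integral_box_one (b : ℝ) {g : ℝ → ℝ} (hg : Continuous g) :
    ∫ y in Icc (0 : Fin 1 → ℝ) (fun _ => b), g (y 0) = ∫ x in Icc 0 b, g x := by
  have hc : Continuous fun y : Fin 1 → ℝ => g (y 0) := hg.comp (continuous_apply 0)
  have h := box_split (n := 0) 0 (fun _ : Fin 1 => b) hc
  rw [h]
  refine integral_congr_ae (Filter.Eventually.of_forall fun s => ?_)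
  have h1 : (Icc (0 : Fin 0 → ℝ) (fun k => b)) = univ := by
    ext y
    simp only [mem_Icc, mem_univ, iff_true]
    exact ⟨fun i => i.elim0, fun i => i.elim0⟩
  simp only [h1, Measure.restrict_univ]
  have h2 : ∀ y : Fin 0 → ℝ, g (((0 : Fin 1).insertNth s y : Fin 1 → ℝ) 0) = g s := by
    intro y
    simp
  simp only [h2]
  rw [integral_const]
  simp [Measure.real, volume_pi]

end Pool.Agent.Helper12.K3
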