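import Mathlib
import Pool.Agent.Helper12.K3.Reg2a

/-!
The regulator of a triple as an iterated integral.
-/

namespace Pool.Agent.Helper12.K3

open Set MeasureTheory Pool.Agent.Helper11

variable {u0 : ℝ → ℂ} {u1 u2 : ℝ → ℝ → ℂ} {a0 : ℝ → ℂ} {a1 a2 b1 b2 : ℝ → ℝ → ℂ}

/-- the data of a triple -/
structure Data (u0 : ℝ → ℂ) (u1 u2 : ℝ → ℝ → ℂ) (a0 : ℝ → ℂ) (a1 a2 b1 b2 : ℝ → ℝ → ℂ) : Prop where
  tu : ∀ j, TU (tri u0 u1 u2 j)
  d0 : ∀ s, HasDerivAt u0 (a0 s * u0 s) s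
  d1s : ∀ s t, HasDerivAt (fun s => u1 s t) (a1 s t * u1 s t) s
  d1t : ∀ s t, HasDerivAt (fun t => u1 s t) (b1 s t * u1 s t) t
  d2s : ∀ s t, HasDerivAt (fun s => u2 s t) (a2 s t * u2 s t) s
  d2t : ∀ s t, HasDerivAt (fun t => u2 s t) (b2 s t * u2 s t) t
  ca0 : Continuous a0
  ca1 : Continuous (Function.uncurry a1)
  ca2 : Continuous (Function.uncurry a2)
  cb1 : Continuous (Function.uncurry b1)
  cb2 : Continuous (Function.uncurry b2)

namespace Data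

variable (D : Data u0 u1 u2 a0 a1 a2 b1 b2)

include D

lemma ne0 (s : ℝ) : u0 s ≠ 0 := (D.tu 0).ne ![s, 0]

lemma ne1 (s t : ℝ) : u1 s t ≠ 0 := (D.tu 1).ne ![s, t]

lemma ne2 (s t : ℝ) : u2 s t ≠ 0 := (D.tu 2).ne ![s, t]

lemma per1 (s t : ℝ) : u1 s (t + 2 * Real.pi) = u1 s t := by
  have h := (D.tu 1).per 1 ![s, t]
  have e : (![s, t] + Pi.single 1 (2 * Real.pi) : Fin 2 → ℝ) = ![s, t + 2 * Real.pi] := by
    funext i
    fin_cases i <;> simp
  rw [e] at h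
  exact h

lemma per2 (s t : ℝ) : u2 s (t + 2 * Real.pi) = u2 s t := by
  have h := (D.tu 2).per 1 ![s, t]
  have e : (![s, t] + Pi.single 1 (2 * Real.pi) : Fin 2 → ℝ) = ![s, t + 2 * Real.pi] := by
    funext i
    fin_cases i <;> simp
  rw [e] at h
  exact h

lemma cu0 : Continuous u0 := by
  have h : Continuous fun s : ℝ => (![s, 0] : Fin 2 → ℝ) := by
    refine continuous_pi fun i => ?_
    fin_cases i
    · exact continuous_id
    · exact continuous_const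
  exact (D.tu 0).smooth.continuous.comp h

lemma cu1 : Continuous (Function.uncurry u1) := by
  have h : Continuous fun p : ℝ × ℝ => (![p.1, p.2] : Fin 2 → ℝ) := by
    refine continuous_pi fun i => ?_
    fin_cases i
    · exact continuous_fst
    · exact continuous_snd
  exact (D.tu 1).smooth.continuous.comp h

lemma cu2 : Continuous (Function.uncurry u2) := by
  have h : Continuous fun p : ℝ × ℝ => (![p.1, p.2] : Fin 2 → ℝ) := by
    refine continuous_pi fun i => ?_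
    fin_cases i
    · exact continuous_fst
    · exact continuous_snd
  exact (D.tu 2).smooth.continuous.comp h

lemma cL0 : Continuous fun s => Real.log ‖u0 s‖ :=
  D.cu0.norm.log fun s => norm_ne_zero_iff.2 (D.ne0 s)

lemma cL1 : Continuous fun p : ℝ × ℝ => Real.log ‖u1 p.1 p.2‖ :=
  D.cu1.norm.log fun p => norm_ne_zero_iff.2 (D.ne1 p.1 p.2)

lemma cL2 : Continuous fun p : ℝ × ℝ => Real.log ‖u2 p.1 p.2‖ :=
  D.cu2.norm.log fun p => norm_ne_zero_iff.2 (D.ne2 p.1 p.2)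

end Data

/-- the part with the factor `t²` -/
noncomputable def Dfun (u0 : ℝ → ℂ) (u1 u2 : ℝ → ℝ → ℂ) (a0 : ℝ → ℂ) (a1 a2 b1 b2 : ℝ → ℝ → ℂ)
    (s t : ℝ) : ℝ :=
  Real.log ‖u0 s‖ * ((a1 s t).re * (b2 s t).re - (b1 s t).re * (a2 s t).re) -
    (a0 s).re * (Real.log ‖u1 s t‖ * (b2 s t).re - Real.log ‖u2 s t‖ * (b1 s t).re)

/-- the part without the factor `t²` -/
noncomputable def Efun (u0 : ℝ → ℂ) (u1 u2 : ℝ → ℝ → ℂ) (a0 : ℝ → ℂ) (a1 a2 b1 b2 : ℝ → ℝ → ℂ)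
    (s t : ℝ) : ℝ :=
  Real.log ‖u0 s‖ * ((a1 s t).im * (b2 s t).im - (b1 s t).im * (a2 s t).im) -
    (a0 s).im * (Real.log ‖u1 s t‖ * (b2 s t).im - Real.log ‖u2 s t‖ * (b1 s t).im)

namespace Data

variable (D : Data u0 u1 u2 a0 a1 a2 b1 b2)

include D

lemma cD : Continuous fun p : ℝ × ℝ => Dfun u0 u1 u2 a0 a1 a2 b1 b2 p.1 p.2 := by
  have h0 := D.cL0.comp continuous_fst (X := ℝ × ℝ)
  have h1 := D.cL1
  have h2 := D.cL2
  have ha0 : Continuous fun p : ℝ × ℝ => a0 p.1 := D.ca0.comp continuous_fst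
  have ha1 : Continuous fun p : ℝ × ℝ => a1 p.1 p.2 := D.ca1
  have ha2 : Continuous fun p : ℝ × ℝ => a2 p.1 p.2 := D.ca2
  have hb1 : Continuous fun p : ℝ × ℝ => b1 p.1 p.2 := D.cb1
  have hb2 : Continuous fun p : ℝ × ℝ => b2 p.1 p.2 := D.cb2
  unfold Dfun
  exact (h0.mul (((Complex.continuous_re.comp ha1).mul (Complex.continuous_re.comp hb2)).sub
    ((Complex.continuous_re.comp hb1).mul (Complex.continuous_re.comp ha2)))).sub
    ((Complex.continuous_re.comp ha0).mul ((h1.mul (Complex.continuous_re.comp hb2)).sub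
      (h2.mul (Complex.continuous_re.comp hb1))))

lemma cE : Continuous fun p : ℝ × ℝ => Efun u0 u1 u2 a0 a1 a2 b1 b2 p.1 p.2 := by
  have h0 := D.cL0.comp continuous_fst (X := ℝ × ℝ)
  have h1 := D.cL1
  have h2 := D.cL2
  have ha0 : Continuous fun p : ℝ × ℝ => a0 p.1 := D.ca0.comp continuous_fst
  have ha1 : Continuous fun p : ℝ × ℝ => a1 p.1 p.2 := D.ca1
  have ha2 : Continuous fun p : ℝ × ℝ => a2 p.1 p.2 := D.ca2
  have hb1 : Continuous fun p : ℝ × ℝ => b1 p.1 p.2 := D.cb1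
  have hb2 : Continuous fun p : ℝ × ℝ => b2 p.1 p.2 := D.cb2
  unfold Efun
  exact (h0.mul (((Complex.continuous_im.comp ha1).mul (Complex.continuous_im.comp hb2)).sub
    ((Complex.continuous_im.comp hb1).mul (Complex.continuous_im.comp ha2)))).sub
    ((Complex.continuous_im.comp ha0).mul ((h1.mul (Complex.continuous_im.comp hb2)).sub
      (h2.mul (Complex.continuous_im.comp hb1))))

lemma integrand (x : Fin 3 → ℝ) :
    ((-Complex.I) ^ 2 * Matrix.det (Matrix.of fun j => regRow (tri u0 u1 u2 j) x)).re =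
      Efun u0 u1 u2 a0 a1 a2 b1 b2 (x 1) (x 2) -
        x 0 ^ 2 * Dfun u0 u1 u2 a0 a1 a2 b1 b2 (x 1) (x 2) := by
  have hd : ∀ j, Differentiable ℝ (tri u0 u1 u2 j) := fun j =>
    (D.tu j).smooth.differentiable (by norm_num)
  have r0 : regRow (tri u0 u1 u2 0) x = ![(Real.log ‖u0 (x 1)‖ : ℂ),
      ⟨x 0 * (a0 (x 1)).re, (a0 (x 1)).im⟩, 0] := by
    have h := regRow_two (u := fun s _ => u0 s) (a := fun s _ => a0 s) (b := fun _ _ => 0)
      (hd 0) (fun s _ => D.ne0 s) (fun s _ => D.d0 s)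
      (fun s t => by simpa using hasDerivAt_const t (u0 s)) x
    change regRow (fun θ : Fin 2 → ℝ => u0 (θ 0)) x = _
    rw [h]
    funext i
    fin_cases i
    · rfl
    · rfl
    · simp
      rfl
  have r1 : regRow (tri u0 u1 u2 1) x = ![(Real.log ‖u1 (x 1) (x 2)‖ : ℂ),
      ⟨x 0 * (a1 (x 1) (x 2)).re, (a1 (x 1) (x 2)).im⟩,
      ⟨x 0 * (b1 (x 1) (x 2)).re, (b1 (x 1) (x 2)).im⟩] :=
    regRow_two (hd 1) D.ne1 D.d1s D.d1t x
  have r2 : regRow (tri u0 u1 u2 2) x = ![(Real.log ‖u2 (x 1) (x 2)‖ : ℂ),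
      ⟨x 0 * (a2 (x 1) (x 2)).re, (a2 (x 1) (x 2)).im⟩,
      ⟨x 0 * (b2 (x 1) (x 2)).re, (b2 (x 1) (x 2)).im⟩] :=
    regRow_two (hd 2) D.ne2 D.d2s D.d2t x
  rw [Matrix.det_fin_three]
  simp only [Matrix.of_apply, r0, r1, r2]
  simp only [Matrix.cons_val_zero, Matrix.cons_val_one, Matrix.cons_val]
  have hI : (-Complex.I) ^ 2 = -1 := by
    rw [neg_sq, Complex.I_sq]
  rw [hI]
  simp only [Complex.mul_re, Complex.sub_re, Complex.add_re, Complex.mul_im, Complex.sub_im,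
    Complex.add_im, Complex.neg_re, Complex.neg_im, Complex.one_re, Complex.one_im,
    Complex.ofReal_re, Complex.ofReal_im, Complex.zero_re, Complex.zero_im]
  unfold Efun Dfun
  ring

theorem regTorus_eq : regTorus (tri u0 u1 u2) =
    ∫ s in (0 : ℝ)..(2 * Real.pi), ∫ t in (0 : ℝ)..(2 * Real.pi),
      (Efun u0 u1 u2 a0 a1 a2 b1 b2 s t - (1 / 3) * Dfun u0 u1 u2 a0 a1 a2 b1 b2 s t) := by
  have hpi : (0 : ℝ) ≤ 2 * Real.pi := by positivity
  unfold regTorus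
  have h1 : ∀ x : Fin 3 → ℝ,
      ((-Complex.I) ^ 2 * Matrix.det (Matrix.of fun j => regRow (tri u0 u1 u2 j) x)).re =
      Efun u0 u1 u2 a0 a1 a2 b1 b2 (x 1) (x 2) -
        x 0 ^ 2 * Dfun u0 u1 u2 a0 a1 a2 b1 b2 (x 1) (x 2) := D.integrand
  simp only [h1]
  have hp : Continuous fun x : Fin 3 → ℝ => (x 1, x 2) := by fun_prop
  have hcE : Continuous fun x : Fin 3 → ℝ => Efun u0 u1 u2 a0 a1 a2 b1 b2 (x 1) (x 2) :=
    D.cE.comp hp
  have hcD : Continuous fun x : Fin 3 → ℝ => Dfun u0 u1 u2 a0 a1 a2 b1 b2 (x 1) (x 2) :=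
    D.cD.comp hp
  have hc : Continuous fun x : Fin 3 → ℝ => Efun u0 u1 u2 a0 a1 a2 b1 b2 (x 1) (x 2) -
      x 0 ^ 2 * Dfun u0 u1 u2 a0 a1 a2 b1 b2 (x 1) (x 2) :=
    hcE.sub (((continuous_apply 0).pow 2).mul hcD)
  rw [box_split' 0 (topB 2) hc]
  have hin : ∀ y : Fin 2 → ℝ, (∫ r in Icc 0 (topB 2 0),
      (Efun u0 u1 u2 a0 a1 a2 b1 b2 (((0 : Fin 3).insertNth r y : Fin 3 → ℝ) 1)
          (((0 : Fin 3).insertNth r y : Fin 3 → ℝ) 2) -
        (((0 : Fin 3).insertNth r y : Fin 3 → ℝ) 0) ^ 2 *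
          Dfun u0 u1 u2 a0 a1 a2 b1 b2 (((0 : Fin 3).insertNth r y : Fin 3 → ℝ) 1)
          (((0 : Fin 3).insertNth r y : Fin 3 → ℝ) 2))) =
      Efun u0 u1 u2 a0 a1 a2 b1 b2 (y 0) (y 1) -
        (1 / 3) * Dfun u0 u1 u2 a0 a1 a2 b1 b2 (y 0) (y 1) := by
    intro y
    have e0 : ∀ r : ℝ, ((0 : Fin 3).insertNth r y : Fin 3 → ℝ) 0 = r := fun r => by simp
    have e1 : ∀ r : ℝ, ((0 : Fin 3).insertNth r y : Fin 3 → ℝ) 1 = y 0 := fun r => rfl
    have e2 : ∀ r : ℝ, ((0 : Fin 3).insertNth r y : Fin 3 → ℝ) 2 = y 1 := fun r => rfl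
    simp only [e0, e1, e2]
    have ht : topB 2 0 = 1 := rfl
    rw [ht, integral_Icc_eq_integral_Ioc, ← intervalIntegral.integral_of_le zero_le_one,
      intervalIntegral.integral_sub (by simp) (by
        apply Continuous.intervalIntegrable
        fun_prop), intervalIntegral.integral_mul_const, integral_pow,
      intervalIntegral.integral_const, smul_eq_mul]
    norm_num
  have hb : (fun k : Fin 2 => topB 2 ((0 : Fin 3).succAbove k)) = fun _ => 2 * Real.pi := by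
    funext k
    fin_cases k <;> rfl
  simp only [hin, hb]
  set G : ℝ → ℝ → ℝ := fun s t => Efun u0 u1 u2 a0 a1 a2 b1 b2 s t -
        (1 / 3) * Dfun u0 u1 u2 a0 a1 a2 b1 b2 s t with hG
  have hcG : Continuous fun p : ℝ × ℝ => G p.1 p.2 := D.cE.sub (continuous_const.mul D.cD)
  have hp2 : Continuous fun y : Fin 2 → ℝ => (y 0, y 1) := by fun_prop
  have hcG2 : Continuous fun y : Fin 2 → ℝ => G (y 0) (y 1) := hcG.comp hp2
  change ∫ y in Icc (0 : Fin 2 → ℝ) (fun _ => 2 * Real.pi), G (y 0) (y 1) = _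
  rw [box_split (n := 1) 0 (fun _ => 2 * Real.pi) hcG2,
    integral_Icc_eq_integral_Ioc, ← intervalIntegral.integral_of_le hpi]
  refine intervalIntegral.integral_congr fun s _ => ?_
  have e0 : ∀ y : Fin 1 → ℝ, ((0 : Fin 2).insertNth s y : Fin 2 → ℝ) 0 = s := fun r => by simp
  have e1 : ∀ y : Fin 1 → ℝ, ((0 : Fin 2).insertNth s y : Fin 2 → ℝ) 1 = y 0 := fun r => rfl
  simp only [e0, e1]
  have hcs : Continuous (G s) := hcG.comp (Continuous.prodMk continuous_const continuous_id)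
  rw [integral_box_one (2 * Real.pi) hcs, integral_Icc_eq_integral_Ioc,
    ← intervalIntegral.integral_of_le hpi]

end Data

end Pool.Agent.Helper12.K3
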