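import Mathlib
import Pool.Agent.Helper12.K3.Reg2b

/-!
The regulator of a triple over a torus: integration by parts.
-/

namespace Pool.Agent.Helper12.K3

open Set MeasureTheory Pool.Agent.Helper11

variable {u0 : ℝ → ℂ} {u1 u2 : ℝ → ℝ → ℂ} {a0 : ℝ → ℂ} {a1 a2 b1 b2 m1 m2 : ℝ → ℝ → ℂ}

/-- the data of a triple, with the mixed derivatives -/
structure Data2 (u0 : ℝ → ℂ) (u1 u2 : ℝ → ℝ → ℂ) (a0 : ℝ → ℂ) (a1 a2 b1 b2 m1 m2 : ℝ → ℝ → ℂ) :
    Prop extends Data u0 u1 u2 a0 a1 a2 b1 b2 where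
  b1s : ∀ s t, HasDerivAt (fun s => b1 s t) (m1 s t) s
  b2s : ∀ s t, HasDerivAt (fun s => b2 s t) (m2 s t) s
  a1t : ∀ s t, HasDerivAt (fun t => a1 s t) (m1 s t) t
  a2t : ∀ s t, HasDerivAt (fun t => a2 s t) (m2 s t) t
  a1p : ∀ s t, a1 s (t + 2 * Real.pi) = a1 s t
  a2p : ∀ s t, a2 s (t + 2 * Real.pi) = a2 s t
  cm1 : Continuous (Function.uncurry m1)
  cm2 : Continuous (Function.uncurry m2)

/-- the integrand of the one-dimensional integral -/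
noncomputable def Kf (u1 u2 b1 b2 : ℝ → ℝ → ℂ) (s t : ℝ) : ℂ :=
  (Real.log ‖u1 s t‖ : ℂ) * b2 s t - (Real.log ‖u2 s t‖ : ℂ) * b1 s t

/-- its derivative up to exact terms -/
noncomputable def Nf (a1 a2 b1 b2 : ℝ → ℝ → ℂ) (s t : ℝ) : ℂ :=
  ((a1 s t).re : ℂ) * b2 s t - ((b1 s t).re : ℂ) * a2 s t - ((a2 s t).re : ℂ) * b1 s t +
    ((b2 s t).re : ℂ) * a1 s t

/-- its derivative -/
noncomputable def Kd (u1 u2 a1 a2 b1 b2 m1 m2 : ℝ → ℝ → ℂ) (s t : ℝ) : ℂ :=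
  ((a1 s t).re : ℂ) * b2 s t + (Real.log ‖u1 s t‖ : ℂ) * m2 s t -
    (((a2 s t).re : ℂ) * b1 s t + (Real.log ‖u2 s t‖ : ℂ) * m1 s t)

namespace Data2

variable (D : Data2 u0 u1 u2 a0 a1 a2 b1 b2 m1 m2)

include D

lemma L1s (s t : ℝ) : HasDerivAt (fun s => (Real.log ‖u1 s t‖ : ℂ)) ((a1 s t).re : ℂ) s := by
  have h := hasDerivAt_log_norm (D.d1s s t) (D.ne1 s t)
  rw [mul_div_cancel_right₀ _ (D.ne1 s t)] at h
  exact h.ofReal_comp

lemma L1t (s t : ℝ) : HasDerivAt (fun t => (Real.log ‖u1 s t‖ : ℂ)) ((b1 s t).re : ℂ) t := by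
  have h := hasDerivAt_log_norm (D.d1t s t) (D.ne1 s t)
  rw [mul_div_cancel_right₀ _ (D.ne1 s t)] at h
  exact h.ofReal_comp

lemma L2s (s t : ℝ) : HasDerivAt (fun s => (Real.log ‖u2 s t‖ : ℂ)) ((a2 s t).re : ℂ) s := by
  have h := hasDerivAt_log_norm (D.d2s s t) (D.ne2 s t)
  rw [mul_div_cancel_right₀ _ (D.ne2 s t)] at h
  exact h.ofReal_comp

lemma L2t (s t : ℝ) : HasDerivAt (fun t => (Real.log ‖u2 s t‖ : ℂ)) ((b2 s t).re : ℂ) t := by
  have h := hasDerivAt_log_norm (D.d2t s t) (D.ne2 s t)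
  rw [mul_div_cancel_right₀ _ (D.ne2 s t)] at h
  exact h.ofReal_comp

lemma cc1 : Continuous fun p : ℝ × ℝ => (Real.log ‖u1 p.1 p.2‖ : ℂ) :=
  Complex.continuous_ofReal.comp D.cL1

lemma cc2 : Continuous fun p : ℝ × ℝ => (Real.log ‖u2 p.1 p.2‖ : ℂ) :=
  Complex.continuous_ofReal.comp D.cL2

lemma cra1 : Continuous fun p : ℝ × ℝ => ((a1 p.1 p.2).re : ℂ) :=
  Complex.continuous_ofReal.comp (Complex.continuous_re.comp D.ca1)

lemma cra2 : Continuous fun p : ℝ × ℝ => ((a2 p.1 p.2).re : ℂ) :=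
  Complex.continuous_ofReal.comp (Complex.continuous_re.comp D.ca2)

lemma crb1 : Continuous fun p : ℝ × ℝ => ((b1 p.1 p.2).re : ℂ) :=
  Complex.continuous_ofReal.comp (Complex.continuous_re.comp D.cb1)

lemma crb2 : Continuous fun p : ℝ × ℝ => ((b2 p.1 p.2).re : ℂ) :=
  Complex.continuous_ofReal.comp (Complex.continuous_re.comp D.cb2)

lemma cK : Continuous (Function.uncurry (Kf u1 u2 b1 b2)) :=
  (D.cc1.mul D.cb2).sub (D.cc2.mul D.cb1)

lemma cN : Continuous (Function.uncurry (Nf a1 a2 b1 b2)) :=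
  (((D.cra1.mul D.cb2).sub (D.crb1.mul D.ca2)).sub (D.cra2.mul D.cb1)).add (D.crb2.mul D.ca1)

lemma cKd : Continuous (Function.uncurry (Kd u1 u2 a1 a2 b1 b2 m1 m2)) :=
  ((D.cra1.mul D.cb2).add (D.cc1.mul D.cm2)).sub ((D.cra2.mul D.cb1).add (D.cc2.mul D.cm1))

omit D in
lemma cfix {f : ℝ → ℝ → ℂ} (h : Continuous (Function.uncurry f)) (s : ℝ) : Continuous (f s) :=
  h.comp (Continuous.prodMk continuous_const continuous_id)

omit D in
lemma cfix' {f : ℝ → ℝ → ℂ} (h : Continuous (Function.uncurry f)) (t : ℝ) :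
    Continuous fun s => f s t :=
  h.comp (Continuous.prodMk continuous_id continuous_const)

lemma int_Kd (s : ℝ) : ∫ t in (0 : ℝ)..(2 * Real.pi), Kd u1 u2 a1 a2 b1 b2 m1 m2 s t =
    ∫ t in (0 : ℝ)..(2 * Real.pi), Nf a1 a2 b1 b2 s t := by
  have c1 := cfix (f := fun s t => (Real.log ‖u1 s t‖ : ℂ)) D.cc1 s
  have c2 := cfix (f := fun s t => (Real.log ‖u2 s t‖ : ℂ)) D.cc2 s
  have r1 := cfix (f := fun s t => ((a1 s t).re : ℂ)) D.cra1 s
  have r2 := cfix (f := fun s t => ((a2 s t).re : ℂ)) D.cra2 s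
  have r3 := cfix (f := fun s t => ((b1 s t).re : ℂ)) D.crb1 s
  have r4 := cfix (f := fun s t => ((b2 s t).re : ℂ)) D.crb2 s
  have ca1 := cfix D.ca1 s
  have ca2 := cfix D.ca2 s
  have cb1 := cfix D.cb1 s
  have cb2 := cfix D.cb2 s
  have cm1 := cfix D.cm1 s
  have cm2 := cfix D.cm2 s
  have p1 : ∫ t in (0 : ℝ)..(2 * Real.pi), (Real.log ‖u1 s t‖ : ℂ) * m2 s t =
      -∫ t in (0 : ℝ)..(2 * Real.pi), ((b1 s t).re : ℂ) * a2 s t := by
    rw [intervalIntegral.integral_mul_deriv_eq_deriv_mul (fun t _ => D.L1t s t)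
      (fun t _ => D.a2t s t) (r3.intervalIntegrable _ _) (cm2.intervalIntegrable _ _)]
    have e1 := D.a2p s 0
    have e2 := D.per1 s 0
    rw [zero_add] at e1 e2
    rw [e1, e2]
    ring
  have p2 : ∫ t in (0 : ℝ)..(2 * Real.pi), (Real.log ‖u2 s t‖ : ℂ) * m1 s t =
      -∫ t in (0 : ℝ)..(2 * Real.pi), ((b2 s t).re : ℂ) * a1 s t := by
    rw [intervalIntegral.integral_mul_deriv_eq_deriv_mul (fun t _ => D.L2t s t)
      (fun t _ => D.a1t s t) (r4.intervalIntegrable _ _) (cm1.intervalIntegrable _ _)]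
    have e1 := D.a1p s 0
    have e2 := D.per2 s 0
    rw [zero_add] at e1 e2
    rw [e1, e2]
    ring
  have i1 : IntervalIntegrable (fun t => ((a1 s t).re : ℂ) * b2 s t) volume 0 (2 * Real.pi) :=
    (r1.mul cb2).intervalIntegrable _ _
  have i2 : IntervalIntegrable (fun t => (Real.log ‖u1 s t‖ : ℂ) * m2 s t) volume 0
      (2 * Real.pi) := (c1.mul cm2).intervalIntegrable _ _
  have i3 : IntervalIntegrable (fun t => ((a2 s t).re : ℂ) * b1 s t) volume 0 (2 * Real.pi) :=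
    (r2.mul cb1).intervalIntegrable _ _
  have i4 : IntervalIntegrable (fun t => (Real.log ‖u2 s t‖ : ℂ) * m1 s t) volume 0
      (2 * Real.pi) := (c2.mul cm1).intervalIntegrable _ _
  have i5 : IntervalIntegrable (fun t => ((b1 s t).re : ℂ) * a2 s t) volume 0 (2 * Real.pi) :=
    (r3.mul ca2).intervalIntegrable _ _
  have i6 : IntervalIntegrable (fun t => ((b2 s t).re : ℂ) * a1 s t) volume 0 (2 * Real.pi) :=
    (r4.mul ca1).intervalIntegrable _ _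
  unfold Kd Nf
  rw [intervalIntegral.integral_sub (i1.add i2) (i3.add i4), intervalIntegral.integral_add i1 i2,
    intervalIntegral.integral_add i3 i4, intervalIntegral.integral_add ((i1.sub i5).sub i3) i6,
    intervalIntegral.integral_sub (i1.sub i5) i3, intervalIntegral.integral_sub i1 i5, p1, p2]
  ring

lemma Ks (s t : ℝ) : HasDerivAt (fun s => Kf u1 u2 b1 b2 s t)
    (Kd u1 u2 a1 a2 b1 b2 m1 m2 s t) s := by
  exact ((D.L1s s t).mul (D.b2s s t)).sub ((D.L2s s t).mul (D.b1s s t))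

omit D in
lemma cont_int {f : ℝ → ℝ → ℂ} (h : Continuous (Function.uncurry f)) (a b : ℝ) :
    Continuous fun s => ∫ t in a..b, f s t :=
  intervalIntegral.continuous_parametric_intervalIntegral_of_continuous' (μ := volume) h a b

/-- the derivative of the one-dimensional integral -/
lemma hasDerivAt_c (s : ℝ) : HasDerivAt
    (fun s => ∫ t in (0 : ℝ)..(2 * Real.pi), Kf u1 u2 b1 b2 s t)
    (∫ t in (0 : ℝ)..(2 * Real.pi), Nf a1 a2 b1 b2 s t) s := by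
  have hcN := cont_int D.cN 0 (2 * Real.pi)
  have h1 : ∀ s : ℝ, ∫ t in (0 : ℝ)..(2 * Real.pi), Kf u1 u2 b1 b2 s t =
      (∫ t in (0 : ℝ)..(2 * Real.pi), Kf u1 u2 b1 b2 0 t) +
        ∫ σ in (0 : ℝ)..s, ∫ t in (0 : ℝ)..(2 * Real.pi), Nf a1 a2 b1 b2 σ t := by
    intro s
    have e1 : ∫ σ in (0 : ℝ)..s, ∫ t in (0 : ℝ)..(2 * Real.pi), Nf a1 a2 b1 b2 σ t =
        ∫ σ in (0 : ℝ)..s, ∫ t in (0 : ℝ)..(2 * Real.pi), Kd u1 u2 a1 a2 b1 b2 m1 m2 σ t := by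
      refine intervalIntegral.integral_congr fun σ _ => ?_
      exact (D.int_Kd σ).symm
    have hint : IntegrableOn (Function.uncurry (Kd u1 u2 a1 a2 b1 b2 m1 m2))
        (uIoc 0 s ×ˢ uIoc 0 (2 * Real.pi)) := by
      have hc := D.cKd.continuousOn (s := uIcc 0 s ×ˢ uIcc 0 (2 * Real.pi))
      exact (hc.integrableOn_compact (isCompact_uIcc.prod isCompact_uIcc)).mono_set
        (prod_mono uIoc_subset_uIcc uIoc_subset_uIcc)
    rw [e1, intervalIntegral_intervalIntegral_swap hint]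
    have e2 : ∀ t : ℝ, ∫ σ in (0 : ℝ)..s, Kd u1 u2 a1 a2 b1 b2 m1 m2 σ t =
        Kf u1 u2 b1 b2 s t - Kf u1 u2 b1 b2 0 t := fun t =>
      intervalIntegral.integral_eq_sub_of_hasDerivAt (fun σ _ => D.Ks σ t)
        ((cfix' D.cKd t).intervalIntegrable _ _)
    simp only [e2]
    rw [intervalIntegral.integral_sub ((cfix D.cK s).intervalIntegrable _ _)
      ((cfix D.cK 0).intervalIntegrable _ _)]
    ring
  have h2 : HasDerivAt (fun s => (∫ t in (0 : ℝ)..(2 * Real.pi), Kf u1 u2 b1 b2 0 t) +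
      ∫ σ in (0 : ℝ)..s, ∫ t in (0 : ℝ)..(2 * Real.pi), Nf a1 a2 b1 b2 σ t)
      (∫ t in (0 : ℝ)..(2 * Real.pi), Nf a1 a2 b1 b2 s t) s :=
    (intervalIntegral.integral_hasDerivAt_right (hcN.intervalIntegrable _ _)
      (hcN.stronglyMeasurableAtFilter _ _) hcN.continuousAt).const_add _
  have h3 : (fun s => ∫ t in (0 : ℝ)..(2 * Real.pi), Kf u1 u2 b1 b2 s t) =
      fun s => (∫ t in (0 : ℝ)..(2 * Real.pi), Kf u1 u2 b1 b2 0 t) +
        ∫ σ in (0 : ℝ)..s, ∫ t in (0 : ℝ)..(2 * Real.pi), Nf a1 a2 b1 b2 σ t := funext h1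
  rw [h3]
  exact h2

end Data2

end Pool.Agent.Helper12.K3
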