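import Mathlib
import Pool.Agent.Helper12.K3.Reg2c

/-!
The regulator of a triple over a torus as a one-dimensional integral.
-/

namespace Pool.Agent.Helper12.K3

open Set MeasureTheory Pool.Agent.Helper11

variable {u0 : ℝ → ℂ} {u1 u2 : ℝ → ℝ → ℂ} {a0 : ℝ → ℂ} {a1 a2 b1 b2 m1 m2 : ℝ → ℝ → ℂ}

/-- the Jacobian -/
noncomputable def Jf (a1 a2 b1 b2 : ℝ → ℝ → ℂ) (s t : ℝ) : ℂ :=
  a1 s t * b2 s t - b1 s t * a2 s t

namespace Data2

variable (D : Data2 u0 u1 u2 a0 a1 a2 b1 b2 m1 m2)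

include D

lemma cJ : Continuous (Function.uncurry (Jf a1 a2 b1 b2)) :=
  (D.ca1.mul D.cb2).sub (D.cb1.mul D.ca2)

omit D in
lemma integrand_eq (s t : ℝ) :
    Efun u0 u1 u2 a0 a1 a2 b1 b2 s t - (1 / 3) * Dfun u0 u1 u2 a0 a1 a2 b1 b2 s t =
      (1 / 3) * Real.log ‖u0 s‖ * (Nf a1 a2 b1 b2 s t).re -
        Real.log ‖u0 s‖ * (Jf a1 a2 b1 b2 s t).re +
        (1 / 3) * (a0 s).re * (Kf u1 u2 b1 b2 s t).re - (a0 s).im * (Kf u1 u2 b1 b2 s t).im := by
  unfold Efun Dfun Nf Jf Kf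
  simp only [Complex.mul_re, Complex.sub_re, Complex.add_re, Complex.mul_im, Complex.sub_im,
    Complex.ofReal_re, Complex.ofReal_im]
  ring

omit D in
lemma im_Nf (s t : ℝ) : (Nf a1 a2 b1 b2 s t).im = (Jf a1 a2 b1 b2 s t).im := by
  unfold Nf Jf
  simp only [Complex.mul_im, Complex.sub_im, Complex.add_im, Complex.ofReal_re, Complex.ofReal_im]
  ring

omit D in
lemma re_int {f : ℝ → ℝ → ℂ} (h : Continuous (Function.uncurry f)) (s : ℝ) :
    ∫ t in (0 : ℝ)..(2 * Real.pi), (f s t).re = (∫ t in (0 : ℝ)..(2 * Real.pi), f s t).re :=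
  Complex.reCLM.intervalIntegral_comp_comm ((cfix h s).intervalIntegrable _ _)

omit D in
lemma im_int {f : ℝ → ℝ → ℂ} (h : Continuous (Function.uncurry f)) (s : ℝ) :
    ∫ t in (0 : ℝ)..(2 * Real.pi), (f s t).im = (∫ t in (0 : ℝ)..(2 * Real.pi), f s t).im :=
  Complex.imCLM.intervalIntegral_comp_comm ((cfix h s).intervalIntegrable _ _)

lemma inner_eq (s : ℝ) :
    ∫ t in (0 : ℝ)..(2 * Real.pi),
      (Efun u0 u1 u2 a0 a1 a2 b1 b2 s t - (1 / 3) * Dfun u0 u1 u2 a0 a1 a2 b1 b2 s t) =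
      (1 / 3) * Real.log ‖u0 s‖ * (∫ t in (0 : ℝ)..(2 * Real.pi), Nf a1 a2 b1 b2 s t).re -
        Real.log ‖u0 s‖ * (∫ t in (0 : ℝ)..(2 * Real.pi), Jf a1 a2 b1 b2 s t).re +
        (1 / 3) * (a0 s).re * (∫ t in (0 : ℝ)..(2 * Real.pi), Kf u1 u2 b1 b2 s t).re -
        (a0 s).im * (∫ t in (0 : ℝ)..(2 * Real.pi), Kf u1 u2 b1 b2 s t).im := by
  have cN := Complex.continuous_re.comp (cfix D.cN s)
  have cJ := Complex.continuous_re.comp (cfix D.cJ s)
  have cK := Complex.continuous_re.comp (cfix D.cK s)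
  have cK' := Complex.continuous_im.comp (cfix D.cK s)
  simp only [integrand_eq]
  have i1 : IntervalIntegrable (fun t => (1 / 3) * Real.log ‖u0 s‖ * (Nf a1 a2 b1 b2 s t).re)
      volume 0 (2 * Real.pi) := (continuous_const.mul cN).intervalIntegrable _ _
  have i2 : IntervalIntegrable (fun t => Real.log ‖u0 s‖ * (Jf a1 a2 b1 b2 s t).re)
      volume 0 (2 * Real.pi) := (continuous_const.mul cJ).intervalIntegrable _ _
  have i3 : IntervalIntegrable (fun t => (1 / 3) * (a0 s).re * (Kf u1 u2 b1 b2 s t).re)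
      volume 0 (2 * Real.pi) := (continuous_const.mul cK).intervalIntegrable _ _
  have i4 : IntervalIntegrable (fun t => (a0 s).im * (Kf u1 u2 b1 b2 s t).im)
      volume 0 (2 * Real.pi) := (continuous_const.mul cK').intervalIntegrable _ _
  rw [intervalIntegral.integral_sub ((i1.sub i2).add i3) i4,
    intervalIntegral.integral_add (i1.sub i2) i3, intervalIntegral.integral_sub i1 i2,
    intervalIntegral.integral_const_mul, intervalIntegral.integral_const_mul,
    intervalIntegral.integral_const_mul, intervalIntegral.integral_const_mul,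
    re_int D.cN, re_int D.cJ, re_int D.cK, im_int D.cK]

/-- the regulator as a one-dimensional integral -/
theorem reg_eq (G : ℝ → ℂ)
    (hG : ∀ s, HasDerivAt G (-∫ t in (0 : ℝ)..(2 * Real.pi), Jf a1 a2 b1 b2 s t) s)
    (hu0 : Real.log ‖u0 0‖ = 0) (hu1 : Real.log ‖u0 (2 * Real.pi)‖ = 0) (hG0 : (G 0).im = 0)
    (hc0 : (∫ t in (0 : ℝ)..(2 * Real.pi), Kf u1 u2 b1 b2 0 t).im = 0) :
    regTorus (tri u0 u1 u2) = -(∫ s in (0 : ℝ)..(2 * Real.pi), a0 s * G s).re := by
  set c : ℝ → ℂ := fun s => ∫ t in (0 : ℝ)..(2 * Real.pi), Kf u1 u2 b1 b2 s t with hc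
  set N : ℝ → ℂ := fun s => ∫ t in (0 : ℝ)..(2 * Real.pi), Nf a1 a2 b1 b2 s t with hN
  set J : ℝ → ℂ := fun s => ∫ t in (0 : ℝ)..(2 * Real.pi), Jf a1 a2 b1 b2 s t with hJ
  have cN : Continuous N := cont_int D.cN 0 (2 * Real.pi)
  have cJ : Continuous J := cont_int D.cJ 0 (2 * Real.pi)
  have hcd : ∀ s, HasDerivAt c (N s) s := D.hasDerivAt_c
  have cc : Continuous c := continuous_iff_continuousAt.2 fun s => (hcd s).continuousAt
  have cG : Continuous G := continuous_iff_continuousAt.2 fun s => (hG s).continuousAt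
  have him : ∀ s, (N s).im = (J s).im := by
    intro s
    change (∫ t in (0 : ℝ)..(2 * Real.pi), Nf a1 a2 b1 b2 s t).im =
      (∫ t in (0 : ℝ)..(2 * Real.pi), Jf a1 a2 b1 b2 s t).im
    rw [← im_int D.cN, ← im_int D.cJ]
    exact intervalIntegral.integral_congr fun t _ => im_Nf s t
  have hImd : ∀ s, HasDerivAt (fun s => (c s).im + (G s).im) 0 s := by
    intro s
    have h1 : HasDerivAt (fun s => (c s).im) (N s).im s :=
      (Complex.imCLM.hasFDerivAt.comp_hasDerivAt s (hcd s))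
    have h2 : HasDerivAt (fun s => (G s).im) (-(J s)).im s :=
      (Complex.imCLM.hasFDerivAt.comp_hasDerivAt s (hG s))
    have h3 := h1.add h2
    refine h3.congr_deriv ?_
    rw [him s, Complex.neg_im]
    ring
  have hIm : ∀ s, (c s).im = -(G s).im := by
    intro s
    have h1 := is_const_of_deriv_eq_zero (f := fun s => (c s).im + (G s).im)
      (fun s => (hImd s).differentiableAt) (fun s => (hImd s).deriv) s 0
    rw [hG0] at h1
    have h2 : (c 0).im = 0 := hc0
    rw [h2] at h1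
    linarith
  have hL0 : ∀ s, HasDerivAt (fun s => Real.log ‖u0 s‖) (a0 s).re s := by
    intro s
    have h := hasDerivAt_log_norm (D.d0 s) (D.ne0 s)
    rwa [mul_div_cancel_right₀ _ (D.ne0 s)] at h
  have hcr : ∀ s, HasDerivAt (fun s => (c s).re) (N s).re s := fun s =>
    (Complex.reCLM.hasFDerivAt.comp_hasDerivAt s (hcd s))
  have hGr : ∀ s, HasDerivAt (fun s => (G s).re) (-(J s)).re s := fun s =>
    (Complex.reCLM.hasFDerivAt.comp_hasDerivAt s (hG s))
  set Φ' : ℝ → ℝ := fun s => (1 / 3) * ((a0 s).re * (c s).re + Real.log ‖u0 s‖ * (N s).re) +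
    ((a0 s).re * (G s).re + Real.log ‖u0 s‖ * (-(J s)).re) with hΦ'
  have hΦ : ∀ s, HasDerivAt (fun s => (1 / 3) * (Real.log ‖u0 s‖ * (c s).re) +
      Real.log ‖u0 s‖ * (G s).re) (Φ' s) s := fun s =>
    (((hL0 s).mul (hcr s)).const_mul (1 / 3)).add ((hL0 s).mul (hGr s))
  have cΦ' : Continuous Φ' := by
    have h1 := Complex.continuous_re.comp D.ca0
    have h2 := Complex.continuous_re.comp cc
    have h3 := Complex.continuous_re.comp cN
    have h4 := Complex.continuous_re.comp cG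
    have h5 := Complex.continuous_re.comp cJ.neg
    have h6 := D.cL0
    exact (continuous_const.mul ((h1.mul h2).add (h6.mul h3))).add ((h1.mul h4).add (h6.mul h5))
  have hint := intervalIntegral.integral_eq_sub_of_hasDerivAt (a := 0) (b := 2 * Real.pi)
    (fun s _ => hΦ s) (cΦ'.intervalIntegrable _ _)
  rw [hu0, hu1] at hint
  have hint' : ∫ s in (0 : ℝ)..(2 * Real.pi), Φ' s = 0 := by
    rw [hint]
    ring
  have caG : Continuous fun s => a0 s * G s := D.ca0.mul cG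
  rw [D.regTorus_eq]
  have h1 : ∀ s, ∫ t in (0 : ℝ)..(2 * Real.pi),
      (Efun u0 u1 u2 a0 a1 a2 b1 b2 s t - (1 / 3) * Dfun u0 u1 u2 a0 a1 a2 b1 b2 s t) =
      Φ' s - (a0 s * G s).re := by
    intro s
    rw [D.inner_eq s, hΦ']
    have e := hIm s
    simp only [hc] at e
    rw [e]
    simp only [Complex.mul_re, Complex.neg_re, hc, hN, hJ]
    ring
  simp only [h1]
  have i2 : IntervalIntegrable (fun s => (a0 s * G s).re) volume 0 (2 * Real.pi) :=
    (Complex.continuous_re.comp caG).intervalIntegrable _ _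
  rw [intervalIntegral.integral_sub (cΦ'.intervalIntegrable _ _) i2, hint', zero_sub]
  congr 1
  exact Complex.reCLM.intervalIntegral_comp_comm (caG.intervalIntegrable _ _)

end Data2

end Pool.Agent.Helper12.K3
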