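import Mathlib
import Pool.Agent.Helper12.K3.Path
import Pool.Agent.Helper12.K3.Reg2d

/-!
The torus.
-/

namespace Pool.Agent.Helper12.K3

open Complex Set Filter Topology Pool.Agent.Helper11

/-- the function `(z - 1) / (z + 1)` -/
noncomputable def qq (z : ℂ) : ℂ := (z - 1) / (z + 1)

lemma qq_aux {z : ℂ} (h : 1 - z ^ 2 ≠ 0) : z - 1 ≠ 0 ∧ z + 1 ≠ 0 := by
  constructor
  · intro h1
    apply h
    linear_combination (-(z + 1)) * h1
  · intro h1
    apply h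
    linear_combination (-(z - 1)) * h1

lemma qq_ne {z : ℂ} (h : 1 - z ^ 2 ≠ 0) : qq z ≠ 0 :=
  div_ne_zero (qq_aux h).1 (qq_aux h).2

lemma qq_deriv {f : ℝ → ℂ} {d : ℂ} {x : ℝ} (hf : HasDerivAt f d x) (h : 1 - f x ^ 2 ≠ 0) :
    HasDerivAt (fun x => qq (f x)) (-2 * d / (1 - f x ^ 2) * qq (f x)) x := by
  obtain ⟨h1, h2⟩ := qq_aux h
  have h3 := (hf.sub_const 1).div (hf.add_const 1) h2
  refine h3.congr_deriv ?_
  unfold qq
  have h4 : 1 - f x ^ 2 = -((f x - 1) * (f x + 1)) := by ring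
  rw [h4]
  field_simp
  ring

lemma qq_contDiffAt {E : Type*} [NormedAddCommGroup E] [NormedSpace ℝ E] {f : E → ℂ} {x : E}
    {n : ℕ} (hf : ContDiffAt ℝ n f x) (h : 1 - f x ^ 2 ≠ 0) :
    ContDiffAt ℝ n (fun x => qq (f x)) x := by
  have h1 : ContDiffAt ℝ n (fun x => f x - 1) x := hf.sub contDiffAt_const
  have h2 : ContDiffAt ℝ n (fun x => f x + 1) x := hf.add contDiffAt_const
  have h3 : ContDiffAt ℝ n (fun x => (f x + 1)⁻¹) x := h2.inv (qq_aux h).2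
  have h4 := h1.mul h3
  have e : (fun x => qq (f x)) = fun x => (f x - 1) * (f x + 1)⁻¹ := by
    funext x
    unfold qq
    rw [div_eq_mul_inv]
  rw [e]
  exact h4

/-- `kp (z²)` -/
noncomputable def KK (z : ℂ) : ℂ := kp (z ^ 2)

lemma KK_analyticAt {z : ℂ} (h : psi (z ^ 2) ∈ slitPlane) : AnalyticAt ℂ KK z :=
  AnalyticAt.comp (g := kp) (f := fun z : ℂ => z ^ 2) (kp_analyticAt h) (analyticAt_id.pow 2)

section

variable {Λ : ℝ} (hΛ : 0 < Λ) (r : ℝ)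

include hΛ

lemma good_cos (s t : ℝ) : psi ((pp Λ r s * (Real.cos t : ℂ)) ^ 2) ∈ slitPlane := by
  apply psi_mem
  have h : (pp Λ r s * (Real.cos t : ℂ)) ^ 2 = ((Real.cos t ^ 2 : ℝ) : ℂ) * FF Λ r s := by
    rw [mul_pow, pp_sq]
    push_cast
    ring
  rw [h]
  refine good_smul ?_ (sq_nonneg _)
  rw [FF_re]
  positivity

lemma good_sin (s t : ℝ) : psi ((pp Λ r s * (Real.sin t : ℂ)) ^ 2) ∈ slitPlane := by
  apply psi_mem
  have h : (pp Λ r s * (Real.sin t : ℂ)) ^ 2 = ((Real.sin t ^ 2 : ℝ) : ℂ) * FF Λ r s := by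
    rw [mul_pow, pp_sq]
    push_cast
    ring
  rw [h]
  refine good_smul ?_ (sq_nonneg _)
  rw [FF_re]
  positivity

end

/-- the second coordinate -/
noncomputable def YY (Λ r s t : ℝ) : ℂ := I * S (pp Λ r s * (Real.cos t : ℂ))

/-- the third coordinate -/
noncomputable def ZZ (Λ r s t : ℝ) : ℂ := I * S (pp Λ r s * (Real.sin t : ℂ))

lemma one_sub_YY (Λ r s t : ℝ) :
    1 - YY Λ r s t ^ 2 = exp ((pp Λ r s * (Real.cos t : ℂ)) ^ 2) := by
  unfold YY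
  rw [mul_pow, I_sq, S_sq]
  ring

lemma one_sub_ZZ (Λ r s t : ℝ) :
    1 - ZZ Λ r s t ^ 2 = exp ((pp Λ r s * (Real.sin t : ℂ)) ^ 2) := by
  unfold ZZ
  rw [mul_pow, I_sq, S_sq]
  ring

lemma prod_eq {r : ℝ} (hr : r ≠ 0) (Λ s t : ℝ) :
    (1 - X r s ^ 2) * (1 - YY Λ r s t ^ 2) * (1 - ZZ Λ r s t ^ 2) = exp (Λ : ℂ) := by
  rw [one_sub_X_sq hr Λ, one_sub_YY, one_sub_ZZ, ← Complex.exp_add, ← Complex.exp_add]
  congr 1
  rw [mul_pow, mul_pow, pp_sq]
  have h : (Real.cos t : ℂ) ^ 2 + (Real.sin t : ℂ) ^ 2 = 1 := by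
    have := Real.cos_sq_add_sin_sq t
    exact_mod_cast this
  linear_combination (FF Λ r s) * h

/-- the derivative of `pp` -/
noncomputable def dp (Λ r s : ℝ) : ℂ := deriv (pp Λ r) s

/-- the logarithmic derivatives -/
noncomputable def A0 (r s : ℝ) : ℂ := -2 * deriv (X r) s / (1 - X r s ^ 2)

noncomputable def A1 (Λ r s t : ℝ) : ℂ :=
  -(2 * I) * KK (pp Λ r s * (Real.cos t : ℂ)) * (dp Λ r s * (Real.cos t : ℂ))

noncomputable def B1 (Λ r s t : ℝ) : ℂ :=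
  2 * I * KK (pp Λ r s * (Real.cos t : ℂ)) * (pp Λ r s * (Real.sin t : ℂ))

noncomputable def A2 (Λ r s t : ℝ) : ℂ :=
  -(2 * I) * KK (pp Λ r s * (Real.sin t : ℂ)) * (dp Λ r s * (Real.sin t : ℂ))

noncomputable def B2 (Λ r s t : ℝ) : ℂ :=
  -(2 * I) * KK (pp Λ r s * (Real.sin t : ℂ)) * (pp Λ r s * (Real.cos t : ℂ))

noncomputable def M1 (Λ r s t : ℝ) : ℂ :=
  2 * I * (deriv KK (pp Λ r s * (Real.cos t : ℂ)) * (dp Λ r s * (Real.cos t : ℂ)) *
    (pp Λ r s * (Real.sin t : ℂ)) +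
    KK (pp Λ r s * (Real.cos t : ℂ)) * (dp Λ r s * (Real.sin t : ℂ)))

noncomputable def M2 (Λ r s t : ℝ) : ℂ :=
  -(2 * I) * (deriv KK (pp Λ r s * (Real.sin t : ℂ)) * (dp Λ r s * (Real.sin t : ℂ)) *
    (pp Λ r s * (Real.cos t : ℂ)) +
    KK (pp Λ r s * (Real.sin t : ℂ)) * (dp Λ r s * (Real.cos t : ℂ)))

section

variable {Λ : ℝ} (hΛ : 0 < Λ) (r : ℝ)

lemma hasDerivAt_ccos (t : ℝ) : HasDerivAt (fun t : ℝ => (Real.cos t : ℂ)) (-(Real.sin t : ℂ)) t := by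
  have := (Real.hasDerivAt_cos t).ofReal_comp
  simpa using this

lemma hasDerivAt_csin (t : ℝ) : HasDerivAt (fun t : ℝ => (Real.sin t : ℂ)) (Real.cos t : ℂ) t := by
  have := (Real.hasDerivAt_sin t).ofReal_comp
  simpa using this

lemma X_deriv (s : ℝ) : HasDerivAt (X r) (deriv (X r) s) s :=
  ((X_contDiff r 1).differentiable (by norm_num) s).hasDerivAt

include hΛ

lemma pp_deriv (s : ℝ) : HasDerivAt (pp Λ r) (dp Λ r s) s :=
  ((pp_contDiff hΛ r 1).differentiable (by norm_num) s).hasDerivAt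

lemma dp_continuous : Continuous (dp Λ r) :=
  (pp_contDiff hΛ r 1).continuous_deriv (by norm_num)

lemma pp_continuous : Continuous (pp Λ r) :=
  (pp_contDiff hΛ r 1).continuous

lemma YY_s (s t : ℝ) : HasDerivAt (fun s => YY Λ r s t)
    (I * (exp ((pp Λ r s * (Real.cos t : ℂ)) ^ 2) * KK (pp Λ r s * (Real.cos t : ℂ)) *
      (dp Λ r s * (Real.cos t : ℂ)))) s := by
  have h1 : HasDerivAt (fun s => pp Λ r s * (Real.cos t : ℂ)) (dp Λ r s * (Real.cos t : ℂ)) s :=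
    (pp_deriv hΛ r s).mul_const _
  exact (HasDerivAt.comp (h₂ := S) s (hasDerivAt_S (good_cos hΛ r s t)) h1).const_mul I

lemma YY_t (s t : ℝ) : HasDerivAt (fun t => YY Λ r s t)
    (I * (exp ((pp Λ r s * (Real.cos t : ℂ)) ^ 2) * KK (pp Λ r s * (Real.cos t : ℂ)) *
      (pp Λ r s * (-(Real.sin t : ℂ))))) t := by
  have h1 : HasDerivAt (fun t : ℝ => pp Λ r s * (Real.cos t : ℂ))
    (pp Λ r s * (-(Real.sin t : ℂ))) t := (hasDerivAt_ccos t).const_mul _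
  exact (HasDerivAt.comp (h₂ := S) t (hasDerivAt_S (good_cos hΛ r s t)) h1).const_mul I

lemma ZZ_s (s t : ℝ) : HasDerivAt (fun s => ZZ Λ r s t)
    (I * (exp ((pp Λ r s * (Real.sin t : ℂ)) ^ 2) * KK (pp Λ r s * (Real.sin t : ℂ)) *
      (dp Λ r s * (Real.sin t : ℂ)))) s := by
  have h1 : HasDerivAt (fun s => pp Λ r s * (Real.sin t : ℂ)) (dp Λ r s * (Real.sin t : ℂ)) s :=
    (pp_deriv hΛ r s).mul_const _
  exact (HasDerivAt.comp (h₂ := S) s (hasDerivAt_S (good_sin hΛ r s t)) h1).const_mul I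

lemma ZZ_t (s t : ℝ) : HasDerivAt (fun t => ZZ Λ r s t)
    (I * (exp ((pp Λ r s * (Real.sin t : ℂ)) ^ 2) * KK (pp Λ r s * (Real.sin t : ℂ)) *
      (pp Λ r s * (Real.cos t : ℂ)))) t := by
  have h1 : HasDerivAt (fun t : ℝ => pp Λ r s * (Real.sin t : ℂ))
    (pp Λ r s * (Real.cos t : ℂ)) t := (hasDerivAt_csin t).const_mul _
  exact (HasDerivAt.comp (h₂ := S) t (hasDerivAt_S (good_sin hΛ r s t)) h1).const_mul I

lemma KK_s (s t : ℝ) : HasDerivAt (fun s => KK (pp Λ r s * (Real.cos t : ℂ)))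
    (deriv KK (pp Λ r s * (Real.cos t : ℂ)) * (dp Λ r s * (Real.cos t : ℂ))) s := by
  have h1 : HasDerivAt (fun s => pp Λ r s * (Real.cos t : ℂ)) (dp Λ r s * (Real.cos t : ℂ)) s :=
    (pp_deriv hΛ r s).mul_const _
  exact HasDerivAt.comp (h₂ := KK) s
    (KK_analyticAt (good_cos hΛ r s t)).differentiableAt.hasDerivAt h1

lemma KK_t (s t : ℝ) : HasDerivAt (fun t : ℝ => KK (pp Λ r s * (Real.cos t : ℂ)))
    (deriv KK (pp Λ r s * (Real.cos t : ℂ)) * (pp Λ r s * (-(Real.sin t : ℂ)))) t := by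
  have h1 : HasDerivAt (fun t : ℝ => pp Λ r s * (Real.cos t : ℂ))
    (pp Λ r s * (-(Real.sin t : ℂ))) t := (hasDerivAt_ccos t).const_mul _
  exact HasDerivAt.comp (h₂ := KK) t
    (KK_analyticAt (good_cos hΛ r s t)).differentiableAt.hasDerivAt h1

lemma KK_s' (s t : ℝ) : HasDerivAt (fun s => KK (pp Λ r s * (Real.sin t : ℂ)))
    (deriv KK (pp Λ r s * (Real.sin t : ℂ)) * (dp Λ r s * (Real.sin t : ℂ))) s := by
  have h1 : HasDerivAt (fun s => pp Λ r s * (Real.sin t : ℂ)) (dp Λ r s * (Real.sin t : ℂ)) s :=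
    (pp_deriv hΛ r s).mul_const _
  exact HasDerivAt.comp (h₂ := KK) s
    (KK_analyticAt (good_sin hΛ r s t)).differentiableAt.hasDerivAt h1

lemma KK_t' (s t : ℝ) : HasDerivAt (fun t : ℝ => KK (pp Λ r s * (Real.sin t : ℂ)))
    (deriv KK (pp Λ r s * (Real.sin t : ℂ)) * (pp Λ r s * (Real.cos t : ℂ))) t := by
  have h1 : HasDerivAt (fun t : ℝ => pp Λ r s * (Real.sin t : ℂ))
    (pp Λ r s * (Real.cos t : ℂ)) t := (hasDerivAt_csin t).const_mul _
  exact HasDerivAt.comp (h₂ := KK) t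
    (KK_analyticAt (good_sin hΛ r s t)).differentiableAt.hasDerivAt h1

lemma c_cos : Continuous fun p : ℝ × ℝ => pp Λ r p.1 * (Real.cos p.2 : ℂ) :=
  ((pp_continuous hΛ r).comp continuous_fst).mul
    (Complex.continuous_ofReal.comp (Real.continuous_cos.comp continuous_snd))

lemma c_sin : Continuous fun p : ℝ × ℝ => pp Λ r p.1 * (Real.sin p.2 : ℂ) :=
  ((pp_continuous hΛ r).comp continuous_fst).mul
    (Complex.continuous_ofReal.comp (Real.continuous_sin.comp continuous_snd))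

lemma cd_cos : Continuous fun p : ℝ × ℝ => dp Λ r p.1 * (Real.cos p.2 : ℂ) :=
  ((dp_continuous hΛ r).comp continuous_fst).mul
    (Complex.continuous_ofReal.comp (Real.continuous_cos.comp continuous_snd))

lemma cd_sin : Continuous fun p : ℝ × ℝ => dp Λ r p.1 * (Real.sin p.2 : ℂ) :=
  ((dp_continuous hΛ r).comp continuous_fst).mul
    (Complex.continuous_ofReal.comp (Real.continuous_sin.comp continuous_snd))

lemma cK_cos : Continuous fun p : ℝ × ℝ => KK (pp Λ r p.1 * (Real.cos p.2 : ℂ)) := by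
  rw [continuous_iff_continuousAt]
  intro p
  exact ContinuousAt.comp (g := KK) (f := fun p : ℝ × ℝ => pp Λ r p.1 * (Real.cos p.2 : ℂ))
    (KK_analyticAt (good_cos hΛ r p.1 p.2)).continuousAt (c_cos hΛ r).continuousAt

lemma cK_sin : Continuous fun p : ℝ × ℝ => KK (pp Λ r p.1 * (Real.sin p.2 : ℂ)) := by
  rw [continuous_iff_continuousAt]
  intro p
  exact ContinuousAt.comp (g := KK) (f := fun p : ℝ × ℝ => pp Λ r p.1 * (Real.sin p.2 : ℂ))
    (KK_analyticAt (good_sin hΛ r p.1 p.2)).continuousAt (c_sin hΛ r).continuousAt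

lemma cdK_cos : Continuous fun p : ℝ × ℝ => deriv KK (pp Λ r p.1 * (Real.cos p.2 : ℂ)) := by
  rw [continuous_iff_continuousAt]
  intro p
  exact ContinuousAt.comp (g := deriv KK) (f := fun p : ℝ × ℝ => pp Λ r p.1 * (Real.cos p.2 : ℂ))
    (KK_analyticAt (good_cos hΛ r p.1 p.2)).deriv.continuousAt (c_cos hΛ r).continuousAt

lemma cdK_sin : Continuous fun p : ℝ × ℝ => deriv KK (pp Λ r p.1 * (Real.sin p.2 : ℂ)) := by
  rw [continuous_iff_continuousAt]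
  intro p
  exact ContinuousAt.comp (g := deriv KK) (f := fun p : ℝ × ℝ => pp Λ r p.1 * (Real.sin p.2 : ℂ))
    (KK_analyticAt (good_sin hΛ r p.1 p.2)).deriv.continuousAt (c_sin hΛ r).continuousAt

end

end Pool.Agent.Helper12.K3
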