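import Mathlib
import Pool.Agent.Helper12.K3.Tor

/-!
The torus: the data for the evaluation of the regulator.
-/

namespace Pool.Agent.Helper12.K3

open Complex Set Filter Topology Pool.Agent.Helper11

variable {Λ : ℝ} {r : ℝ}

lemma X_ne (hr : r ≠ 0) (s : ℝ) : 1 - X r s ^ 2 ≠ 0 := by
  rw [one_sub_X_sq hr 0]
  exact Complex.exp_ne_zero _

lemma YY_ne (Λ r s t : ℝ) : 1 - YY Λ r s t ^ 2 ≠ 0 := by
  rw [one_sub_YY]
  exact Complex.exp_ne_zero _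

lemma ZZ_ne (Λ r s t : ℝ) : 1 - ZZ Λ r s t ^ 2 ≠ 0 := by
  rw [one_sub_ZZ]
  exact Complex.exp_ne_zero _

lemma smX (r : ℝ) : ContDiff ℝ 2 fun θ : Fin 2 → ℝ => X r (θ 0) :=
  (X_contDiff r 2).comp (contDiff_apply ℝ ℝ 0)

lemma S_contDiffAt {z : ℂ} (h : psi (z ^ 2) ∈ slitPlane) (n : ℕ) : ContDiffAt ℝ n S z :=
  ((S_analyticAt h).contDiffAt (n := n)).restrict_scalars ℝ

lemma smY (hΛ : 0 < Λ) (r : ℝ) : ContDiff ℝ 2 fun θ : Fin 2 → ℝ => YY Λ r (θ 0) (θ 1) := by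
  have h1 : ContDiff ℝ 2 fun θ : Fin 2 → ℝ => pp Λ r (θ 0) :=
    (pp_contDiff hΛ r 2).comp (contDiff_apply ℝ ℝ 0)
  have h2 : ContDiff ℝ 2 fun θ : Fin 2 → ℝ => (Real.cos (θ 1) : ℂ) :=
    Complex.ofRealCLM.contDiff.comp (Real.contDiff_cos.comp (contDiff_apply ℝ ℝ 1))
  have h3 : ContDiff ℝ 2 fun θ : Fin 2 → ℝ => pp Λ r (θ 0) * (Real.cos (θ 1) : ℂ) := h1.mul h2
  refine contDiff_const.mul ?_
  rw [contDiff_iff_contDiffAt]
  intro θ
  exact ContDiffAt.comp (g := S) θ (S_contDiffAt (good_cos hΛ r (θ 0) (θ 1)) 2) h3.contDiffAt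

lemma smZ (hΛ : 0 < Λ) (r : ℝ) : ContDiff ℝ 2 fun θ : Fin 2 → ℝ => ZZ Λ r (θ 0) (θ 1) := by
  have h1 : ContDiff ℝ 2 fun θ : Fin 2 → ℝ => pp Λ r (θ 0) :=
    (pp_contDiff hΛ r 2).comp (contDiff_apply ℝ ℝ 0)
  have h2 : ContDiff ℝ 2 fun θ : Fin 2 → ℝ => (Real.sin (θ 1) : ℂ) :=
    Complex.ofRealCLM.contDiff.comp (Real.contDiff_sin.comp (contDiff_apply ℝ ℝ 1))
  have h3 : ContDiff ℝ 2 fun θ : Fin 2 → ℝ => pp Λ r (θ 0) * (Real.sin (θ 1) : ℂ) := h1.mul h2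
  refine contDiff_const.mul ?_
  rw [contDiff_iff_contDiffAt]
  intro θ
  exact ContDiffAt.comp (g := S) θ (S_contDiffAt (good_sin hΛ r (θ 0) (θ 1)) 2) h3.contDiffAt

lemma YY_per0 (Λ r s t : ℝ) : YY Λ r (s + 2 * Real.pi) t = YY Λ r s t := by
  unfold YY
  rw [pp_per]

lemma YY_per1 (Λ r s t : ℝ) : YY Λ r s (t + 2 * Real.pi) = YY Λ r s t := by
  unfold YY
  rw [Real.cos_add_two_pi]

lemma ZZ_per0 (Λ r s t : ℝ) : ZZ Λ r (s + 2 * Real.pi) t = ZZ Λ r s t := by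
  unfold ZZ
  rw [pp_per]

lemma ZZ_per1 (Λ r s t : ℝ) : ZZ Λ r s (t + 2 * Real.pi) = ZZ Λ r s t := by
  unfold ZZ
  rw [Real.sin_add_two_pi]

lemma add_single_ite (θ : Fin 2 → ℝ) (m i : Fin 2) (b : ℝ) :
    (θ + Pi.single m b : Fin 2 → ℝ) i = θ i + if i = m then b else 0 := by
  rw [Pi.add_apply, Pi.single_apply]

/-- the coordinate functions are periodic -/
lemma perX (r : ℝ) (m : Fin 2) (θ : Fin 2 → ℝ) :
    X r ((θ + Pi.single m (2 * Real.pi) : Fin 2 → ℝ) 0) = X r (θ 0) := by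
  rw [add_single_ite]
  split_ifs
  · rw [X_per]
  · rw [add_zero]

lemma perY (Λ r : ℝ) (m : Fin 2) (θ : Fin 2 → ℝ) :
    YY Λ r ((θ + Pi.single m (2 * Real.pi) : Fin 2 → ℝ) 0)
      ((θ + Pi.single m (2 * Real.pi) : Fin 2 → ℝ) 1) = YY Λ r (θ 0) (θ 1) := by
  rw [add_single_ite, add_single_ite]
  split_ifs <;> simp only [YY_per0, YY_per1, add_zero]

lemma perZ (Λ r : ℝ) (m : Fin 2) (θ : Fin 2 → ℝ) :
    ZZ Λ r ((θ + Pi.single m (2 * Real.pi) : Fin 2 → ℝ) 0)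
      ((θ + Pi.single m (2 * Real.pi) : Fin 2 → ℝ) 1) = ZZ Λ r (θ 0) (θ 1) := by
  rw [add_single_ite, add_single_ite]
  split_ifs <;> simp only [ZZ_per0, ZZ_per1, add_zero]

lemma qq_contDiff {f : (Fin 2 → ℝ) → ℂ} (hf : ContDiff ℝ 2 f) (h : ∀ θ, 1 - f θ ^ 2 ≠ 0) :
    ContDiff ℝ 2 fun θ => qq (f θ) := by
  rw [contDiff_iff_contDiffAt]
  intro θ
  exact qq_contDiffAt (n := 2) hf.contDiffAt (h θ)

/-- the three functions -/
noncomputable def U0 (r s : ℝ) : ℂ := qq (X r s)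

noncomputable def U1 (Λ r s t : ℝ) : ℂ := qq (YY Λ r s t)

noncomputable def U2 (Λ r s t : ℝ) : ℂ := qq (ZZ Λ r s t)

lemma tuX (hr : r ≠ 0) : TU (fun θ : Fin 2 → ℝ => U0 r (θ 0)) where
  smooth := qq_contDiff (smX r) fun _ => X_ne hr _
  per := fun m θ => congrArg qq (perX r m θ)
  ne := fun _ => qq_ne (X_ne hr _)

lemma tuY (hΛ : 0 < Λ) (r : ℝ) : TU (fun θ : Fin 2 → ℝ => U1 Λ r (θ 0) (θ 1)) where
  smooth := qq_contDiff (smY hΛ r) fun _ => YY_ne Λ r _ _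
  per := fun m θ => congrArg qq (perY Λ r m θ)
  ne := fun _ => qq_ne (YY_ne Λ r _ _)

lemma tuZ (hΛ : 0 < Λ) (r : ℝ) : TU (fun θ : Fin 2 → ℝ => U2 Λ r (θ 0) (θ 1)) where
  smooth := qq_contDiff (smZ hΛ r) fun _ => ZZ_ne Λ r _ _
  per := fun m θ => congrArg qq (perZ Λ r m θ)
  ne := fun _ => qq_ne (ZZ_ne Λ r _ _)

lemma A0_continuous (hr : r ≠ 0) : Continuous (A0 r) :=
  (continuous_const.mul ((X_contDiff r 1).continuous_deriv (by norm_num))).div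
    (continuous_const.sub ((X_contDiff r 1).continuous.pow 2)) (X_ne hr)

lemma cA1 (hΛ : 0 < Λ) (r : ℝ) : Continuous (Function.uncurry (A1 Λ r)) :=
  (continuous_const.mul (cK_cos hΛ r)).mul (cd_cos hΛ r)

lemma cA2 (hΛ : 0 < Λ) (r : ℝ) : Continuous (Function.uncurry (A2 Λ r)) :=
  (continuous_const.mul (cK_sin hΛ r)).mul (cd_sin hΛ r)

lemma cB1 (hΛ : 0 < Λ) (r : ℝ) : Continuous (Function.uncurry (B1 Λ r)) :=
  (continuous_const.mul (cK_cos hΛ r)).mul (c_sin hΛ r)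

lemma cB2 (hΛ : 0 < Λ) (r : ℝ) : Continuous (Function.uncurry (B2 Λ r)) :=
  (continuous_const.mul (cK_sin hΛ r)).mul (c_cos hΛ r)

lemma cM1 (hΛ : 0 < Λ) (r : ℝ) : Continuous (Function.uncurry (M1 Λ r)) :=
  continuous_const.mul ((((cdK_cos hΛ r).mul (cd_cos hΛ r)).mul (c_sin hΛ r)).add
    ((cK_cos hΛ r).mul (cd_sin hΛ r)))

lemma cM2 (hΛ : 0 < Λ) (r : ℝ) : Continuous (Function.uncurry (M2 Λ r)) :=
  continuous_const.mul ((((cdK_sin hΛ r).mul (cd_sin hΛ r)).mul (c_cos hΛ r)).add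
    ((cK_sin hΛ r).mul (cd_cos hΛ r)))

theorem data (hΛ : 0 < Λ) (hr : r ≠ 0) :
    Data2 (U0 r) (U1 Λ r) (U2 Λ r) (A0 r) (A1 Λ r) (A2 Λ r) (B1 Λ r) (B2 Λ r)
      (M1 Λ r) (M2 Λ r) where
  tu := by
    intro j
    fin_cases j
    · exact tuX hr
    · exact tuY hΛ r
    · exact tuZ hΛ r
  d0 := fun s => qq_deriv (X_deriv r s) (X_ne hr s)
  d1s := fun s t => by
    refine (qq_deriv (YY_s hΛ r s t) (YY_ne Λ r s t)).congr_deriv ?_
    rw [one_sub_YY]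
    unfold A1 U1
    have := Complex.exp_ne_zero ((pp Λ r s * (Real.cos t : ℂ)) ^ 2)
    field_simp
  d1t := fun s t => by
    refine (qq_deriv (YY_t hΛ r s t) (YY_ne Λ r s t)).congr_deriv ?_
    rw [one_sub_YY]
    unfold B1 U1
    have := Complex.exp_ne_zero ((pp Λ r s * (Real.cos t : ℂ)) ^ 2)
    field_simp
  d2s := fun s t => by
    refine (qq_deriv (ZZ_s hΛ r s t) (ZZ_ne Λ r s t)).congr_deriv ?_
    rw [one_sub_ZZ]
    unfold A2 U2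
    have := Complex.exp_ne_zero ((pp Λ r s * (Real.sin t : ℂ)) ^ 2)
    field_simp
  d2t := fun s t => by
    refine (qq_deriv (ZZ_t hΛ r s t) (ZZ_ne Λ r s t)).congr_deriv ?_
    rw [one_sub_ZZ]
    unfold B2 U2
    have := Complex.exp_ne_zero ((pp Λ r s * (Real.sin t : ℂ)) ^ 2)
    field_simp
  ca0 := A0_continuous hr
  ca1 := cA1 hΛ r
  ca2 := cA2 hΛ r
  cb1 := cB1 hΛ r
  cb2 := cB2 hΛ r
  b1s := fun s t => by
    have h := ((KK_s hΛ r s t).const_mul (2 * I)).mul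
      ((pp_deriv hΛ r s).mul_const (Real.sin t : ℂ))
    refine h.congr_deriv ?_
    unfold M1
    ring
  b2s := fun s t => by
    have h := ((KK_s' hΛ r s t).const_mul (-(2 * I))).mul
      ((pp_deriv hΛ r s).mul_const (Real.cos t : ℂ))
    refine h.congr_deriv ?_
    unfold M2
    ring
  a1t := fun s t => by
    have h := ((KK_t hΛ r s t).const_mul (-(2 * I))).mul
      ((hasDerivAt_ccos t).const_mul (dp Λ r s))
    refine h.congr_deriv ?_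
    unfold M1
    ring
  a2t := fun s t => by
    have h := ((KK_t' hΛ r s t).const_mul (-(2 * I))).mul
      ((hasDerivAt_csin t).const_mul (dp Λ r s))
    refine h.congr_deriv ?_
    unfold M2
    ring
  a1p := fun s t => by
    unfold A1
    rw [Real.cos_add_two_pi]
  a2p := fun s t => by
    unfold A2
    rw [Real.sin_add_two_pi]
  cm1 := cM1 hΛ r
  cm2 := cM2 hΛ r

end Pool.Agent.Helper12.K3
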