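import Mathlib
import Pool.Agent.Helper12.K3.Tor2

/-!
The regulator of the torus as a one-dimensional integral.
-/

namespace Pool.Agent.Helper12.K3

open Complex Set Filter Topology MeasureTheory Pool.Agent.Helper11

/-- the derivatives of `μ`, `α` and `F` -/
noncomputable def dmu (r s : ℝ) : ℝ := deriv (mu r) s

noncomputable def dal (s : ℝ) : ℝ := deriv al s

noncomputable def dF (r s : ℝ) : ℂ := 2 * (mu r s : ℂ) * (dmu r s : ℂ) - (dal s : ℂ) * I

lemma mu_deriv (r s : ℝ) : HasDerivAt (mu r) (dmu r s) s :=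
  ((mu_contDiff r 1).differentiable (by norm_num) s).hasDerivAt

lemma al_deriv (s : ℝ) : HasDerivAt al (dal s) s :=
  ((al_contDiff 1).differentiable (by norm_num) s).hasDerivAt

lemma dmu_continuous (r : ℝ) : Continuous (dmu r) :=
  (mu_contDiff r 1).continuous_deriv (by norm_num)

lemma dal_continuous : Continuous dal :=
  (al_contDiff 1).continuous_deriv (by norm_num)

lemma mu_continuous (r : ℝ) : Continuous (mu r) := (mu_contDiff r 1).continuous

lemma al_continuous : Continuous al := (al_contDiff 1).continuous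

lemma FF_continuous (Λ r : ℝ) : Continuous (FF Λ r) := (FF_contDiff Λ r 1).continuous

lemma FF_deriv (Λ r s : ℝ) : HasDerivAt (FF Λ r) (dF r s) s := by
  have h1 := (mu_deriv r s).ofReal_comp
  have h2 := (al_deriv s).ofReal_comp
  have h3 := ((h1.pow 2).const_add (Λ : ℂ)).sub (h2.mul_const I)
  refine h3.congr_deriv ?_
  unfold dF
  simp only [Nat.cast_ofNat, Nat.add_one_sub_one, pow_one]

lemma dF_continuous (r : ℝ) : Continuous (dF r) :=
  ((continuous_const.mul (Complex.continuous_ofReal.comp (mu_continuous r))).mul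
    (Complex.continuous_ofReal.comp (dmu_continuous r))).sub
    ((Complex.continuous_ofReal.comp dal_continuous).mul continuous_const)

variable {Λ : ℝ}

lemma FF_re_pos (hΛ : 0 < Λ) (r s : ℝ) : 0 < (FF Λ r s).re := by
  rw [FF_re]
  positivity

lemma two_pp_dp (hΛ : 0 < Λ) (r s : ℝ) : 2 * pp Λ r s * dp Λ r s = dF r s := by
  have h1 := (pp_deriv hΛ r s).pow 2
  have h2 : (pp Λ r) ^ 2 = FF Λ r := by
    funext s
    exact pp_sq Λ r s
  rw [h2] at h1
  have h3 := h1.unique (FF_deriv Λ r s)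
  rw [← h3]
  simp only [Nat.cast_ofNat, Nat.add_one_sub_one, pow_one]

lemma Jf_eq (hΛ : 0 < Λ) (r s t : ℝ) :
    Jf (A1 Λ r) (A2 Λ r) (B1 Λ r) (B2 Λ r) s t = -(dF r s * (2 * kk (FF Λ r s) t)) := by
  have e1 : KK (pp Λ r s * (Real.cos t : ℂ)) = kp (((Real.cos t ^ 2 : ℝ) : ℂ) * FF Λ r s) := by
    unfold KK
    congr 1
    rw [mul_pow, pp_sq]
    push_cast
    ring
  have h0 : (Real.sin t : ℂ) ^ 2 = ((1 - Real.cos t ^ 2 : ℝ) : ℂ) := by
    have := Real.sin_sq t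
    exact_mod_cast this
  have e2 : KK (pp Λ r s * (Real.sin t : ℂ)) =
      kp (((1 - Real.cos t ^ 2 : ℝ) : ℂ) * FF Λ r s) := by
    unfold KK
    congr 1
    rw [mul_pow, pp_sq, h0]
    ring
  unfold Jf A1 A2 B1 B2 kk
  rw [e1, e2, ← two_pp_dp hΛ]
  set k1 := kp (((Real.cos t ^ 2 : ℝ) : ℂ) * FF Λ r s)
  set k2 := kp (((1 - Real.cos t ^ 2 : ℝ) : ℂ) * FF Λ r s)
  have h1 : (Real.cos t : ℂ) ^ 2 + (Real.sin t : ℂ) ^ 2 = 1 := by
    have := Real.cos_sq_add_sin_sq t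
    exact_mod_cast this
  have hI := I_sq
  linear_combination (4 * k1 * k2 * pp Λ r s * dp Λ r s * ((Real.cos t : ℂ) ^ 2 +
    (Real.sin t : ℂ) ^ 2)) * hI - (4 * k1 * k2 * pp Λ r s * dp Λ r s) * h1

lemma int_Jf (hΛ : 0 < Λ) (r s : ℝ) :
    -∫ t in (0 : ℝ)..(2 * Real.pi), Jf (A1 Λ r) (A2 Λ r) (B1 Λ r) (B2 Λ r) s t =
      dF r s * hF (FF Λ r s) := by
  unfold hF
  rw [← intervalIntegral.integral_const_mul, ← intervalIntegral.integral_neg]
  refine intervalIntegral.integral_congr fun t _ => ?_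
  simp only [Jf_eq hΛ]
  ring

/-- the integrand of `G` -/
noncomputable def gg (Λ r s : ℝ) : ℂ := dF r s * hF (FF Λ r s)

lemma gg_continuous (hΛ : 0 < Λ) (r : ℝ) : Continuous (gg Λ r) :=
  (dF_continuous r).mul (continuous_hF (FF_continuous Λ r) (FF_re_pos hΛ r))

/-- the primitive -/
noncomputable def GG (Λ r s : ℝ) : ℂ := ∫ σ in (Real.pi / 3)..s, gg Λ r σ

lemma GG_deriv (hΛ : 0 < Λ) (r s : ℝ) : HasDerivAt (GG Λ r) (gg Λ r s) s :=
  intervalIntegral.integral_hasDerivAt_right ((gg_continuous hΛ r).intervalIntegrable _ _)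
    ((gg_continuous hΛ r).stronglyMeasurableAtFilter _ _) (gg_continuous hΛ r).continuousAt

lemma GG_continuous (hΛ : 0 < Λ) (r : ℝ) : Continuous (GG Λ r) :=
  continuous_iff_continuousAt.2 fun s => (GG_deriv hΛ r s).continuousAt

lemma S_real (x : ℝ) : ∃ y : ℝ, S (x : ℂ) = (y : ℂ) := by
  obtain ⟨y, hy0, -, -, hy⟩ := psi_real (sq_nonneg x)
  refine ⟨x * Real.exp (x ^ 2 / 2) * Real.sqrt y, ?_⟩
  unfold S
  have h1 : psi ((x : ℂ) ^ 2) = (y : ℂ) := by
    rw [← hy]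
    push_cast
    rfl
  rw [h1, rt_ofReal hy0.le]
  push_cast
  rfl

lemma norm_qq_I (y : ℝ) : Real.log ‖qq (I * (y : ℂ))‖ = 0 := by
  unfold qq
  have h1 : ‖I * (y : ℂ) - 1‖ = ‖I * (y : ℂ) + 1‖ := by
    rw [Complex.norm_def, Complex.norm_def]
    congr 1
    simp [Complex.normSq_apply]
  have h2 : ‖I * (y : ℂ) + 1‖ ≠ 0 := by
    intro h
    rw [norm_eq_zero] at h
    have := congrArg Complex.re h
    simp at this
  rw [norm_div, h1, div_self h2, Real.log_one]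

lemma pp_at_zero (hΛ : 0 < Λ) (r : ℝ) : pp Λ r 0 = ((Real.sqrt Λ : ℝ) : ℂ) := by
  unfold pp
  have h : FF Λ r 0 = (Λ : ℂ) := by
    unfold FF
    rw [mu_zero, al_of_ge (by rw [Real.cos_zero]; norm_num)]
    simp
  rw [h, rt_ofReal hΛ.le]

lemma Kf_zero (hΛ : 0 < Λ) (r t : ℝ) :
    Kf (U1 Λ r) (U2 Λ r) (B1 Λ r) (B2 Λ r) 0 t = 0 := by
  have h1 : Real.log ‖U1 Λ r 0 t‖ = 0 := by
    unfold U1 YY
    rw [pp_at_zero hΛ, ← Complex.ofReal_mul]
    obtain ⟨y, hy⟩ := S_real (Real.sqrt Λ * Real.cos t)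
    rw [hy]
    exact norm_qq_I y
  have h2 : Real.log ‖U2 Λ r 0 t‖ = 0 := by
    unfold U2 ZZ
    rw [pp_at_zero hΛ, ← Complex.ofReal_mul]
    obtain ⟨y, hy⟩ := S_real (Real.sqrt Λ * Real.sin t)
    rw [hy]
    exact norm_qq_I y
  unfold Kf
  rw [h1, h2]
  simp

/-- the regulator as a one-dimensional integral -/
theorem reg1 (hΛ : 0 < Λ) {r : ℝ} (hr : r ≠ 0) (hG0 : (GG Λ r 0).im = 0) :
    regTorus (tri (U0 r) (U1 Λ r) (U2 Λ r)) =
      -(∫ s in (0 : ℝ)..(2 * Real.pi), A0 r s * GG Λ r s).re := by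
  refine (data hΛ hr).reg_eq (GG Λ r) ?_ ?_ ?_ hG0 ?_
  · intro s
    rw [int_Jf hΛ]
    exact GG_deriv hΛ r s
  · unfold U0
    rw [X_zero]
    simp [qq]
  · unfold U0
    rw [X_two_pi]
    simp [qq]
  · simp only [Kf_zero hΛ]
    simp

end Pool.Agent.Helper12.K3
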