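import Mathlib
import Pool.Agent.Helper12.K3.Est1

/-!
The pieces of the path: formulas for the logarithmic derivative and the primitive.
-/

namespace Pool.Agent.Helper12.K3

open Complex Set Filter Topology MeasureTheory Pool.Agent.Helper11

/-- the weight -/
noncomputable def VV (m : ℝ) : ℂ := 2 / rt (psi ((m : ℂ) ^ 2))

lemma psi_sq_real (m : ℝ) : ∃ y : ℝ, 0 < y ∧ y ≤ 1 ∧ 1 / (1 + m ^ 2) ≤ y ∧
    psi ((m : ℂ) ^ 2) = (y : ℂ) := by
  obtain ⟨y, h1, h2, h3, hy⟩ := psi_real (sq_nonneg m)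
  refine ⟨y, h1, h2, h3, ?_⟩
  rw [← hy]
  push_cast
  rfl

lemma psi_sq_mem (m : ℝ) : psi ((m : ℂ) ^ 2) ∈ slitPlane := by
  obtain ⟨y, h1, -, -, hy⟩ := psi_sq_real m
  rw [hy]
  exact Complex.ofReal_mem_slitPlane.2 h1

/-- the weight is real, at least two, with linear growth -/
lemma VV_real (m : ℝ) : ∃ v : ℝ, 2 ≤ v ∧ v ≤ 2 * (1 + |m|) ∧ VV m = (v : ℂ) := by
  obtain ⟨y, h1, h2, h3, hy⟩ := psi_sq_real m
  have hs : 0 < Real.sqrt y := Real.sqrt_pos.2 h1
  have hs1 : Real.sqrt y ≤ 1 := Real.sqrt_le_one.2 h2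
  refine ⟨2 / Real.sqrt y, ?_, ?_, ?_⟩
  · rw [le_div_iff₀ hs]
    linarith
  · rw [div_le_iff₀ hs]
    have h4 : 1 / (1 + |m|) ≤ Real.sqrt y := by
      apply Real.le_sqrt_of_sq_le
      refine le_trans ?_ h3
      rw [div_pow, one_pow]
      apply one_div_le_one_div_of_le (by positivity)
      have := sq_abs m
      nlinarith [abs_nonneg m]
    have h5 : 0 < 1 + |m| := by positivity
    rw [div_le_iff₀ h5] at h4
    nlinarith
  · unfold VV
    rw [hy, rt_ofReal h1.le]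
    push_cast
    rfl

lemma VV_continuous : Continuous VV := by
  unfold VV
  refine continuous_const.div ?_ fun m => rt_ne (psi_sq_mem m)
  rw [continuous_iff_continuousAt]
  intro m
  have h1 : Continuous fun m : ℝ => psi ((m : ℂ) ^ 2) :=
    psi_differentiable.continuous.comp (Complex.continuous_ofReal.pow 2)
  exact ContinuousAt.comp (g := rt) (f := fun m : ℝ => psi ((m : ℂ) ^ 2))
    (rt_analyticAt (psi_sq_mem m)).continuousAt h1.continuousAt

/-- the function `m √ψ(m²)` -/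
noncomputable def xm (m : ℝ) : ℂ := (m : ℂ) * rt (psi ((m : ℂ) ^ 2))

lemma xm_deriv (m : ℝ) :
    HasDerivAt xm (exp (-(m : ℂ) ^ 2) / rt (psi ((m : ℂ) ^ 2))) m := by
  have h0 := hasDerivAt_S (psi_sq_mem m)
  have h1 : HasDerivAt (fun z : ℂ => exp (-(z ^ 2) / 2))
      (exp (-((m : ℂ) ^ 2) / 2) * (-(2 * (m : ℂ)) / 2)) (m : ℂ) := by
    have h2 : HasDerivAt (fun z : ℂ => z ^ 2) (2 * (m : ℂ)) (m : ℂ) := by
      simpa using hasDerivAt_pow 2 (m : ℂ)
    exact (h2.neg.div_const 2).cexp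
  have h2 := (h0.mul h1).comp_ofReal
  have h3 : (fun y : ℝ => (S * fun z : ℂ => exp (-(z ^ 2) / 2)) (y : ℂ)) = xm := by
    funext y
    simp only [Pi.mul_apply]
    unfold S xm
    have : exp ((y : ℂ) ^ 2 / 2) * exp (-((y : ℂ) ^ 2) / 2) = 1 := by
      rw [← Complex.exp_add]
      ring_nf
      simp
    linear_combination ((y : ℂ) * rt (psi ((y : ℂ) ^ 2))) * this
  rw [h3] at h2
  refine h2.congr_deriv ?_
  unfold S kp
  have hr := rt_ne (psi_sq_mem m)
  have hsq := rt_sq (psi ((m : ℂ) ^ 2))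
  have hpsi := mul_psi ((m : ℂ) ^ 2)
  have e1 : exp ((m : ℂ) ^ 2) * exp (-(m : ℂ) ^ 2 / 2) * exp (-(m : ℂ) ^ 2 / 2) = 1 := by
    rw [← Complex.exp_add, ← Complex.exp_add]
    ring_nf
    simp
  have e2 : exp ((m : ℂ) ^ 2 / 2) * exp (-(m : ℂ) ^ 2 / 2) = 1 := by
    rw [← Complex.exp_add]
    ring_nf
    simp
  set R := rt (psi ((m : ℂ) ^ 2))
  set p := psi ((m : ℂ) ^ 2)
  set E := exp ((m : ℂ) ^ 2)
  set e := exp (-(m : ℂ) ^ 2 / 2)
  set f := exp ((m : ℂ) ^ 2 / 2)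
  set g := exp (-(m : ℂ) ^ 2)
  field_simp
  linear_combination e1 - (m : ℂ) ^ 2 * R ^ 2 * e2 - (m : ℂ) ^ 2 * hsq - hpsi

section

variable {r : ℝ}

/-- away from the circles the logarithmic derivative is `-V(μ) μ'` -/
lemma A0_eq (hr : r ≠ 0) {s : ℝ} (h : 1 / 3 < |Real.cos s|) :
    A0 r s = -(VV (mu r s) * (dmu r s : ℂ)) := by
  have hev : ∀ᶠ σ in 𝓝 s, 1 / 3 < |Real.cos σ| :=
    (Real.continuous_cos.abs.tendsto s).eventually (lt_mem_nhds h)
  have hX : X r =ᶠ[𝓝 s] fun σ => xm (mu r σ) := by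
    filter_upwards [hev] with σ hσ
    unfold X Q xm
    rw [exp_al_eq_one hσ.le]
    simp
  have h1 : HasDerivAt (fun σ => xm (mu r σ))
      ((dmu r s) • (exp (-(mu r s : ℂ) ^ 2) / rt (psi ((mu r s : ℂ) ^ 2)))) s :=
    HasDerivAt.scomp s (xm_deriv (mu r s)) (mu_deriv r s)
  have h2 : deriv (X r) s = (dmu r s : ℂ) * (exp (-(mu r s : ℂ) ^ 2) /
      rt (psi ((mu r s : ℂ) ^ 2))) := by
    have h3 := (h1.congr_of_eventuallyEq hX).deriv
    rw [h3, Complex.real_smul]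
  have h4 : 1 - X r s ^ 2 = exp (-(mu r s : ℂ) ^ 2) := by
    rw [X_sq hr, Complex.exp_add, exp_al_eq_one h.le]
    ring
  unfold A0 VV
  rw [h2, h4]
  have := Complex.exp_ne_zero (-(mu r s : ℂ) ^ 2)
  have hr := rt_ne (psi_sq_mem (mu r s))
  field_simp

/-- near a point with `|cos s| > 1/3` the angle is constant -/
lemma dal_eq_zero {s : ℝ} (h : 1 / 3 < |Real.cos s|) : dal s = 0 := by
  have h0 : ∃ b : ℝ, al =ᶠ[𝓝 s] fun _ => b := by
    rcases lt_abs.1 h with h1 | h1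
    · refine ⟨0, ?_⟩
      have hev : ∀ᶠ σ in 𝓝 s, 1 / 3 < Real.cos σ :=
        (Real.continuous_cos.tendsto s).eventually (lt_mem_nhds h1)
      filter_upwards [hev] with σ hσ
      exact al_of_ge hσ.le
    · refine ⟨2 * Real.pi, ?_⟩
      have hev : ∀ᶠ σ in 𝓝 s, 1 / 3 < -Real.cos σ :=
        (Real.continuous_cos.neg.tendsto s).eventually (lt_mem_nhds h1)
      filter_upwards [hev] with σ hσ
      exact al_of_le (by linarith)
  obtain ⟨b, hb⟩ := h0
  unfold dal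
  rw [hb.deriv_eq]
  simp

/-- near a point with `|sin s| > 1/2` the parameter `μ` is constant -/
lemma dmu_eq_zero (r : ℝ) {s : ℝ} (h : 1 / 2 < |Real.sin s|) : dmu r s = 0 := by
  have h0 : ∃ b : ℝ, mu r =ᶠ[𝓝 s] fun _ => b := by
    rcases lt_abs.1 h with h1 | h1
    · refine ⟨r, ?_⟩
      have hev : ∀ᶠ σ in 𝓝 s, 1 / 2 < Real.sin σ :=
        (Real.continuous_sin.tendsto s).eventually (lt_mem_nhds h1)
      filter_upwards [hev] with σ hσ
      exact mu_of_ge r hσ.le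
    · refine ⟨-r, ?_⟩
      have hev : ∀ᶠ σ in 𝓝 s, 1 / 2 < -Real.sin σ :=
        (Real.continuous_sin.neg.tendsto s).eventually (lt_mem_nhds h1)
      filter_upwards [hev] with σ hσ
      exact mu_of_le r (by linarith)
  obtain ⟨b, hb⟩ := h0
  unfold dmu
  rw [hb.deriv_eq]
  simp

/-- on the circles -/
lemma A0_circle (hr : r ≠ 0) {s : ℝ} (h : 1 / 2 < |Real.sin s|) :
    X r s * A0 r s = (dal s : ℂ) * I := by
  have h1 := (X_deriv r s).pow 2
  have h2 : (X r) ^ 2 = fun s => 1 - exp (-(mu r s : ℂ) ^ 2 + al s * I) := by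
    funext s
    exact X_sq hr s
  rw [h2] at h1
  have h3 : HasDerivAt (fun s => 1 - exp (-(mu r s : ℂ) ^ 2 + al s * I))
      (-(exp (-(mu r s : ℂ) ^ 2 + al s * I) *
        (-(((2 : ℕ) : ℂ) * (mu r s : ℂ) ^ (2 - 1) * (dmu r s : ℂ)) + (dal s : ℂ) * I))) s :=
    ((((mu_deriv r s).ofReal_comp.pow 2).neg.add
      ((al_deriv s).ofReal_comp.mul_const I)).cexp).const_sub 1
  have h4 := h1.unique h3
  rw [dmu_eq_zero r h] at h4
  unfold A0
  rw [X_sq hr]
  have hE := Complex.exp_ne_zero (-(mu r s : ℂ) ^ 2 + al s * I)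
  set E := exp (-(mu r s : ℂ) ^ 2 + al s * I)
  have h5 : 1 - (1 - E) = E := by ring
  rw [h5]
  field_simp
  simp only [Nat.cast_ofNat, Nat.add_one_sub_one, pow_one, Complex.ofReal_zero, mul_zero,
    neg_zero, zero_add] at h4
  linear_combination -h4

end

end Pool.Agent.Helper12.K3
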