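import Mathlib
import Pool.Agent.Helper12.K3.Est2

/-!
The pieces of the path: changes of variables.
-/

namespace Pool.Agent.Helper12.K3

open Complex Set Filter Topology MeasureTheory Pool.Agent.Helper11

variable {Λ : ℝ}

/-- the integrand in the variable `m` -/
noncomputable def hb (Λ β m : ℝ) : ℂ := 2 * (m : ℂ) * hF ((Λ : ℂ) + (m : ℂ) ^ 2 - (β : ℂ) * I)

lemma arg_re (Λ β m : ℝ) : ((Λ : ℂ) + (m : ℂ) ^ 2 - (β : ℂ) * I).re = Λ + m ^ 2 := by
  have : (Λ : ℂ) + (m : ℂ) ^ 2 - (β : ℂ) * I = ((Λ + m ^ 2 : ℝ) : ℂ) - (β : ℂ) * I := by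
    push_cast
    ring
  rw [this, Complex.sub_re, Complex.ofReal_re, Complex.re_ofReal_mul, Complex.I_re]
  ring

lemma hb_continuous (hΛ : 0 < Λ) (β : ℝ) : Continuous (hb Λ β) := by
  have h1 : Continuous fun m : ℝ => (Λ : ℂ) + (m : ℂ) ^ 2 - (β : ℂ) * I := by fun_prop
  have h2 : Continuous fun m : ℝ => 2 * (m : ℂ) := by fun_prop
  refine h2.mul (continuous_hF h1 fun m => ?_)
  rw [arg_re]
  positivity

lemma hb_odd (Λ β m : ℝ) : hb Λ β (-m) = -hb Λ β m := by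
  unfold hb
  push_cast
  rw [neg_sq]
  ring

/-- the good points of the path for the value `β` of the angle -/
def Good (β s : ℝ) : Prop := 1 / 3 < |Real.cos s| ∧ al s = β

lemma seg (hΛ : 0 < Λ) (r : ℝ) {β a b : ℝ} (h : ∀ σ ∈ uIcc a b, Good β σ) :
    ∫ σ in a..b, gg Λ r σ = ∫ m in (mu r a)..(mu r b), hb Λ β m := by
  rw [← intervalIntegral.integral_deriv_smul_comp (f := mu r) (f' := dmu r) (g := hb Λ β)
    (fun x _ => mu_deriv r x) (dmu_continuous r).continuousOn (hb_continuous hΛ β)]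
  refine intervalIntegral.integral_congr fun σ hσ => ?_
  obtain ⟨h1, h2⟩ := h σ hσ
  simp only [Function.comp_apply, Complex.real_smul]
  unfold gg dF hb FF
  rw [dal_eq_zero h1, h2]
  push_cast
  ring

/-- the primitive in the variable `m` -/
noncomputable def PP (Λ β r m : ℝ) : ℂ := ∫ x in m..r, hb Λ β x

lemma PP_continuous (hΛ : 0 < Λ) (β r : ℝ) : Continuous (PP Λ β r) := by
  rw [continuous_iff_continuousAt]
  intro m
  exact (intervalIntegral.integral_hasDerivAt_left ((hb_continuous hΛ β).intervalIntegrable _ _)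
    ((hb_continuous hΛ β).stronglyMeasurableAtFilter _ _)
    (hb_continuous hΛ β).continuousAt).continuousAt

lemma PP_sub (hΛ : 0 < Λ) (β r a b : ℝ) :
    PP Λ β r a - PP Λ β r b = ∫ x in a..b, hb Λ β x := by
  have hi : ∀ a b, IntervalIntegrable (hb Λ β) volume a b := fun a b =>
    (hb_continuous hΛ β).intervalIntegrable a b
  unfold PP
  rw [← intervalIntegral.integral_add_adjacent_intervals (hi a b) (hi b r)]
  ring

lemma PP_self (Λ β r : ℝ) : PP Λ β r r = 0 := by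
  unfold PP
  rw [intervalIntegral.integral_same]

lemma int_hb_symm (Λ β m : ℝ) : ∫ x in (-m)..m, hb Λ β x = 0 := by
  have h1 : ∫ x in (-m)..m, hb Λ β (-x) = ∫ x in (-m)..m, hb Λ β x := by
    rw [intervalIntegral.integral_comp_neg, neg_neg]
  simp only [hb_odd] at h1
  rw [intervalIntegral.integral_neg] at h1
  have h2 : (2 : ℂ) * ∫ x in (-m)..m, hb Λ β x = 0 := by linear_combination -h1
  simpa using h2

lemma PP_neg (hΛ : 0 < Λ) (β r m : ℝ) : PP Λ β r (-m) = PP Λ β r m := by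
  have h := PP_sub hΛ β r (-m) m
  rw [int_hb_symm] at h
  exact sub_eq_zero.1 h

lemma PP_neg_self (hΛ : 0 < Λ) (β r : ℝ) : PP Λ β r (-r) = 0 := by
  rw [PP_neg hΛ, PP_self]

lemma GG_sub (hΛ : 0 < Λ) (r a b : ℝ) :
    GG Λ r b - GG Λ r a = ∫ σ in a..b, gg Λ r σ := by
  have hi : ∀ a b, IntervalIntegrable (gg Λ r) volume a b := fun a b =>
    (gg_continuous hΛ r).intervalIntegrable a b
  unfold GG
  rw [← intervalIntegral.integral_add_adjacent_intervals (hi (Real.pi / 3) a) (hi a b)]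
  ring

lemma GG_seg (hΛ : 0 < Λ) (r : ℝ) {β a b : ℝ} (h : ∀ σ ∈ uIcc a b, Good β σ) :
    ∀ s ∈ uIcc a b, GG Λ r s = (GG Λ r a + PP Λ β r (mu r a)) - PP Λ β r (mu r s) := by
  intro s hs
  have h1 := GG_sub hΛ r a s
  rw [seg hΛ r (β := β) (fun σ hσ => h σ (uIcc_subset_uIcc_left hs hσ)),
    ← PP_sub hΛ β r] at h1
  linear_combination h1

/-- the integral over a piece -/
lemma piece (hΛ : 0 < Λ) {r : ℝ} (hr : r ≠ 0) {β a b : ℝ} (h : ∀ σ ∈ uIcc a b, Good β σ) :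
    ∫ s in a..b, A0 r s * GG Λ r s =
      -∫ m in (mu r a)..(mu r b), VV m * ((GG Λ r a + PP Λ β r (mu r a)) - PP Λ β r m) := by
  set K := GG Λ r a + PP Λ β r (mu r a) with hK
  have hc : Continuous fun m : ℝ => -(VV m * (K - PP Λ β r m)) :=
    (VV_continuous.mul (continuous_const.sub (PP_continuous hΛ β r))).neg
  rw [← intervalIntegral.integral_neg,
    ← intervalIntegral.integral_deriv_smul_comp (f := mu r) (f' := dmu r)
    (g := fun m => -(VV m * (K - PP Λ β r m)))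
    (fun x _ => mu_deriv r x) (dmu_continuous r).continuousOn hc]
  refine intervalIntegral.integral_congr fun σ hσ => ?_
  simp only [Function.comp_apply, Complex.real_smul]
  rw [A0_eq hr (h σ hσ).1, GG_seg hΛ r h σ hσ]
  ring

/-! ### the points -/

lemma cos_ge_half {x : ℝ} (h1 : -(Real.pi / 3) ≤ x) (h2 : x ≤ Real.pi / 3) :
    1 / 2 ≤ Real.cos x := by
  rw [← Real.cos_abs x, ← Real.cos_pi_div_three]
  apply Real.cos_le_cos_of_nonneg_of_le_pi (abs_nonneg x)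
  · linarith [Real.pi_pos]
  · exact abs_le.2 ⟨h1, h2⟩

lemma sin_gt_half {x : ℝ} (h1 : Real.pi / 3 ≤ x) (h2 : x ≤ 2 * Real.pi / 3) :
    1 / 2 < Real.sin x := by
  have hpi := Real.pi_pos
  have e : Real.sin x = Real.cos (x - Real.pi / 2) := (Real.cos_sub_pi_div_two x).symm
  rw [e, ← Real.cos_abs]
  have h3 : |x - Real.pi / 2| ≤ Real.pi / 6 := abs_le.2 ⟨by linarith, by linarith⟩
  have h4 : Real.cos (Real.pi / 6) ≤ Real.cos |x - Real.pi / 2| :=
    Real.cos_le_cos_of_nonneg_of_le_pi (abs_nonneg _) (by linarith) h3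
  rw [Real.cos_pi_div_six] at h4
  have h5 : 1 < Real.sqrt 3 := by
    rw [Real.lt_sqrt (by norm_num)]
    norm_num
  linarith

lemma good_A {s : ℝ} (h1 : -(Real.pi / 3) ≤ s) (h2 : s ≤ Real.pi / 3) : Good 0 s := by
  have h := cos_ge_half h1 h2
  refine ⟨?_, al_of_ge (by linarith)⟩
  rw [abs_of_pos (by linarith)]
  linarith

lemma good_B {s : ℝ} (h1 : 2 * Real.pi / 3 ≤ s) (h2 : s ≤ 4 * Real.pi / 3) :
    Good (2 * Real.pi) s := by
  have h := cos_ge_half (x := s - Real.pi) (by linarith) (by linarith)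
  rw [Real.cos_sub_pi] at h
  refine ⟨?_, al_of_le (by linarith)⟩
  rw [abs_of_neg (by linarith)]
  linarith

lemma good_C {s : ℝ} (h1 : 5 * Real.pi / 3 ≤ s) (h2 : s ≤ 7 * Real.pi / 3) : Good 0 s := by
  have h := cos_ge_half (x := s - 2 * Real.pi) (by linarith) (by linarith)
  rw [Real.cos_sub_two_pi] at h
  refine ⟨?_, al_of_ge (by linarith)⟩
  rw [abs_of_pos (by linarith)]
  linarith

lemma sin_lt_neg_half {x : ℝ} (h1 : 4 * Real.pi / 3 ≤ x) (h2 : x ≤ 5 * Real.pi / 3) :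
    Real.sin x < -(1 / 2) := by
  have h := sin_gt_half (x := x - Real.pi) (by linarith) (by linarith)
  rw [Real.sin_sub_pi] at h
  linarith

lemma mu_13 (r : ℝ) : mu r (Real.pi / 3) = r :=
  mu_of_ge r (sin_gt_half le_rfl (by linarith [Real.pi_pos])).le

lemma mu_23 (r : ℝ) : mu r (2 * Real.pi / 3) = r :=
  mu_of_ge r (sin_gt_half (by linarith [Real.pi_pos]) le_rfl).le

lemma mu_43 (r : ℝ) : mu r (4 * Real.pi / 3) = -r :=
  mu_of_le r (sin_lt_neg_half le_rfl (by linarith [Real.pi_pos])).le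

lemma mu_53 (r : ℝ) : mu r (5 * Real.pi / 3) = -r :=
  mu_of_le r (sin_lt_neg_half (by linarith [Real.pi_pos]) le_rfl).le

lemma GG_13 (Λ r : ℝ) : GG Λ r (Real.pi / 3) = 0 := by
  unfold GG
  rw [intervalIntegral.integral_same]

lemma good_I1 : ∀ σ ∈ uIcc (0 : ℝ) (Real.pi / 3), Good 0 σ := by
  intro σ hσ
  have hpi := Real.pi_pos
  rw [uIcc_of_le (by positivity), mem_Icc] at hσ
  exact good_A (by linarith [hσ.1]) hσ.2

lemma good_I3 : ∀ σ ∈ uIcc (2 * Real.pi / 3) (4 * Real.pi / 3), Good (2 * Real.pi) σ := by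
  intro σ hσ
  have hpi := Real.pi_pos
  rw [uIcc_of_le (by linarith), mem_Icc] at hσ
  exact good_B hσ.1 hσ.2

lemma good_I5 : ∀ σ ∈ uIcc (5 * Real.pi / 3) (2 * Real.pi), Good 0 σ := by
  intro σ hσ
  have hpi := Real.pi_pos
  rw [uIcc_of_le (by linarith), mem_Icc] at hσ
  exact good_C hσ.1 (by linarith [hσ.2])

lemma GG_0 (hΛ : 0 < Λ) (r : ℝ) : GG Λ r 0 = -PP Λ 0 r 0 := by
  have h := GG_seg hΛ r good_I1 (Real.pi / 3) right_mem_uIcc
  rw [GG_13, mu_13, PP_self, mu_zero] at h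
  linear_combination -h

lemma GG_43 (hΛ : 0 < Λ) (r : ℝ) : GG Λ r (4 * Real.pi / 3) = GG Λ r (2 * Real.pi / 3) := by
  have h := GG_seg hΛ r good_I3 (4 * Real.pi / 3) right_mem_uIcc
  rw [mu_43, mu_23, PP_self, PP_neg_self hΛ] at h
  linear_combination h

lemma I1_eq (hΛ : 0 < Λ) {r : ℝ} (hr : r ≠ 0) :
    ∫ s in (0 : ℝ)..(Real.pi / 3), A0 r s * GG Λ r s = ∫ m in (0 : ℝ)..r, VV m * PP Λ 0 r m := by
  rw [piece hΛ hr good_I1, GG_0 hΛ, mu_zero, mu_13, ← intervalIntegral.integral_neg]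
  refine intervalIntegral.integral_congr fun m _ => ?_
  ring

lemma I3_eq (hΛ : 0 < Λ) {r : ℝ} (hr : r ≠ 0) :
    ∫ s in (2 * Real.pi / 3)..(4 * Real.pi / 3), A0 r s * GG Λ r s =
      ∫ m in (-r)..r, VV m * (GG Λ r (2 * Real.pi / 3) - PP Λ (2 * Real.pi) r m) := by
  rw [piece hΛ hr good_I3, mu_23, mu_43, PP_self, add_zero, ← intervalIntegral.integral_symm]

lemma I5_eq (hΛ : 0 < Λ) {r : ℝ} (hr : r ≠ 0) :
    ∫ s in (5 * Real.pi / 3)..(2 * Real.pi), A0 r s * GG Λ r s =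
      ∫ m in (-r)..0, VV m * (PP Λ 0 r m - GG Λ r (5 * Real.pi / 3)) := by
  rw [piece hΛ hr good_I5, mu_53, mu_two_pi, PP_neg_self hΛ, add_zero,
    ← intervalIntegral.integral_neg]
  refine intervalIntegral.integral_congr fun m _ => ?_
  ring

end Pool.Agent.Helper12.K3
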