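import Mathlib
import Pool.Agent.Helper12.K3.Est3

/-!
Estimates of the five pieces.
-/

namespace Pool.Agent.Helper12.K3

open Complex Set Filter Topology MeasureTheory Pool.Agent.Helper11

variable {Λ : ℝ}

lemma hb0_real (hΛ : 0 < Λ) (m : ℝ) : ∃ h : ℝ, 0 < h ∧ hb Λ 0 m = ((2 * m * h : ℝ) : ℂ) := by
  have hx : 0 < Λ + m ^ 2 := by positivity
  obtain ⟨h1, h2⟩ := hF_real hx
  refine ⟨(hF ((Λ + m ^ 2 : ℝ) : ℂ)).re, h2, ?_⟩
  have h3 : hF ((Λ + m ^ 2 : ℝ) : ℂ) = (((hF ((Λ + m ^ 2 : ℝ) : ℂ)).re : ℝ) : ℂ) := by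
    apply Complex.ext
    · simp
    · rw [h1]
      simp
  unfold hb
  have h4 : (Λ : ℂ) + (m : ℂ) ^ 2 - ((0 : ℝ) : ℂ) * I = ((Λ + m ^ 2 : ℝ) : ℂ) := by
    push_cast
    ring
  rw [h4]
  conv_lhs => rw [h3]
  push_cast
  ring

lemma hb2_re (hΛ : 0 < Λ) {m : ℝ} (hm : 0 ≤ m) : (hb Λ (2 * Real.pi) m).re ≤ 0 := by
  have hx : 0 < Λ + m ^ 2 := by positivity
  have h1 := hF_shift hx
  have h4 : (Λ : ℂ) + (m : ℂ) ^ 2 - ((2 * Real.pi : ℝ) : ℂ) * I =
      ((Λ + m ^ 2 : ℝ) : ℂ) - 2 * Real.pi * I := by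
    push_cast
    ring
  unfold hb
  rw [h4]
  have h5 : (2 : ℂ) * (m : ℂ) = ((2 * m : ℝ) : ℂ) := by push_cast; ring
  rw [h5, Complex.re_ofReal_mul]
  nlinarith

lemma PP_re (hΛ : 0 < Λ) (β r m : ℝ) : (PP Λ β r m).re = ∫ x in m..r, (hb Λ β x).re :=
  (Complex.reCLM.intervalIntegral_comp_comm
    ((hb_continuous hΛ β).intervalIntegrable _ _)).symm

lemma PP0_im (hΛ : 0 < Λ) (r m : ℝ) : (PP Λ 0 r m).im = 0 := by
  have h1 : (PP Λ 0 r m).im = ∫ x in m..r, (hb Λ 0 x).im :=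
    (Complex.imCLM.intervalIntegral_comp_comm
      ((hb_continuous hΛ 0).intervalIntegrable _ _)).symm
  rw [h1]
  have h2 : ∀ x : ℝ, (hb Λ 0 x).im = 0 := by
    intro x
    obtain ⟨h, -, e⟩ := hb0_real hΛ x
    rw [e, Complex.ofReal_im]
  simp only [h2]
  simp

lemma PP_abs (hΛ : 0 < Λ) (β r m : ℝ) : PP Λ β r m = PP Λ β r |m| := by
  rcases abs_choice m with h | h
  · rw [h]
  · rw [h, PP_neg hΛ]

lemma hb0_re_nonneg (hΛ : 0 < Λ) {m : ℝ} (hm : 0 ≤ m) : 0 ≤ (hb Λ 0 m).re := by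
  obtain ⟨h, h0, e⟩ := hb0_real hΛ m
  rw [e, Complex.ofReal_re]
  positivity

lemma cre (hΛ : 0 < Λ) (β : ℝ) : Continuous fun x => (hb Λ β x).re :=
  Complex.continuous_re.comp (hb_continuous hΛ β)

lemma PP0_nonneg (hΛ : 0 < Λ) {r m : ℝ} (hm : |m| ≤ r) : 0 ≤ (PP Λ 0 r m).re := by
  rw [PP_abs hΛ, PP_re hΛ]
  refine intervalIntegral.integral_nonneg hm fun x hx => hb0_re_nonneg hΛ ?_
  exact (abs_nonneg m).trans hx.1

lemma PP2_nonpos (hΛ : 0 < Λ) {r m : ℝ} (hm : |m| ≤ r) : (PP Λ (2 * Real.pi) r m).re ≤ 0 := by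
  rw [PP_abs hΛ, PP_re hΛ]
  have h : 0 ≤ ∫ x in |m|..r, -(hb Λ (2 * Real.pi) x).re := by
    refine intervalIntegral.integral_nonneg hm fun x hx => ?_
    have := hb2_re hΛ ((abs_nonneg m).trans hx.1)
    linarith
  rw [intervalIntegral.integral_neg] at h
  linarith

/-- the constant -/
noncomputable def ch (Λ : ℝ) : ℝ := ∫ x in (1 : ℝ)..2, (hb Λ 0 x).re

lemma ch_pos (hΛ : 0 < Λ) : 0 < ch Λ := by
  refine intervalIntegral.intervalIntegral_pos_of_pos_on ((cre hΛ 0).intervalIntegrable _ _)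
    (fun x hx => ?_) (by norm_num)
  obtain ⟨h, h0, e⟩ := hb0_real hΛ x
  have : 0 < x := by linarith [hx.1]
  rw [e, Complex.ofReal_re]
  positivity

lemma PP0_lower (hΛ : 0 < Λ) {r m : ℝ} (hr : 2 ≤ r) (h0 : 0 ≤ m) (h1 : m ≤ 1) :
    ch Λ ≤ (PP Λ 0 r m).re := by
  have hi : ∀ a b, IntervalIntegrable (fun x => (hb Λ 0 x).re) volume a b := fun a b =>
    (cre hΛ 0).intervalIntegrable a b
  rw [PP_re hΛ, ← intervalIntegral.integral_add_adjacent_intervals (hi m 1) (hi 1 r),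
    ← intervalIntegral.integral_add_adjacent_intervals (hi 1 2) (hi 2 r)]
  have e1 : 0 ≤ ∫ x in m..1, (hb Λ 0 x).re :=
    intervalIntegral.integral_nonneg h1 fun x hx => hb0_re_nonneg hΛ (h0.trans hx.1)
  have e2 : 0 ≤ ∫ x in (2 : ℝ)..r, (hb Λ 0 x).re :=
    intervalIntegral.integral_nonneg hr fun x hx => hb0_re_nonneg hΛ (by linarith [hx.1])
  unfold ch
  linarith

lemma re_intg {f : ℝ → ℂ} (hf : Continuous f) (a b : ℝ) :
    (∫ x in a..b, f x).re = ∫ x in a..b, (f x).re :=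
  (Complex.reCLM.intervalIntegral_comp_comm (hf.intervalIntegrable _ _)).symm

lemma I1_re (hΛ : 0 < Λ) {r : ℝ} (hr : 2 ≤ r) :
    2 * ch Λ ≤ (∫ m in (0 : ℝ)..r, VV m * PP Λ 0 r m).re := by
  have hc : Continuous fun m => VV m * PP Λ 0 r m := VV_continuous.mul (PP_continuous hΛ 0 r)
  have hc' : Continuous fun m => (VV m * PP Λ 0 r m).re := Complex.continuous_re.comp hc
  have hi : ∀ a b, IntervalIntegrable (fun m => (VV m * PP Λ 0 r m).re) volume a b := fun a b =>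
    hc'.intervalIntegrable a b
  have hch := ch_pos hΛ
  rw [re_intg hc, ← intervalIntegral.integral_add_adjacent_intervals (hi 0 1) (hi 1 r)]
  have e1 : 0 ≤ ∫ m in (1 : ℝ)..r, (VV m * PP Λ 0 r m).re := by
    refine intervalIntegral.integral_nonneg (by linarith) fun m hm => ?_
    obtain ⟨v, hv, -, e⟩ := VV_real m
    rw [e, Complex.re_ofReal_mul]
    have h0 : 0 ≤ m := by linarith [hm.1]
    have := PP0_nonneg hΛ (r := r) (m := m) (by rw [abs_of_nonneg h0]; exact hm.2)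
    positivity
  have e2 : ∫ _m in (0 : ℝ)..1, 2 * ch Λ ≤ ∫ m in (0 : ℝ)..1, (VV m * PP Λ 0 r m).re := by
    refine intervalIntegral.integral_mono_on (by norm_num) (by simp) (hi 0 1) fun m hm => ?_
    obtain ⟨v, hv, -, e⟩ := VV_real m
    rw [e, Complex.re_ofReal_mul]
    have := PP0_lower hΛ hr hm.1 hm.2
    nlinarith
  rw [intervalIntegral.integral_const, sub_zero, one_smul] at e2
  linarith

lemma I3_re (hΛ : 0 < Λ) {r : ℝ} (hr : 0 ≤ r) (G : ℂ) :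
    -(‖G‖ * (2 * (1 + r)) * (2 * r)) ≤
      (∫ m in (-r)..r, VV m * (G - PP Λ (2 * Real.pi) r m)).re := by
  have hc : Continuous fun m => VV m * (G - PP Λ (2 * Real.pi) r m) :=
    VV_continuous.mul (continuous_const.sub (PP_continuous hΛ _ r))
  have hc' : Continuous fun m => (VV m * (G - PP Λ (2 * Real.pi) r m)).re :=
    Complex.continuous_re.comp hc
  rw [re_intg hc]
  have e2 : ∫ _m in (-r)..r, -(‖G‖ * (2 * (1 + r))) ≤
      ∫ m in (-r)..r, (VV m * (G - PP Λ (2 * Real.pi) r m)).re := by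
    refine intervalIntegral.integral_mono_on (by linarith) (by simp)
      (hc'.intervalIntegrable _ _) fun m hm => ?_
    obtain ⟨v, hv, hv2, e⟩ := VV_real m
    have hm' : |m| ≤ r := abs_le.2 ⟨hm.1, hm.2⟩
    rw [e, Complex.re_ofReal_mul, Complex.sub_re]
    have h1 := PP2_nonpos hΛ hm'
    have h2 : -‖G‖ ≤ G.re := by
      have := Complex.abs_re_le_norm G
      exact (abs_le.1 this).1
    have h3 : -‖G‖ ≤ G.re - (PP Λ (2 * Real.pi) r m).re := by linarith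
    have h4 : v * -‖G‖ ≤ v * (G.re - (PP Λ (2 * Real.pi) r m).re) :=
      mul_le_mul_of_nonneg_left h3 (by linarith)
    have h5 : v * ‖G‖ ≤ 2 * (1 + r) * ‖G‖ :=
      mul_le_mul_of_nonneg_right (by linarith) (norm_nonneg G)
    linarith
  rw [intervalIntegral.integral_const, smul_eq_mul] at e2
  linarith

lemma I5_re (hΛ : 0 < Λ) {r : ℝ} (hr : 0 ≤ r) (G : ℂ) :
    -(‖G‖ * (2 * (1 + r)) * r) ≤ (∫ m in (-r)..0, VV m * (PP Λ 0 r m - G)).re := by
  have hc : Continuous fun m => VV m * (PP Λ 0 r m - G) :=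
    VV_continuous.mul ((PP_continuous hΛ _ r).sub continuous_const)
  have hc' : Continuous fun m => (VV m * (PP Λ 0 r m - G)).re :=
    Complex.continuous_re.comp hc
  rw [re_intg hc]
  have e2 : ∫ _m in (-r)..0, -(‖G‖ * (2 * (1 + r))) ≤
      ∫ m in (-r)..0, (VV m * (PP Λ 0 r m - G)).re := by
    refine intervalIntegral.integral_mono_on (by linarith) (by simp)
      (hc'.intervalIntegrable _ _) fun m hm => ?_
    obtain ⟨v, hv, hv2, e⟩ := VV_real m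
    have hm' : |m| ≤ r := abs_le.2 ⟨hm.1, hm.2.trans hr⟩
    rw [e, Complex.re_ofReal_mul, Complex.sub_re]
    have h1 := PP0_nonneg hΛ hm'
    have h2 : G.re ≤ ‖G‖ := Complex.re_le_norm G
    have h3 : -‖G‖ ≤ (PP Λ 0 r m).re - G.re := by linarith
    have h4 : v * -‖G‖ ≤ v * ((PP Λ 0 r m).re - G.re) :=
      mul_le_mul_of_nonneg_left h3 (by linarith)
    have h5 : v * ‖G‖ ≤ 2 * (1 + r) * ‖G‖ :=
      mul_le_mul_of_nonneg_right (by linarith) (norm_nonneg G)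
    linarith
  rw [intervalIntegral.integral_const, smul_eq_mul] at e2
  linarith

/-! ### the circles -/

/-- the bound for `h` on the circles -/
noncomputable def eta (Λ r : ℝ) : ℝ :=
  4 * Real.pi * (Real.exp (-(Λ + r ^ 2) / 2) * ((1 + 2 * Real.pi) * (1 + (Λ + r ^ 2))))

lemma eta_nonneg (hΛ : 0 < Λ) (r : ℝ) : 0 ≤ eta Λ r := by
  unfold eta
  have := Real.pi_pos
  positivity

lemma mu_sq_circle (r : ℝ) {s : ℝ} (h : 1 / 2 < |Real.sin s|) : mu r s ^ 2 = r ^ 2 := by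
  rcases lt_abs.1 h with h1 | h1
  · rw [mu_of_ge r h1.le]
  · rw [mu_of_le r (by linarith)]
    ring

lemma hF_circle (hΛ : 0 < Λ) {r : ℝ} (hr : 1 ≤ r) {s : ℝ} (h : 1 / 2 < |Real.sin s|) :
    ‖hF (FF Λ r s)‖ ≤ eta Λ r := by
  have h1 := norm_hF_le (FF_re_pos hΛ r s)
  have hre : (FF Λ r s).re = Λ + r ^ 2 := by rw [FF_re, mu_sq_circle r h]
  rw [hre] at h1
  refine h1.trans ?_
  unfold eta
  have hpi := Real.pi_pos
  have hN : 1 ≤ Λ + r ^ 2 := by nlinarith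
  have hn : ‖FF Λ r s‖ ≤ (Λ + r ^ 2) + 2 * Real.pi := by
    have e : FF Λ r s = ((Λ + mu r s ^ 2 : ℝ) : ℂ) + ((-(al s) : ℝ) : ℂ) * I := by
      unfold FF
      push_cast
      ring
    rw [e, mu_sq_circle r h]
    refine (norm_add_le _ _).trans ?_
    rw [norm_mul, Complex.norm_I, mul_one, Complex.norm_real, Complex.norm_real,
      Real.norm_of_nonneg (by positivity), norm_neg, Real.norm_of_nonneg (al_nonneg s)]
    linarith [al_le s]
  have h2 : ‖FF Λ r s‖ * (1 + (Λ + r ^ 2)) / (Λ + r ^ 2) ≤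
      (1 + 2 * Real.pi) * (1 + (Λ + r ^ 2)) := by
    rw [div_le_iff₀ (by linarith)]
    have h3 : ‖FF Λ r s‖ ≤ (1 + 2 * Real.pi) * (Λ + r ^ 2) := by nlinarith
    nlinarith
  gcongr

lemma gg_circle (hΛ : 0 < Λ) {r B : ℝ} (hr : 1 ≤ r) {s : ℝ} (h : 1 / 2 < |Real.sin s|)
    (hB : |dal s| ≤ B) : ‖gg Λ r s‖ ≤ B * eta Λ r := by
  unfold gg dF
  rw [dmu_eq_zero r h, Complex.ofReal_zero, mul_zero, zero_sub, norm_mul, norm_neg, norm_mul,
    Complex.norm_I, mul_one, Complex.norm_real, Real.norm_eq_abs]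
  exact mul_le_mul hB (hF_circle hΛ hr h) (norm_nonneg _) ((abs_nonneg _).trans hB)

lemma X_norm {r : ℝ} (hr : 1 ≤ r) {s : ℝ} (h : 1 / 2 < |Real.sin s|) : 1 / 2 ≤ ‖X r s‖ := by
  have h1 := X_sq (by linarith : r ≠ 0) s
  have h2 : ‖X r s‖ ^ 2 = ‖1 - exp (-(mu r s : ℂ) ^ 2 + al s * I)‖ := by
    rw [← norm_pow, h1]
  have h3 := norm_sub_norm_le (1 : ℂ) (exp (-(mu r s : ℂ) ^ 2 + al s * I))
  have e : -(mu r s : ℂ) ^ 2 + al s * I = ((-(mu r s ^ 2) : ℝ) : ℂ) + ((al s : ℝ) : ℂ) * I := by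
    push_cast
    ring
  rw [norm_one, Complex.norm_exp] at h3
  have e2 : (-(mu r s : ℂ) ^ 2 + al s * I).re = -(r ^ 2) := by
    rw [e, Complex.add_re, Complex.ofReal_re, Complex.re_ofReal_mul, Complex.I_re, mul_zero,
      add_zero, mu_sq_circle r h]
  rw [e2] at h3
  have h4 : Real.exp (-(r ^ 2)) ≤ 1 / 2 := by
    rw [Real.exp_neg, ← one_div]
    apply one_div_le_one_div_of_le (by norm_num)
    have := Real.add_one_le_exp (r ^ 2)
    nlinarith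
  have h5 : 1 / 2 ≤ ‖X r s‖ ^ 2 := by
    rw [h2]
    linarith
  nlinarith [norm_nonneg (X r s)]

lemma A0_norm {r B : ℝ} (hr : 1 ≤ r) {s : ℝ} (h : 1 / 2 < |Real.sin s|)
    (hB : |dal s| ≤ B) : ‖A0 r s‖ ≤ 2 * B := by
  have h1 := A0_circle (by linarith : r ≠ 0) h
  have h2 := X_norm hr h
  have h3 : ‖X r s‖ * ‖A0 r s‖ = |dal s| := by
    rw [← norm_mul, h1, norm_mul, Complex.norm_I, mul_one, Complex.norm_real, Real.norm_eq_abs]
  have h4 : 1 / 2 * ‖A0 r s‖ ≤ ‖X r s‖ * ‖A0 r s‖ :=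
    mul_le_mul_of_nonneg_right h2 (norm_nonneg _)
  linarith

end Pool.Agent.Helper12.K3
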