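import Mathlib
import Pool.Agent.Helper12.K3.Est4

/-!
The sign of the regulator.
-/

namespace Pool.Agent.Helper12.K3

open Complex Set Filter Topology MeasureTheory Pool.Agent.Helper11

variable {Λ : ℝ}

lemma circle1 {s : ℝ} (h1 : Real.pi / 3 ≤ s) (h2 : s ≤ 2 * Real.pi / 3) :
    1 / 2 < |Real.sin s| :=
  lt_abs.2 (Or.inl (sin_gt_half h1 h2))

lemma circle2 {s : ℝ} (h1 : 4 * Real.pi / 3 ≤ s) (h2 : s ≤ 5 * Real.pi / 3) :
    1 / 2 < |Real.sin s| := by
  have := sin_lt_neg_half h1 h2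
  exact lt_abs.2 (Or.inr (by linarith))

section

variable (hΛ : 0 < Λ) {r B : ℝ} (hr : 2 ≤ r)
  (hB : ∀ s, 0 ≤ s → s ≤ 2 * Real.pi → |dal s| ≤ B)

include hΛ hr hB

omit hΛ hr in
lemma B_nonneg : 0 ≤ B :=
  (abs_nonneg _).trans (hB 0 le_rfl (by positivity))

lemma GG_C1 {s : ℝ} (h1 : Real.pi / 3 ≤ s) (h2 : s ≤ 2 * Real.pi / 3) :
    ‖GG Λ r s‖ ≤ B * eta Λ r * (Real.pi / 3) := by
  have hpi := Real.pi_pos
  unfold GG
  have h := intervalIntegral.norm_integral_le_of_norm_le_const (a := Real.pi / 3) (b := s)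
    (f := gg Λ r) (C := B * eta Λ r) (fun x hx => by
      rw [uIoc_of_le h1, mem_Ioc] at hx
      exact gg_circle hΛ (by linarith) (circle1 hx.1.le (hx.2.trans h2))
        (hB x (by linarith [hx.1]) (by linarith [hx.2])))
  refine h.trans ?_
  rw [abs_of_nonneg (by linarith)]
  exact mul_le_mul_of_nonneg_left (by linarith)
    (mul_nonneg (B_nonneg hB) (eta_nonneg hΛ r))

lemma GG_C2 {s : ℝ} (h1 : 4 * Real.pi / 3 ≤ s) (h2 : s ≤ 5 * Real.pi / 3) :
    ‖GG Λ r s‖ ≤ 2 * (B * eta Λ r * (Real.pi / 3)) := by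
  have hpi := Real.pi_pos
  have e := GG_sub hΛ r (4 * Real.pi / 3) s
  have h := intervalIntegral.norm_integral_le_of_norm_le_const (a := 4 * Real.pi / 3) (b := s)
    (f := gg Λ r) (C := B * eta Λ r) (fun x hx => by
      rw [uIoc_of_le h1, mem_Ioc] at hx
      exact gg_circle hΛ (by linarith) (circle2 hx.1.le (hx.2.trans h2))
        (hB x (by linarith [hx.1]) (by linarith [hx.2])))
  rw [← e, abs_of_nonneg (by linarith)] at h
  have h3 := GG_C1 hΛ hr hB (s := 2 * Real.pi / 3) (by linarith) le_rfl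
  rw [← GG_43 hΛ] at h3
  have h4 : ‖GG Λ r s‖ ≤ ‖GG Λ r (4 * Real.pi / 3)‖ +
      ‖GG Λ r s - GG Λ r (4 * Real.pi / 3)‖ := by
    have := norm_add_le (GG Λ r (4 * Real.pi / 3)) (GG Λ r s - GG Λ r (4 * Real.pi / 3))
    rwa [add_sub_cancel] at this
  have h5 : B * eta Λ r * (s - 4 * Real.pi / 3) ≤ B * eta Λ r * (Real.pi / 3) :=
    mul_le_mul_of_nonneg_left (by linarith)
      (mul_nonneg (B_nonneg hB) (eta_nonneg hΛ r))
  linarith

lemma I2_norm : ‖∫ s in (Real.pi / 3)..(2 * Real.pi / 3), A0 r s * GG Λ r s‖ ≤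
    2 * B * (B * eta Λ r * (Real.pi / 3)) * (Real.pi / 3) := by
  have hpi := Real.pi_pos
  have hB0 := B_nonneg hB
  have h := intervalIntegral.norm_integral_le_of_norm_le_const (a := Real.pi / 3)
    (b := 2 * Real.pi / 3) (f := fun s => A0 r s * GG Λ r s)
    (C := 2 * B * (B * eta Λ r * (Real.pi / 3))) (fun x hx => by
      rw [uIoc_of_le (by linarith), mem_Ioc] at hx
      rw [norm_mul]
      exact mul_le_mul (A0_norm (by linarith) (circle1 hx.1.le hx.2)
        (hB x (by linarith [hx.1]) (by linarith [hx.2])))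
        (GG_C1 hΛ hr hB hx.1.le hx.2) (norm_nonneg _) (by positivity))
  rw [abs_of_nonneg (by linarith)] at h
  have e : 2 * Real.pi / 3 - Real.pi / 3 = Real.pi / 3 := by ring
  rwa [e] at h

lemma I4_norm : ‖∫ s in (4 * Real.pi / 3)..(5 * Real.pi / 3), A0 r s * GG Λ r s‖ ≤
    2 * B * (2 * (B * eta Λ r * (Real.pi / 3))) * (Real.pi / 3) := by
  have hpi := Real.pi_pos
  have hB0 := B_nonneg hB
  have h := intervalIntegral.norm_integral_le_of_norm_le_const (a := 4 * Real.pi / 3)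
    (b := 5 * Real.pi / 3) (f := fun s => A0 r s * GG Λ r s)
    (C := 2 * B * (2 * (B * eta Λ r * (Real.pi / 3)))) (fun x hx => by
      rw [uIoc_of_le (by linarith), mem_Ioc] at hx
      rw [norm_mul]
      exact mul_le_mul (A0_norm (by linarith) (circle2 hx.1.le hx.2)
        (hB x (by linarith [hx.1]) (by linarith [hx.2])))
        (GG_C2 hΛ hr hB hx.1.le hx.2) (norm_nonneg _) (by positivity))
  rw [abs_of_nonneg (by linarith)] at h
  have e : 5 * Real.pi / 3 - 4 * Real.pi / 3 = Real.pi / 3 := by ring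
  rwa [e] at h

lemma T_ge : 2 * ch Λ - (B * eta Λ r * (Real.pi / 3)) * (2 * Real.pi * B + 8 * (r * (1 + r))) ≤
    (∫ s in (0 : ℝ)..(2 * Real.pi), A0 r s * GG Λ r s).re := by
  have hpi := Real.pi_pos
  have hr0 : r ≠ 0 := by linarith
  have hc : Continuous fun s => A0 r s * GG Λ r s :=
    (A0_continuous hr0).mul (GG_continuous hΛ r)
  have hi : ∀ a b, IntervalIntegrable (fun s => A0 r s * GG Λ r s) volume a b := fun a b =>
    hc.intervalIntegrable a b
  rw [← intervalIntegral.integral_add_adjacent_intervals (hi 0 (Real.pi / 3)) (hi _ _),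
    ← intervalIntegral.integral_add_adjacent_intervals (hi (Real.pi / 3) (2 * Real.pi / 3))
      (hi _ _),
    ← intervalIntegral.integral_add_adjacent_intervals (hi (2 * Real.pi / 3) (4 * Real.pi / 3))
      (hi _ _),
    ← intervalIntegral.integral_add_adjacent_intervals (hi (4 * Real.pi / 3) (5 * Real.pi / 3))
      (hi _ _)]
  simp only [Complex.add_re]
  rw [I1_eq hΛ hr0, I3_eq hΛ hr0, I5_eq hΛ hr0]
  have j1 := I1_re hΛ hr
  have j3 := I3_re hΛ (by linarith : (0 : ℝ) ≤ r) (GG Λ r (2 * Real.pi / 3))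
  have j5 := I5_re hΛ (by linarith : (0 : ℝ) ≤ r) (GG Λ r (5 * Real.pi / 3))
  have j2 := I2_norm hΛ hr hB
  have j4 := I4_norm hΛ hr hB
  have k2 := (abs_le.1 (Complex.abs_re_le_norm
    (∫ s in (Real.pi / 3)..(2 * Real.pi / 3), A0 r s * GG Λ r s))).1
  have k4 := (abs_le.1 (Complex.abs_re_le_norm
    (∫ s in (4 * Real.pi / 3)..(5 * Real.pi / 3), A0 r s * GG Λ r s))).1
  have g1 := GG_C1 hΛ hr hB (s := 2 * Real.pi / 3) (by linarith) le_rfl
  have g2 := GG_C2 hΛ hr hB (s := 5 * Real.pi / 3) (by linarith) le_rfl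
  set W := B * eta Λ r * (Real.pi / 3) with hW
  have g1' : ‖GG Λ r (2 * Real.pi / 3)‖ * (2 * (1 + r)) * (2 * r) ≤
      W * (2 * (1 + r)) * (2 * r) := by
    have : 0 ≤ 2 * (1 + r) := by linarith
    have : 0 ≤ 2 * r := by linarith
    gcongr
  have g2' : ‖GG Λ r (5 * Real.pi / 3)‖ * (2 * (1 + r)) * r ≤
      2 * W * (2 * (1 + r)) * r := by
    have : 0 ≤ 2 * (1 + r) := by linarith
    have : 0 ≤ r := by linarith
    gcongr
  nlinarith

end

lemma exists_B : ∃ B : ℝ, ∀ s, 0 ≤ s → s ≤ 2 * Real.pi → |dal s| ≤ B := by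
  obtain ⟨C, hC⟩ := (isCompact_Icc (a := (0 : ℝ)) (b := 2 * Real.pi)).exists_bound_of_continuousOn
    dal_continuous.continuousOn
  exact ⟨C, fun s h1 h2 => hC s ⟨h1, h2⟩⟩

lemma exp_bound {N : ℝ} (hN : 1 ≤ N) : Real.exp (-N / 2) * (1 + N) * (1 + N) ≤ 192 / N := by
  have h1 := Real.pow_div_factorial_le_exp (x := N / 2) (by linarith) 3
  have h2 : Real.exp (-N / 2) * Real.exp (N / 2) = 1 := by
    rw [← Real.exp_add]
    ring_nf
    simp
  have h3 : (N / 2) ^ 3 / (Nat.factorial 3 : ℝ) = N ^ 3 / 48 := by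
    norm_num [Nat.factorial]
    ring
  rw [h3] at h1
  have h4 : Real.exp (-N / 2) * (N ^ 3 / 48) ≤ 1 := by
    rw [← h2]
    exact mul_le_mul_of_nonneg_left h1 (Real.exp_pos _).le
  have h5 : Real.exp (-N / 2) ≤ 48 / N ^ 3 := by
    rw [le_div_iff₀ (by positivity)]
    linarith
  have h6 : Real.exp (-N / 2) * (1 + N) * (1 + N) ≤ 48 / N ^ 3 * (2 * N) * (2 * N) := by
    gcongr <;> linarith
  refine h6.trans (le_of_eq ?_)
  have : N ≠ 0 := by linarith
  field_simp
  ring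

/-- for a suitable radius the integral has positive real part -/
theorem exists_r (hΛ : 0 < Λ) : ∃ r : ℝ, 2 ≤ r ∧
    0 < (∫ s in (0 : ℝ)..(2 * Real.pi), A0 r s * GG Λ r s).re := by
  obtain ⟨B, hB⟩ := exists_B
  have hB0 : 0 ≤ B := (abs_nonneg _).trans (hB 0 le_rfl (by positivity))
  have hpi := Real.pi_pos
  have hch := ch_pos hΛ
  set K : ℝ := B * (4 * Real.pi * (1 + 2 * Real.pi)) * (Real.pi / 3) * (2 * Real.pi * B + 16)
    with hK
  have hK0 : 0 ≤ K := by positivity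
  set r : ℝ := 2 + 192 * K / ch Λ with hr
  have hr2 : 2 ≤ r := by
    have : 0 ≤ 192 * K / ch Λ := by positivity
    linarith
  refine ⟨r, hr2, ?_⟩
  have hT := T_ge hΛ hr2 hB
  set N : ℝ := Λ + r ^ 2 with hN
  have hN1 : 1 ≤ N := by nlinarith
  have h1 : 2 * Real.pi * B + 8 * (r * (1 + r)) ≤ (2 * Real.pi * B + 16) * (1 + N) := by
    have e1 : 0 ≤ 2 * Real.pi * B := by positivity
    have e2 : 8 * (r * (1 + r)) ≤ 16 * r ^ 2 := by nlinarith
    nlinarith
  have h2 : B * eta Λ r * (Real.pi / 3) * (2 * Real.pi * B + 8 * (r * (1 + r))) ≤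
      K * (Real.exp (-N / 2) * (1 + N) * (1 + N)) := by
    have e0 : 0 ≤ B * eta Λ r * (Real.pi / 3) := by
      have := eta_nonneg hΛ r
      positivity
    refine (mul_le_mul_of_nonneg_left h1 e0).trans (le_of_eq ?_)
    unfold eta
    rw [← hN, hK]
    ring
  have h3 := mul_le_mul_of_nonneg_left (exp_bound hN1) hK0
  have h4 : K * (192 / N) < 2 * ch Λ := by
    have e1 : 192 * K / ch Λ < N := by
      have : r ≤ r ^ 2 := by nlinarith
      linarith
    rw [div_lt_iff₀ hch] at e1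
    rw [← mul_div_assoc, div_lt_iff₀ (by linarith)]
    nlinarith
  linarith

end Pool.Agent.Helper12.K3
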