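import Mathlib
import Pool.Agent.Helper12.K3.Est5
import Pool.Agent.Helper11.GridMain

/-!
The theorem on K3 surfaces.
-/

namespace Pool.Agent.Helper12.K3

open Complex Set Filter Topology MeasureTheory Pool.Agent.Helper11

variable {Λ : ℝ}

/-- the regulator over the torus does not vanish -/
theorem exists_torus (hΛ : 0 < Λ) : ∃ r : ℝ, r ≠ 0 ∧
    regTorus (tri (U0 r) (U1 Λ r) (U2 Λ r)) ≠ 0 := by
  obtain ⟨r, hr2, hr⟩ := exists_r hΛ
  have hr0 : r ≠ 0 := by linarith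
  refine ⟨r, hr0, ?_⟩
  have hG0 : (GG Λ r 0).im = 0 := by
    rw [GG_0 hΛ, Complex.neg_im, PP0_im hΛ, neg_zero]
  rw [reg1 hΛ hr0 hG0]
  intro h
  linarith

/-- the coordinates `X`, `Y`, `Z` -/
noncomputable def co (Λ r : ℝ) : Fin 3 → (Fin 2 → ℝ) → ℂ :=
  ![fun θ => X r (θ 0), fun θ => YY Λ r (θ 0) (θ 1), fun θ => ZZ Λ r (θ 0) (θ 1)]

lemma co_smooth (hΛ : 0 < Λ) (r : ℝ) : ∀ m, ContDiff ℝ 2 (co Λ r m) := by
  intro m
  fin_cases m
  · exact smX r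
  · exact smY hΛ r
  · exact smZ hΛ r

lemma co_per (Λ r : ℝ) (m : Fin 3) (l : Fin 2) (θ : Fin 2 → ℝ) :
    co Λ r m (θ + Pi.single l (2 * Real.pi)) = co Λ r m θ := by
  fin_cases m
  · exact perX r l θ
  · exact perY Λ r l θ
  · exact perZ Λ r l θ

lemma co_ne {r : ℝ} (hr : r ≠ 0) (Λ : ℝ) (m : Fin 3) (θ : Fin 2 → ℝ) :
    1 - co Λ r m θ ^ 2 ≠ 0 := by
  fin_cases m
  · exact X_ne hr _
  · exact YY_ne Λ r _ _
  · exact ZZ_ne Λ r _ _

lemma tri_eq (Λ r : ℝ) (m : Fin 3) :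
    tri (U0 r) (U1 Λ r) (U2 Λ r) m = fun θ => qq (co Λ r m θ) := by
  fin_cases m <;> rfl

lemma co_prod {r : ℝ} (hr : r ≠ 0) (Λ : ℝ) (θ : Fin 2 → ℝ) :
    ∏ m, (1 - co Λ r m θ ^ 2) = exp (Λ : ℂ) := by
  rw [Fin.prod_univ_three]
  exact prod_eq hr Λ (θ 0) (θ 1)

/-- the coordinate `x = (1 + X) / 2` as an element of the ring of the torus -/
noncomputable def xs (hΛ : 0 < Λ) (r : ℝ) (m : Fin 3) : TorusRing 2 :=
  ⟨fun θ => (1 + co Λ r m θ) * (1 / 2), (contDiff_const.add (co_smooth hΛ r m)).mul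
    contDiff_const, fun l θ =>
      congrArg (fun z : ℂ => (1 + z) * (1 / 2)) (co_per Λ r m l θ)⟩

lemma xs_apply (hΛ : 0 < Λ) (r : ℝ) (m : Fin 3) (θ : Fin 2 → ℝ) :
    ((xs hΛ r m : TorusRing 2) : (Fin 2 → ℝ) → ℂ) θ = (1 + co Λ r m θ) * (1 / 2) := rfl

lemma int_apply (k : ℤ) : (((k : TorusRing 2) : TorusRing 2) : (Fin 2 → ℝ) → ℂ) =
    fun _ => (k : ℂ) := by
  rw [SubringClass.coe_intCast]
  rfl

/-- the surface `c x(x-1) y(y-1) z(z-1) = 1` -/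
abbrev KRing (c : ℤ) : Type := GridRing (n := 2) (fun _ => 1) (fun _ => ![0, 1]) c

lemma rel (hΛ : 0 < Λ) {r : ℝ} (hr : r ≠ 0) {c : ℤ} (hc : (c : ℝ) * Real.exp Λ = -64) :
    (c : TorusRing 2) * ∏ m : Fin 3, ∏ i : Fin 2,
      (xs hΛ r m - (((![0, 1] : Fin 2 → ℤ) i : ℤ) : TorusRing 2)) = 1 := by
  apply Subtype.ext
  funext θ
  have e1 : (((c : TorusRing 2) * ∏ m : Fin 3, ∏ i : Fin 2,
      (xs hΛ r m - (((![0, 1] : Fin 2 → ℤ) i : ℤ) : TorusRing 2)) : TorusRing 2) :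
      (Fin 2 → ℝ) → ℂ) θ = (c : ℂ) * ∏ m : Fin 3, ∏ i : Fin 2,
        ((1 + co Λ r m θ) * (1 / 2) - (((![0, 1] : Fin 2 → ℤ) i : ℤ) : ℂ)) := by
    rw [Subring.coe_mul, Pi.mul_apply, int_apply]
    congr 1
  rw [e1]
  have e2 : ∀ m : Fin 3, ∏ i : Fin 2,
      ((1 + co Λ r m θ) * (1 / 2) - (((![0, 1] : Fin 2 → ℤ) i : ℤ) : ℂ)) =
      (-(1 / 4)) * (1 - co Λ r m θ ^ 2) := by
    intro m
    rw [Fin.prod_univ_two]
    simp only [Matrix.cons_val_zero, Matrix.cons_val_one, Int.cast_zero, Int.cast_one]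
    ring
  simp only [e2]
  rw [Finset.prod_mul_distrib, co_prod hr, Finset.prod_const, Finset.card_univ, Fintype.card_fin]
  have h3 : (c : ℂ) * exp (Λ : ℂ) = -64 := by
    have := congrArg (fun x : ℝ => (x : ℂ)) hc
    push_cast at this
    exact this
  change (c : ℂ) * ((-(1 / 4)) ^ 3 * exp (Λ : ℂ)) = 1
  linear_combination (-(1 / 64 : ℂ)) * h3

theorem k3_main (c : ℤ) (h1 : -64 < c) (h2 : c < 0) :
    ∃ u : Fin 3 → Fin 2 → (KRing c)ˣ,
      (∀ m, (u m 0 : KRing c) = gridX _ _ c m) ∧ (∀ m, (u m 1 : KRing c) = gridX _ _ c m - 1) ∧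
      Unramified (symM fun m => u m 1 / u m 0) ∧
      ∃ R : KMQ (KRing c) 3 →ₗ[ℚ] ℝ, IsTorusRegulator (n := 2) R ∧
        R (symM fun m => u m 1 / u m 0) ≠ 0 := by
  have hc0 : (0 : ℝ) < -(c : ℝ) := by
    have : (c : ℝ) < 0 := by exact_mod_cast h2
    linarith
  have hc1 : -(c : ℝ) < 64 := by
    have : (-64 : ℝ) < (c : ℝ) := by exact_mod_cast h1
    linarith
  set Λ : ℝ := Real.log (64 / -(c : ℝ)) with hΛdef
  have hΛ : 0 < Λ := by
    apply Real.log_pos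
    rw [one_lt_div hc0]
    exact hc1
  have hce : (c : ℝ) * Real.exp Λ = -64 := by
    rw [hΛdef, Real.exp_log (by positivity)]
    have : (c : ℝ) ≠ 0 := by linarith
    field_simp
  obtain ⟨r, hr, hR⟩ := exists_torus hΛ
  obtain ⟨γ, hγ⟩ := exists_gridHom (n := 2) (p := fun _ => 1) (a := fun _ => ![0, 1]) (c := c)
    (xs hΛ r) (rel hΛ hr hce)
  obtain ⟨T, hT⟩ := exists_regTorus 2
  have hFs : ∀ f : Fin 3 → (KRing c)ˣ, (T.comp (KMQ.map γ 3)) (symM f) =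
      regTorus (fun j => ((γ (f j : KRing c) : TorusRing 2) : (Fin 2 → ℝ) → ℂ)) := by
    intro f
    simp only [LinearMap.comp_apply]
    rw [KMQ.map_symM, hT]
    rfl
  refine ⟨fun m i => gridU (n := 2) (fun _ => 1) (fun _ => ![0, 1]) c m i, fun m => ?_, fun m => ?_,
    grid_unramified (n := 2) (p := fun _ => 1) (a := fun _ => ![0, 1]) (c := c) (fun _ => 0),
    T.comp (KMQ.map γ 3), ⟨γ, hFs⟩, ?_⟩
  · rw [gridU_val]
    simp
  · rw [gridU_val]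
    simp
  · rw [hFs]
    have hfun : (fun j : Fin 3 => ((γ (((gridU (n := 2) (fun _ => 1) (fun _ => ![0, 1]) c j 1) /
        (gridU (n := 2) (fun _ => 1) (fun _ => ![0, 1]) c j 0) : (KRing c)ˣ) : KRing c) :
        TorusRing 2) : (Fin 2 → ℝ) → ℂ)) = tri (U0 r) (U1 Λ r) (U2 Λ r) := by
      funext m θ
      rw [tri_eq]
      set u1 : (KRing c)ˣ := gridU (n := 2) (fun _ => 1) (fun _ => ![0, 1]) c m 1 with hu1
      set u0 : (KRing c)ˣ := gridU (n := 2) (fun _ => 1) (fun _ => ![0, 1]) c m 0 with hu0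
      have e1 : ((u1 / u0 : (KRing c)ˣ) : KRing c) * (u0 : KRing c) = u1 := by
        rw [← Units.val_mul, div_mul_cancel]
      have e2 := congrArg (fun x => ((γ x : TorusRing 2) : (Fin 2 → ℝ) → ℂ) θ) e1
      simp only [map_mul] at e2
      have v0 : (u0 : KRing c) = gridX (n := 2) (fun _ => 1) (fun _ => ![0, 1]) c m := by
        rw [hu0, gridU_val]
        simp
      have v1 : (u1 : KRing c) = gridX (n := 2) (fun _ => 1) (fun _ => ![0, 1]) c m - 1 := by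
        rw [hu1, gridU_val]
        simp
      rw [v0, v1, map_sub, map_one, hγ] at e2
      rw [Subring.coe_mul, Pi.mul_apply, AddSubgroupClass.coe_sub, Pi.sub_apply, xs_apply] at e2
      have e3 : (((1 : TorusRing 2) : TorusRing 2) : (Fin 2 → ℝ) → ℂ) θ = 1 := rfl
      rw [e3] at e2
      obtain ⟨n1, n2⟩ := qq_aux (co_ne hr Λ m θ)
      unfold qq
      rw [eq_div_iff n2]
      linear_combination 2 * e2
    rw [hfun]
    exact hR

end Pool.Agent.Helper12.K3
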