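import Mathlib
import Pool.Agent.Helper11.GridDefs

/-! The affine surface `c x₀(x₀-1) x₁(x₁-1) x₂(x₂-1) = 1`. -/

namespace Pool.Agent.Helper12.K3

open Pool.Agent.Helper11

/-- The ring `ℤ[x₀, x₁, x₂] / (c x₀(x₀-1) x₁(x₁-1) x₂(x₂-1) - 1)`, the case `n = 2`, `p = 1`,
`a = (0, 1)` of the ring `GridRing p a c = ℤ[x₀, ..., xₙ] / (c ∏ₘ ∏ᵢ (xₘ - aₘᵢ) - 1)`. -/
def K3Ring (c : ℤ) : Type := GridRing (n := 2) (fun _ => 1) (fun _ => ![0, 1]) c

noncomputable instance (c : ℤ) : CommRing (K3Ring c) :=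
  inferInstanceAs (CommRing (GridRing (n := 2) (fun _ => 1) (fun _ => ![0, 1]) c))

/-- The coordinate function `xₘ`. -/
noncomputable def K3X (c : ℤ) (m : Fin 3) : K3Ring c :=
  gridX (n := 2) (fun _ => 1) (fun _ => ![0, 1]) c m

end Pool.Agent.Helper12.K3
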